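import Mathlib

open Metric Complex MeasureTheory intervalIntegral Finset

namespace Pool.Agent.Helper610.Bohr

/-- `a` is the coefficient sequence of a power series converging to `f` on the unit disk. -/
def PS (f : ℂ → ℂ) (a : ℕ → ℂ) : Prop :=
  ∀ z : ℂ, ‖z‖ < 1 → HasSum (fun n => a n * z ^ n) (f z)

/-- The Taylor coefficients at the origin. -/
noncomputable def coeff (f : ℂ → ℂ) (n : ℕ) : ℂ := iteratedDeriv n f 0 / (n.factorial : ℂ)

theorem PS.of_diff {f : ℂ → ℂ} (hf : DifferentiableOn ℂ f (ball 0 1)) : PS f (coeff f) := by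
  intro z hz
  have h := hasSum_taylorSeries_on_ball hf (by simpa using hz : z ∈ ball (0 : ℂ) 1)
  have e : (fun n : ℕ => coeff f n * z ^ n) =
      (fun n : ℕ ↦ (n.factorial : ℂ)⁻¹ • (z - 0) ^ n • iteratedDeriv n f 0) := by
    funext n
    simp only [coeff, sub_zero, smul_eq_mul]
    ring
  rw [e]
  exact h

theorem PS.congr {f g : ℂ → ℂ} {a : ℕ → ℂ} (hf : PS f a) (h : ∀ z : ℂ, ‖z‖ < 1 → g z = f z) :
    PS g a := by
  intro z hz
  rw [h z hz]
  exact hf z hz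

theorem PS.summable_norm {f : ℂ → ℂ} {a : ℕ → ℂ} (hf : PS f a) {r : ℝ} (h0 : 0 ≤ r) (h1 : r < 1) :
    Summable (fun n => ‖a n‖ * r ^ n) := by
  have h := (hf (r : ℂ) (by simpa [abs_of_nonneg h0] using h1)).summable.norm
  refine h.congr (fun n => ?_)
  simp [abs_of_nonneg h0]

theorem PS.add {f g : ℂ → ℂ} {a b : ℕ → ℂ} (hf : PS f a) (hg : PS g b) :
    PS (fun z => f z + g z) (fun n => a n + b n) := by
  intro z hz
  have h := (hf z hz).add (hg z hz)
  simpa [add_mul] using h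

theorem PS.sub {f g : ℂ → ℂ} {a b : ℕ → ℂ} (hf : PS f a) (hg : PS g b) :
    PS (fun z => f z - g z) (fun n => a n - b n) := by
  intro z hz
  have h := (hf z hz).sub (hg z hz)
  simpa [sub_mul] using h

theorem PS.const_mul {f : ℂ → ℂ} {a : ℕ → ℂ} (c : ℂ) (hf : PS f a) :
    PS (fun z => c * f z) (fun n => c * a n) := by
  intro z hz
  have h := (hf z hz).mul_left c
  simpa [mul_assoc] using h

theorem PS.const (c : ℂ) : PS (fun _ => c) (fun n => if n = 0 then c else 0) := by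
  intro z _
  have h := hasSum_ite_eq (0 : ℕ) c
  have e : (fun n : ℕ => (if n = 0 then c else 0) * z ^ n) = (fun n : ℕ => if n = 0 then c else 0) := by
    funext n
    by_cases hn : n = 0
    · simp [hn]
    · simp [hn]
  rw [e]
  exact h

/-- Cauchy product. -/
noncomputable def conv (a b : ℕ → ℂ) (n : ℕ) : ℂ := ∑ kl ∈ antidiagonal n, a kl.1 * b kl.2

theorem PS.mul {f g : ℂ → ℂ} {a b : ℕ → ℂ} (hf : PS f a) (hg : PS g b) :
    PS (fun z => f z * g z) (conv a b) := by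
  intro z hz
  have h1 := (hf z hz).summable.norm
  have h2 := (hg z hz).summable.norm
  have hs := summable_norm_sum_mul_antidiagonal_of_summable_norm h1 h2
  have hsum := tsum_mul_tsum_eq_tsum_sum_antidiagonal_of_summable_norm h1 h2
  rw [(hf z hz).tsum_eq, (hg z hz).tsum_eq] at hsum
  have e : (fun n => conv a b n * z ^ n) =
      (fun n => ∑ kl ∈ antidiagonal n, a kl.1 * z ^ kl.1 * (b kl.2 * z ^ kl.2)) := by
    funext n
    rw [conv, Finset.sum_mul]
    refine Finset.sum_congr rfl (fun kl hkl => ?_)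
    rw [HasAntidiagonal.mem_antidiagonal] at hkl
    rw [← hkl, pow_add]
    ring
  show HasSum _ (f z * g z)
  rw [e, hsum]
  exact hs.of_norm.hasSum

/-- shift of a sequence -/
def shiftSeq (a : ℕ → ℂ) : ℕ → ℂ
  | 0 => 0
  | n + 1 => a n

theorem PS.shift {f : ℂ → ℂ} {a : ℕ → ℂ} (hf : PS f a) :
    PS (fun z => z * f z) (shiftSeq a) := by
  intro z hz
  have h := (hf z hz).mul_left z
  rw [← hasSum_nat_add_iff' 1]
  have e : (fun n : ℕ => shiftSeq a (n + 1) * z ^ (n + 1)) = (fun n : ℕ => z * (a n * z ^ n)) := by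
    funext n
    simp only [shiftSeq]
    ring
  rw [e]
  simpa [shiftSeq] using h


/-- the point of the circle of radius `ρ` with angle `θ` -/
noncomputable def pt (ρ θ : ℝ) : ℂ := (ρ : ℂ) * exp (θ * I)

theorem norm_pt {ρ : ℝ} (h : 0 ≤ ρ) (θ : ℝ) : ‖pt ρ θ‖ = ρ := by
  rw [pt, norm_mul, Complex.norm_exp_ofReal_mul_I, mul_one, Complex.norm_real, Real.norm_eq_abs,
    abs_of_nonneg h]

theorem continuous_pt (ρ : ℝ) : Continuous (pt ρ) := by
  unfold pt
  fun_prop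

/-- Termwise integration against a continuous function. -/
theorem PS.hasSum_integral {f : ℂ → ℂ} {a : ℕ → ℂ} (hf : PS f a) {ρ : ℝ} (h0 : 0 ≤ ρ) (h1 : ρ < 1)
    {G : ℝ → ℂ} (hG : Continuous G) :
    HasSum (fun n => a n * ∫ θ in (0 : ℝ)..(2 * Real.pi), (pt ρ θ) ^ n * G θ)
      (∫ θ in (0 : ℝ)..(2 * Real.pi), f (pt ρ θ) * G θ) := by
  obtain ⟨M, hM⟩ : ∃ M, ∀ θ ∈ Set.uIcc (0 : ℝ) (2 * Real.pi), ‖G θ‖ ≤ M := by
    obtain ⟨M, hM⟩ := (isCompact_uIcc (a := (0 : ℝ)) (b := 2 * Real.pi)).exists_bound_of_continuousOn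
      hG.continuousOn
    exact ⟨M, hM⟩
  have hs := hf.summable_norm h0 h1
  have key := intervalIntegral.hasSum_integral_of_dominated_convergence (a := (0 : ℝ))
    (b := 2 * Real.pi) (μ := volume) (F := fun (n : ℕ) θ => a n * (pt ρ θ) ^ n * G θ)
    (f := fun θ => f (pt ρ θ) * G θ)
    (fun n _ => ‖a n‖ * ρ ^ n * M) ?_ ?_ ?_ ?_ ?_
  · refine key.congr_fun ?_
    intro n
    rw [← intervalIntegral.integral_const_mul]
    congr 1
    funext θ
    ring
  · intro n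
    have hc : Continuous (fun θ => a n * (pt ρ θ) ^ n * G θ) :=
      (continuous_const.mul ((continuous_pt ρ).pow n)).mul hG
    exact hc.aestronglyMeasurable
  · intro n
    refine Filter.Eventually.of_forall (fun θ hθ => ?_)
    rw [norm_mul, norm_mul, norm_pow, norm_pt h0]
    exact mul_le_mul_of_nonneg_left (hM θ (Set.uIoc_subset_uIcc hθ)) (by positivity)
  · exact Filter.Eventually.of_forall (fun θ _ => hs.mul_right M)
  · exact intervalIntegrable_const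
  · refine Filter.Eventually.of_forall (fun θ _ => ?_)
    exact (hf (pt ρ θ) (by rw [norm_pt h0]; exact h1)).mul_right (G θ)

theorem integral_exp_int {k : ℤ} (hk : k ≠ 0) :
    ∫ θ in (0 : ℝ)..(2 * Real.pi), exp ((k : ℂ) * I * θ) = 0 := by
  have hc : (k : ℂ) * I ≠ 0 := mul_ne_zero (by exact_mod_cast hk) I_ne_zero
  rw [_root_.integral_exp_mul_complex hc]
  have : exp ((k : ℂ) * I * ((2 * Real.pi : ℝ) : ℂ)) = 1 := by
    rw [Complex.exp_eq_one_iff]
    exact ⟨k, by push_cast; ring⟩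
  rw [this]
  simp

theorem integral_pt_pow_pos (ρ : ℝ) {n : ℕ} (hn : n ≠ 0) :
    ∫ θ in (0 : ℝ)..(2 * Real.pi), (pt ρ θ) ^ n = 0 := by
  have e : (fun θ : ℝ => (pt ρ θ) ^ n) = (fun θ : ℝ => (ρ : ℂ) ^ n * exp (((n : ℤ) : ℂ) * I * θ)) := by
    funext θ
    rw [pt, mul_pow, ← Complex.exp_nat_mul]
    congr 2
    push_cast
    ring
  rw [e, intervalIntegral.integral_const_mul, integral_exp_int (by exact_mod_cast hn), mul_zero]

theorem integral_pt_pow_conj (ρ : ℝ) (n m : ℕ) :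
    ∫ θ in (0 : ℝ)..(2 * Real.pi), (pt ρ θ) ^ n * (starRingEnd ℂ) (pt ρ θ) ^ m =
      if n = m then (2 * Real.pi : ℂ) * (ρ : ℂ) ^ (2 * n) else 0 := by
  have e : (fun θ : ℝ => (pt ρ θ) ^ n * (starRingEnd ℂ) (pt ρ θ) ^ m) =
      (fun θ : ℝ => (ρ : ℂ) ^ (n + m) * exp ((((n : ℤ) - (m : ℤ) : ℤ) : ℂ) * I * θ)) := by
    funext θ
    have h1 : (starRingEnd ℂ) (pt ρ θ) = (ρ : ℂ) * exp (-(θ * I)) := by
      rw [pt, map_mul, Complex.conj_ofReal, ← Complex.exp_conj]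
      congr 2
      simp
    rw [h1, pt, mul_pow, mul_pow, ← Complex.exp_nat_mul, ← Complex.exp_nat_mul]
    have : ((ρ : ℂ) ^ n * exp ((n : ℂ) * (θ * I))) * ((ρ : ℂ) ^ m * exp ((m : ℂ) * (-(θ * I)))) =
        (ρ : ℂ) ^ (n + m) * (exp ((n : ℂ) * (θ * I)) * exp ((m : ℂ) * (-(θ * I)))) := by
      rw [pow_add]; ring
    rw [this, ← Complex.exp_add]
    congr 2
    push_cast
    ring
  rw [e, intervalIntegral.integral_const_mul]
  by_cases h : n = m
  · subst h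
    simp
    ring
  · rw [integral_exp_int (by omega), mul_zero, if_neg h]

theorem PS.integral_mul_conj {f : ℂ → ℂ} {a : ℕ → ℂ} (hf : PS f a) {ρ : ℝ} (h0 : 0 ≤ ρ) (h1 : ρ < 1)
    (m : ℕ) :
    ∫ θ in (0 : ℝ)..(2 * Real.pi), f (pt ρ θ) * (starRingEnd ℂ) (pt ρ θ) ^ m =
      (2 * Real.pi : ℂ) * (a m * (ρ : ℂ) ^ (2 * m)) := by
  have hG : Continuous (fun θ : ℝ => (starRingEnd ℂ) (pt ρ θ) ^ m) :=
    (Complex.continuous_conj.comp (continuous_pt ρ)).pow m
  have h := hf.hasSum_integral h0 h1 hG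
  have h2 : HasSum (fun n => a n * ∫ θ in (0 : ℝ)..(2 * Real.pi), (pt ρ θ) ^ n *
      (starRingEnd ℂ) (pt ρ θ) ^ m) ((2 * Real.pi : ℂ) * (a m * (ρ : ℂ) ^ (2 * m))) := by
    have h3 := hasSum_single (f := fun n => a n * ∫ θ in (0 : ℝ)..(2 * Real.pi), (pt ρ θ) ^ n *
      (starRingEnd ℂ) (pt ρ θ) ^ m) m (fun n hn => by
        simp only [integral_pt_pow_conj, if_neg hn, mul_zero])
    rw [integral_pt_pow_conj, if_pos rfl] at h3
    convert h3 using 1
    ring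
  exact h.unique h2

theorem PS.integral_mul_pow {f : ℂ → ℂ} {a : ℕ → ℂ} (hf : PS f a) {ρ : ℝ} (h0 : 0 ≤ ρ) (h1 : ρ < 1)
    {m : ℕ} (hm : m ≠ 0) :
    ∫ θ in (0 : ℝ)..(2 * Real.pi), f (pt ρ θ) * (pt ρ θ) ^ m = 0 := by
  have hG : Continuous (fun θ : ℝ => (pt ρ θ) ^ m) := (continuous_pt ρ).pow m
  have h := hf.hasSum_integral h0 h1 hG
  have h2 : HasSum (fun n => a n * ∫ θ in (0 : ℝ)..(2 * Real.pi), (pt ρ θ) ^ n * (pt ρ θ) ^ m) 0 := by
    have : (fun n => a n * ∫ θ in (0 : ℝ)..(2 * Real.pi), (pt ρ θ) ^ n * (pt ρ θ) ^ m) =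
        fun _ => 0 := by
      funext n
      have e : (fun θ : ℝ => (pt ρ θ) ^ n * (pt ρ θ) ^ m) = fun θ : ℝ => (pt ρ θ) ^ (n + m) := by
        funext θ
        rw [pow_add]
      rw [e, integral_pt_pow_pos ρ (by omega), mul_zero]
    rw [this]
    exact hasSum_zero
  exact h.unique h2

theorem PS.unique {f : ℂ → ℂ} {a b : ℕ → ℂ} (ha : PS f a) (hb : PS f b) : a = b := by
  funext m
  have h1 := ha.integral_mul_conj (ρ := 1 / 2) (by norm_num) (by norm_num) m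
  have h2 := hb.integral_mul_conj (ρ := 1 / 2) (by norm_num) (by norm_num) m
  rw [h1] at h2
  have hpi : (2 * Real.pi : ℂ) ≠ 0 := by
    have := Real.pi_ne_zero
    exact mul_ne_zero two_ne_zero (by exact_mod_cast this)
  have h3 := mul_left_cancel₀ hpi h2
  have hρ : (((1 / 2 : ℝ) : ℂ)) ^ (2 * m) ≠ 0 := pow_ne_zero _ (by norm_num)
  exact mul_right_cancel₀ hρ h3

/-- Parseval on the circle of radius `ρ`. -/
theorem PS.parseval {f : ℂ → ℂ} {a : ℕ → ℂ} (hf : PS f a) (hd : DifferentiableOn ℂ f (ball 0 1))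
    {ρ : ℝ} (h0 : 0 ≤ ρ) (h1 : ρ < 1) :
    HasSum (fun n => ‖a n‖ ^ 2 * ρ ^ (2 * n))
      ((2 * Real.pi)⁻¹ * ∫ θ in (0 : ℝ)..(2 * Real.pi), ‖f (pt ρ θ)‖ ^ 2) := by
  have hcf : Continuous (fun θ : ℝ => f (pt ρ θ)) := by
    refine hd.continuousOn.comp_continuous (continuous_pt ρ) (fun θ => ?_)
    rw [mem_ball_zero_iff, norm_pt h0]
    exact h1
  have hG : Continuous (fun θ : ℝ => (starRingEnd ℂ) (f (pt ρ θ))) :=
    Complex.continuous_conj.comp hcf
  have h := hf.hasSum_integral h0 h1 hG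
  have e1 : ∀ n : ℕ, (∫ θ in (0 : ℝ)..(2 * Real.pi), (pt ρ θ) ^ n * (starRingEnd ℂ) (f (pt ρ θ))) =
      (2 * Real.pi : ℂ) * ((starRingEnd ℂ) (a n) * (ρ : ℂ) ^ (2 * n)) := by
    intro n
    have h2 := hf.integral_mul_conj h0 h1 n
    have h3 := congrArg (starRingEnd ℂ) h2
    rw [← intervalIntegral_conj] at h3
    simp only [map_mul, map_pow, Complex.conj_conj, Complex.conj_ofReal] at h3
    rw [← show (∫ θ in (0 : ℝ)..(2 * Real.pi), (starRingEnd ℂ) (f (pt ρ θ)) * (pt ρ θ) ^ n) =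
      ∫ θ in (0 : ℝ)..(2 * Real.pi), (pt ρ θ) ^ n * (starRingEnd ℂ) (f (pt ρ θ)) from by
        congr 1; funext θ; ring]
    rw [h3, map_ofNat]
  have e2 : (fun n => a n * ∫ θ in (0 : ℝ)..(2 * Real.pi),
      (pt ρ θ) ^ n * (starRingEnd ℂ) (f (pt ρ θ))) =
      fun n => ((2 * Real.pi * (‖a n‖ ^ 2 * ρ ^ (2 * n)) : ℝ) : ℂ) := by
    funext n
    rw [e1]
    have h4 : a n * (starRingEnd ℂ) (a n) = ((‖a n‖ ^ 2 : ℝ) : ℂ) := by
      rw [Complex.mul_conj, Complex.normSq_eq_norm_sq]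
    calc a n * (2 * (Real.pi : ℂ) * ((starRingEnd ℂ) (a n) * (ρ : ℂ) ^ (2 * n)))
        = 2 * (Real.pi : ℂ) * ((a n * (starRingEnd ℂ) (a n)) * (ρ : ℂ) ^ (2 * n)) := by ring
      _ = _ := by rw [h4]; push_cast; ring
  have e3 : (∫ θ in (0 : ℝ)..(2 * Real.pi), f (pt ρ θ) * (starRingEnd ℂ) (f (pt ρ θ))) =
      ((∫ θ in (0 : ℝ)..(2 * Real.pi), ‖f (pt ρ θ)‖ ^ 2 : ℝ) : ℂ) := by
    rw [← intervalIntegral.integral_ofReal]
    congr 1
    funext θ
    rw [Complex.mul_conj, Complex.normSq_eq_norm_sq]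
  rw [e2, e3] at h
  have h5 := (Complex.hasSum_ofReal.mp h).mul_left ((2 * Real.pi)⁻¹)
  refine h5.congr_fun (fun n => ?_)
  have := Real.pi_pos
  field_simp

theorem integral_norm_sq_le {F : ℂ → ℂ} (hd : DifferentiableOn ℂ F (ball 0 1)) {ρ : ℝ}
    (h0 : 0 ≤ ρ) (h1 : ρ < 1) {M : ℝ → ℝ} (hM : Continuous M)
    (hb : ∀ θ, ‖F (pt ρ θ)‖ ^ 2 ≤ M θ) :
    (2 * Real.pi)⁻¹ * ∫ θ in (0 : ℝ)..(2 * Real.pi), ‖F (pt ρ θ)‖ ^ 2 ≤
      (2 * Real.pi)⁻¹ * ∫ θ in (0 : ℝ)..(2 * Real.pi), M θ := by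
  have hpi := Real.pi_pos
  have hcf : Continuous (fun θ : ℝ => F (pt ρ θ)) := by
    refine hd.continuousOn.comp_continuous (continuous_pt ρ) (fun θ => ?_)
    rw [mem_ball_zero_iff, norm_pt h0]
    exact h1
  refine mul_le_mul_of_nonneg_left ?_ (by positivity)
  refine intervalIntegral.integral_mono_on (by positivity) ?_ ?_ (fun θ _ => hb θ)
  · exact (hcf.norm.pow 2).intervalIntegrable _ _
  · exact hM.intervalIntegrable _ _

/-- Parseval bound for functions bounded by one: finite sums, at radius one. -/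
theorem PS.sum_sq_le_one {f : ℂ → ℂ} {a : ℕ → ℂ} (hf : PS f a)
    (hd : DifferentiableOn ℂ f (ball 0 1)) (hb : ∀ z : ℂ, ‖z‖ < 1 → ‖f z‖ ≤ 1) (N : ℕ) :
    ∑ n ∈ range N, ‖a n‖ ^ 2 ≤ 1 := by
  have hpi := Real.pi_pos
  have h1 : ∀ ρ : ℝ, 0 ≤ ρ → ρ < 1 → ∑ n ∈ range N, ‖a n‖ ^ 2 * ρ ^ (2 * n) ≤ 1 := by
    intro ρ h0 h1
    have hp := hf.parseval hd h0 h1
    have h2 := sum_le_hasSum (range N) (fun n _ => by positivity) hp
    refine h2.trans ?_
    have h3 := integral_norm_sq_le hd h0 h1 (M := fun _ => 1) continuous_const (fun θ => by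
      have := hb (pt ρ θ) (by rw [norm_pt h0]; exact h1)
      have h4 := norm_nonneg (f (pt ρ θ))
      nlinarith)
    refine h3.trans (le_of_eq ?_)
    simp
    field_simp
  have ht : Filter.Tendsto (fun ρ : ℝ => ∑ n ∈ range N, ‖a n‖ ^ 2 * ρ ^ (2 * n))
      (nhdsWithin 1 (Set.Iio 1)) (nhds (∑ n ∈ range N, ‖a n‖ ^ 2 * (1 : ℝ) ^ (2 * n))) := by
    have hc : Continuous (fun ρ : ℝ => ∑ n ∈ range N, ‖a n‖ ^ 2 * ρ ^ (2 * n)) := by fun_prop
    exact (hc.tendsto 1).mono_left nhdsWithin_le_nhds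
  have := le_of_tendsto ht (by
    have h5 : Set.Ioo (0 : ℝ) 1 ∈ nhdsWithin (1 : ℝ) (Set.Iio 1) :=
      Ioo_mem_nhdsLT (by norm_num)
    filter_upwards [h5] with ρ hρ
    exact h1 ρ hρ.1.le hρ.2)
  simpa using this

/-- First order Schwarz-Pick at the origin. -/
theorem PS.norm_one_le {g : ℂ → ℂ} {b : ℕ → ℂ} (hg : PS g b)
    (hd : DifferentiableOn ℂ g (ball 0 1)) (hb : ∀ z : ℂ, ‖z‖ < 1 → ‖g z‖ ≤ 1) :
    ‖b 1‖ ≤ 1 - ‖b 0‖ ^ 2 := by
  have hpi := Real.pi_pos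
  have key : ∀ x : ℂ, ‖b 0‖ ^ 2 + ‖b 1 + x * b 0‖ ^ 2 ≤ 1 + ‖x‖ ^ 2 := by
    intro x
    have hF : PS (fun z => g z + x * (z * g z)) (fun n => b n + x * shiftSeq b n) :=
      hg.add (hg.shift.const_mul x)
    have hFd : DifferentiableOn ℂ (fun z => g z + x * (z * g z)) (ball 0 1) := by
      fun_prop
    have hone : PS (fun z : ℂ => 1 + x * (z * 1)) (fun n => (if n = 0 then (1 : ℂ) else 0) +
        x * shiftSeq (fun n => if n = 0 then (1 : ℂ) else 0) n) :=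
      (PS.const 1).add ((PS.const 1).shift.const_mul x)
    have honed : DifferentiableOn ℂ (fun z : ℂ => 1 + x * (z * 1)) (ball 0 1) := by fun_prop
    have h1 : ∀ ρ : ℝ, 0 ≤ ρ → ρ < 1 →
        ‖b 0‖ ^ 2 + ‖b 1 + x * b 0‖ ^ 2 * ρ ^ 2 ≤ 1 + ‖x‖ ^ 2 * ρ ^ 2 := by
      intro ρ h0 h1
      have hp := hF.parseval hFd h0 h1
      have h2 := sum_le_hasSum (range 2) (fun n _ => by positivity) hp
      have hp1 := hone.parseval honed h0 h1
      have h3 : HasSum (fun n => ‖(if n = 0 then (1 : ℂ) else 0) +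
        x * shiftSeq (fun n => if n = 0 then (1 : ℂ) else 0) n‖ ^ 2 * ρ ^ (2 * n))
          (∑ n ∈ range 2, ‖(if n = 0 then (1 : ℂ) else 0) +
        x * shiftSeq (fun n => if n = 0 then (1 : ℂ) else 0) n‖ ^ 2 * ρ ^ (2 * n)) := by
        refine hasSum_sum_of_ne_finset_zero (fun n hn => ?_)
        simp only [Finset.mem_range, not_lt] at hn
        obtain ⟨m, rfl⟩ : ∃ m, n = m + 2 := ⟨n - 2, by omega⟩
        simp [shiftSeq]
      have h4 := hp1.unique h3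
      have h5 := integral_norm_sq_le hFd h0 h1 (M := fun θ => ‖1 + x * (pt ρ θ * 1)‖ ^ 2)
        (by have := continuous_pt ρ; fun_prop) (fun θ => by
          have h6 := hb (pt ρ θ) (by rw [norm_pt h0]; exact h1)
          have h7 : g (pt ρ θ) + x * (pt ρ θ * g (pt ρ θ)) = (1 + x * (pt ρ θ * 1)) * g (pt ρ θ) := by
            ring
          rw [h7, norm_mul, mul_pow]
          have h8 := norm_nonneg (g (pt ρ θ))
          have h9 : ‖g (pt ρ θ)‖ ^ 2 ≤ 1 := by nlinarith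
          nlinarith [sq_nonneg ‖1 + x * (pt ρ θ * 1)‖])
      rw [h4] at h5
      have h6 := h2.trans h5
      simp only [Finset.sum_range_succ, Finset.sum_range_zero, shiftSeq] at h6
      simpa using h6
    have ht : Filter.Tendsto (fun ρ : ℝ => ‖b 0‖ ^ 2 + ‖b 1 + x * b 0‖ ^ 2 * ρ ^ 2 -
        (1 + ‖x‖ ^ 2 * ρ ^ 2))
      (nhdsWithin 1 (Set.Iio 1)) (nhds (‖b 0‖ ^ 2 + ‖b 1 + x * b 0‖ ^ 2 * 1 ^ 2 -
        (1 + ‖x‖ ^ 2 * 1 ^ 2))) := by
      have hc : Continuous (fun ρ : ℝ => ‖b 0‖ ^ 2 + ‖b 1 + x * b 0‖ ^ 2 * ρ ^ 2 -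
        (1 + ‖x‖ ^ 2 * ρ ^ 2)) := by fun_prop
      exact (hc.tendsto 1).mono_left nhdsWithin_le_nhds
    have h9 := le_of_tendsto ht (b := 0) (by
      have h5 : Set.Ioo (0 : ℝ) 1 ∈ nhdsWithin (1 : ℝ) (Set.Iio 1) :=
        Ioo_mem_nhdsLT (by norm_num)
      filter_upwards [h5] with ρ hρ
      have := h1 ρ hρ.1.le hρ.2
      linarith)
    linarith
  have hk0 := key 0
  simp only [zero_mul, add_zero, norm_zero] at hk0
  have hB := norm_nonneg (b 1)
  have hβ := norm_nonneg (b 0)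
  rcases eq_or_lt_of_le (show ‖b 0‖ ^ 2 ≤ 1 by nlinarith) with h1 | h1
  · nlinarith
  · have hD : 0 < 1 - ‖b 0‖ ^ 2 := by linarith
    set D : ℝ := 1 - ‖b 0‖ ^ 2 with hDdef
    have hx := key (b 1 * (starRingEnd ℂ) (b 0) / (D : ℂ))
    have hDne : (D : ℂ) ≠ 0 := by exact_mod_cast hD.ne'
    have e1 : b 1 + b 1 * (starRingEnd ℂ) (b 0) / (D : ℂ) * b 0 = b 1 / (D : ℂ) := by
      have h2 : (starRingEnd ℂ) (b 0) * b 0 = ((‖b 0‖ ^ 2 : ℝ) : ℂ) := by
        rw [mul_comm, Complex.mul_conj, Complex.normSq_eq_norm_sq]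
      have h3 : ((‖b 0‖ ^ 2 : ℝ) : ℂ) = 1 - (D : ℂ) := by
        rw [hDdef]; push_cast; ring
      calc b 1 + b 1 * (starRingEnd ℂ) (b 0) / (D : ℂ) * b 0
          = b 1 * (1 + ((starRingEnd ℂ) (b 0) * b 0) / (D : ℂ)) := by ring
        _ = b 1 * (1 + (1 - (D : ℂ)) / (D : ℂ)) := by rw [h2, h3]
        _ = b 1 / (D : ℂ) := by field_simp; ring
    rw [e1] at hx
    have e2 : ‖b 1 / (D : ℂ)‖ = ‖b 1‖ / D := by
      rw [norm_div, Complex.norm_real, Real.norm_eq_abs, abs_of_pos hD]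
    have e3 : ‖b 1 * (starRingEnd ℂ) (b 0) / (D : ℂ)‖ = ‖b 1‖ * ‖b 0‖ / D := by
      rw [norm_div, norm_mul, Complex.norm_real, Real.norm_eq_abs, abs_of_pos hD, RCLike.norm_conj]
    rw [e2, e3] at hx
    have hx2 : (‖b 1‖ / D) ^ 2 * D ≤ D := by
      have : (‖b 1‖ * ‖b 0‖ / D) ^ 2 = (‖b 1‖ / D) ^ 2 * ‖b 0‖ ^ 2 := by ring
      rw [this] at hx
      have h4 : ‖b 0‖ ^ 2 = 1 - D := by rw [hDdef]; ring
      rw [h4] at hx
      linarith
    have hx3 : (‖b 1‖ / D) ^ 2 ≤ 1 := by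
      by_contra hcon
      push Not at hcon
      nlinarith
    have hx4 : ‖b 1‖ / D ≤ 1 := by
      have : 0 ≤ ‖b 1‖ / D := by positivity
      nlinarith
    rwa [div_le_one hD] at hx4

theorem integral_kernel {P : ℂ → ℂ} {p : ℕ → ℂ} (hP : PS P p)
    (hd : DifferentiableOn ℂ P (ball 0 1)) (hp0 : p 0 = 1) {ρ : ℝ} (h0 : 0 < ρ) (h1 : ρ < 1) (k : ℕ) :
    ∫ θ in (0 : ℝ)..(2 * Real.pi), (((P (pt ρ θ)).re : ℝ) : ℂ) *
      (if k = 0 then 1 else 2 * (starRingEnd ℂ) (pt 1 θ) ^ k) =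
      (2 * Real.pi : ℂ) * (p k * (ρ : ℂ) ^ k) := by
  have hρ : (ρ : ℂ) ≠ 0 := by exact_mod_cast h0.ne'
  have hcP : Continuous (fun θ : ℝ => P (pt ρ θ)) := by
    refine hd.continuousOn.comp_continuous (continuous_pt ρ) (fun θ => ?_)
    rw [mem_ball_zero_iff, norm_pt h0.le]
    exact h1
  have hcpt := continuous_pt 1
  have hconj : Continuous (fun z : ℂ => (starRingEnd ℂ) z) := Complex.continuous_conj
  have hpt : ∀ θ, pt ρ θ = (ρ : ℂ) * pt 1 θ := by
    intro θ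
    simp [pt]
  -- integral of P times the kernel
  have hA : ∫ θ in (0 : ℝ)..(2 * Real.pi), P (pt ρ θ) * (starRingEnd ℂ) (pt 1 θ) ^ k =
      (2 * Real.pi : ℂ) * (p k * (ρ : ℂ) ^ k) := by
    have h2 := hP.integral_mul_conj h0.le h1 k
    have e : (fun θ : ℝ => P (pt ρ θ) * (starRingEnd ℂ) (pt ρ θ) ^ k) =
        (fun θ : ℝ => (ρ : ℂ) ^ k * (P (pt ρ θ) * (starRingEnd ℂ) (pt 1 θ) ^ k)) := by
      funext θ
      rw [hpt θ, map_mul, Complex.conj_ofReal, mul_pow]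
      ring
    rw [e, intervalIntegral.integral_const_mul] at h2
    have hk : (ρ : ℂ) ^ k ≠ 0 := pow_ne_zero _ hρ
    apply mul_left_cancel₀ hk
    rw [h2]
    ring
  have hB : k ≠ 0 → ∫ θ in (0 : ℝ)..(2 * Real.pi), (starRingEnd ℂ) (P (pt ρ θ)) *
      (starRingEnd ℂ) (pt 1 θ) ^ k = 0 := by
    intro hk0
    have h2 := hP.integral_mul_pow h0.le h1 hk0
    have e : (fun θ : ℝ => P (pt ρ θ) * (pt ρ θ) ^ k) =
        (fun θ : ℝ => (ρ : ℂ) ^ k * (P (pt ρ θ) * (pt 1 θ) ^ k)) := by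
      funext θ
      rw [hpt θ, mul_pow]
      ring
    rw [e, intervalIntegral.integral_const_mul] at h2
    have hk : (ρ : ℂ) ^ k ≠ 0 := pow_ne_zero _ hρ
    have h3 := (mul_eq_zero.mp h2).resolve_left hk
    have h4 := congrArg (starRingEnd ℂ) h3
    rw [← intervalIntegral_conj, map_zero] at h4
    simpa only [map_mul, map_pow] using h4
  by_cases hk0 : k = 0
  · subst hk0
    simp only [if_true, mul_one, pow_zero]
    simp only [pow_zero, mul_one] at hA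
    rw [intervalIntegral.integral_ofReal]
    have h5 : ∫ θ in (0 : ℝ)..(2 * Real.pi), (P (pt ρ θ)).re =
        (∫ θ in (0 : ℝ)..(2 * Real.pi), P (pt ρ θ)).re := by
      have := intervalIntegral.intervalIntegral_re (μ := volume) (hcP.intervalIntegrable 0 (2 * Real.pi))
      simpa using this
    rw [h5, hA, hp0]
    simp
  · simp only [if_neg hk0]
    have e : (fun θ : ℝ => (((P (pt ρ θ)).re : ℝ) : ℂ) * (2 * (starRingEnd ℂ) (pt 1 θ) ^ k)) =
        (fun θ : ℝ => P (pt ρ θ) * (starRingEnd ℂ) (pt 1 θ) ^ k +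
          (starRingEnd ℂ) (P (pt ρ θ)) * (starRingEnd ℂ) (pt 1 θ) ^ k) := by
      funext θ
      have := Complex.re_eq_add_conj (P (pt ρ θ))
      rw [this]
      ring
    rw [e, intervalIntegral.integral_add, hA, hB hk0, add_zero]
    · exact (hcP.mul ((hconj.comp hcpt).pow k)).intervalIntegrable _ _
    · exact ((hconj.comp hcP).mul ((hconj.comp hcpt).pow k)).intervalIntegrable _ _

/-- Convexity bound for functions of positive real part: a weighted sum of moduli of linear forms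
in the coefficients is at most its supremum over the extremal functions
`(1 + ζ z) / (1 - ζ z)`. -/
theorem herglotz_bound {P : ℂ → ℂ} {p : ℕ → ℂ} (hP : PS P p)
    (hd : DifferentiableOn ℂ P (ball 0 1)) (hre : ∀ z : ℂ, ‖z‖ < 1 → 0 ≤ (P z).re) (hp0 : p 0 = 1)
    (N M : ℕ) (w : ℕ → ℝ) (hw : ∀ m, 0 ≤ w m) (κ : ℕ → ℕ → ℂ) (K : ℝ)
    (hK : ∀ ζ : ℂ, ‖ζ‖ = 1 → ∑ m ∈ range N, w m *
      ‖∑ k ∈ range M, κ m k * (if k = 0 then 1 else 2 * ζ ^ k)‖ ≤ K) :
    ∑ m ∈ range N, w m * ‖∑ k ∈ range M, κ m k * p k‖ ≤ K := by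
  have hpi := Real.pi_pos
  have h1 : ∀ ρ : ℝ, 0 < ρ → ρ < 1 →
      ∑ m ∈ range N, w m * ‖∑ k ∈ range M, κ m k * (p k * (ρ : ℂ) ^ k)‖ ≤ K := by
    intro ρ h0 h1
    have hcP : Continuous (fun θ : ℝ => P (pt ρ θ)) := by
      refine hd.continuousOn.comp_continuous (continuous_pt ρ) (fun θ => ?_)
      rw [mem_ball_zero_iff, norm_pt h0.le]
      exact h1
    have hcpt := continuous_pt 1
    have hconj : Continuous (fun z : ℂ => (starRingEnd ℂ) z) := Complex.continuous_conj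
    have hker : ∀ k : ℕ, Continuous (fun θ : ℝ =>
        (if k = 0 then (1 : ℂ) else 2 * (starRingEnd ℂ) (pt 1 θ) ^ k)) := by
      intro k
      by_cases hk : k = 0
      · simp only [hk, if_true]; exact continuous_const
      · simp only [if_neg hk]; fun_prop
    have hre' : Continuous (fun θ : ℝ => (P (pt ρ θ)).re) := Complex.continuous_re.comp hcP
    have hW : ∀ θ, 0 ≤ (P (pt ρ θ)).re := fun θ => hre _ (by rw [norm_pt h0.le]; exact h1)
    have hS : ∀ m, Continuous (fun θ : ℝ => ∑ k ∈ range M, κ m k *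
        (if k = 0 then (1 : ℂ) else 2 * (starRingEnd ℂ) (pt 1 θ) ^ k)) := by
      intro m
      exact continuous_finsetSum _ (fun k _ => continuous_const.mul (hker k))
    have hrep : ∀ m, (2 * Real.pi : ℂ) * ∑ k ∈ range M, κ m k * (p k * (ρ : ℂ) ^ k) =
        ∫ θ in (0 : ℝ)..(2 * Real.pi), (((P (pt ρ θ)).re : ℝ) : ℂ) *
          ∑ k ∈ range M, κ m k * (if k = 0 then 1 else 2 * (starRingEnd ℂ) (pt 1 θ) ^ k) := by
      intro m
      have e : (fun θ : ℝ => (((P (pt ρ θ)).re : ℝ) : ℂ) *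
          ∑ k ∈ range M, κ m k * (if k = 0 then 1 else 2 * (starRingEnd ℂ) (pt 1 θ) ^ k)) =
          (fun θ : ℝ => ∑ k ∈ range M, κ m k * ((((P (pt ρ θ)).re : ℝ) : ℂ) *
            (if k = 0 then 1 else 2 * (starRingEnd ℂ) (pt 1 θ) ^ k))) := by
        funext θ
        rw [Finset.mul_sum]
        refine Finset.sum_congr rfl (fun k _ => ?_)
        ring
      rw [e, intervalIntegral.integral_finsetSum]
      · rw [Finset.mul_sum]
        refine Finset.sum_congr rfl (fun k _ => ?_)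
        rw [intervalIntegral.integral_const_mul, integral_kernel hP hd hp0 h0 h1 k]
        ring
      · intro k _
        refine Continuous.intervalIntegrable ?_ _ _
        exact continuous_const.mul ((Complex.continuous_ofReal.comp hre').mul (hker k))
    have hn : ∀ m, 2 * Real.pi * ‖∑ k ∈ range M, κ m k * (p k * (ρ : ℂ) ^ k)‖ ≤
        ∫ θ in (0 : ℝ)..(2 * Real.pi), (P (pt ρ θ)).re *
          ‖∑ k ∈ range M, κ m k * (if k = 0 then 1 else 2 * (starRingEnd ℂ) (pt 1 θ) ^ k)‖ := by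
      intro m
      have h2 : 2 * Real.pi * ‖∑ k ∈ range M, κ m k * (p k * (ρ : ℂ) ^ k)‖ =
          ‖(2 * Real.pi : ℂ) * ∑ k ∈ range M, κ m k * (p k * (ρ : ℂ) ^ k)‖ := by
        rw [norm_mul]
        congr 1
        simp [abs_of_pos hpi]
      rw [h2, hrep m]
      refine (intervalIntegral.norm_integral_le_integral_norm (by positivity)).trans (le_of_eq ?_)
      congr 1
      funext θ
      rw [norm_mul, Complex.norm_real, Real.norm_eq_abs, abs_of_nonneg (hW θ)]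
    have htot : 2 * Real.pi * ∑ m ∈ range N, w m * ‖∑ k ∈ range M, κ m k * (p k * (ρ : ℂ) ^ k)‖ ≤
        ∫ θ in (0 : ℝ)..(2 * Real.pi), (P (pt ρ θ)).re * K := by
      have h3 : 2 * Real.pi * ∑ m ∈ range N, w m * ‖∑ k ∈ range M, κ m k * (p k * (ρ : ℂ) ^ k)‖ ≤
          ∑ m ∈ range N, ∫ θ in (0 : ℝ)..(2 * Real.pi), w m * ((P (pt ρ θ)).re *
          ‖∑ k ∈ range M, κ m k * (if k = 0 then 1 else 2 * (starRingEnd ℂ) (pt 1 θ) ^ k)‖) := by
        rw [Finset.mul_sum]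
        refine Finset.sum_le_sum (fun m _ => ?_)
        rw [intervalIntegral.integral_const_mul]
        have := mul_le_mul_of_nonneg_left (hn m) (hw m)
        linarith
      refine h3.trans ?_
      rw [← intervalIntegral.integral_finsetSum]
      · refine intervalIntegral.integral_mono_on (by positivity) ?_ ?_ (fun θ _ => ?_)
        · refine Continuous.intervalIntegrable ?_ _ _
          exact continuous_finsetSum _ (fun m _ => continuous_const.mul (hre'.mul (hS m).norm))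
        · exact (hre'.mul continuous_const).intervalIntegrable _ _
        · have h4 := hK ((starRingEnd ℂ) (pt 1 θ)) (by rw [RCLike.norm_conj, norm_pt zero_le_one])
          have h5 : ∑ m ∈ range N, w m * ((P (pt ρ θ)).re *
              ‖∑ k ∈ range M, κ m k * (if k = 0 then 1 else 2 * (starRingEnd ℂ) (pt 1 θ) ^ k)‖) =
              (P (pt ρ θ)).re * ∑ m ∈ range N, w m *
              ‖∑ k ∈ range M, κ m k * (if k = 0 then 1 else 2 * (starRingEnd ℂ) (pt 1 θ) ^ k)‖ := by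
            rw [Finset.mul_sum]
            refine Finset.sum_congr rfl (fun m _ => ?_)
            ring
          rw [h5]
          exact mul_le_mul_of_nonneg_left h4 (hW θ)
      · intro m _
        refine Continuous.intervalIntegrable ?_ _ _
        exact continuous_const.mul (hre'.mul (hS m).norm)
    have hint : ∫ θ in (0 : ℝ)..(2 * Real.pi), (P (pt ρ θ)).re * K = 2 * Real.pi * K := by
      rw [intervalIntegral.integral_mul_const]
      have h6 := integral_kernel hP hd hp0 h0 h1 0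
      simp only [if_true, mul_one, pow_zero] at h6
      rw [intervalIntegral.integral_ofReal, hp0] at h6
      have h7 : (∫ θ in (0 : ℝ)..(2 * Real.pi), (P (pt ρ θ)).re) = 2 * Real.pi := by
        have := congrArg Complex.re h6
        simpa using this
      rw [h7]
    rw [hint] at htot
    have h8 : 0 < 2 * Real.pi := by positivity
    exact le_of_mul_le_mul_left htot h8
  have ht : Filter.Tendsto (fun ρ : ℝ => ∑ m ∈ range N, w m *
      ‖∑ k ∈ range M, κ m k * (p k * (ρ : ℂ) ^ k)‖)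
      (nhdsWithin 1 (Set.Iio 1)) (nhds (∑ m ∈ range N, w m *
      ‖∑ k ∈ range M, κ m k * (p k * ((1 : ℝ) : ℂ) ^ k)‖)) := by
    have hc : Continuous (fun ρ : ℝ => ∑ m ∈ range N, w m *
      ‖∑ k ∈ range M, κ m k * (p k * (ρ : ℂ) ^ k)‖) := by fun_prop
    exact (hc.tendsto 1).mono_left nhdsWithin_le_nhds
  have := le_of_tendsto ht (by
    have h5 : Set.Ioo (0 : ℝ) 1 ∈ nhdsWithin (1 : ℝ) (Set.Iio 1) :=
      Ioo_mem_nhdsLT (by norm_num)
    filter_upwards [h5] with ρ hρ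
    exact h1 ρ hρ.1 hρ.2)
  simpa using this

end Pool.Agent.Helper610.Bohr
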