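import Pool.Agent.Helper610.Bohr.Basic

open Metric Complex Finset

namespace Pool.Agent.Helper610.Bohr

/-- The class of analytic self-maps of the disk with prescribed value `lam` at the origin. -/
def InClass (lam : ℝ) (f : ℂ → ℂ) : Prop :=
  DifferentiableOn ℂ f (ball 0 1) ∧ (∀ z ∈ ball (0 : ℂ) 1, ‖f z‖ < 1) ∧ f 0 = (lam : ℂ)

/-- The majorant series `lam + ∑ |a_n| r^n`. -/
noncomputable def majorant (lam : ℝ) (f : ℂ → ℂ) (r : ℝ) : ℝ :=
  lam + ∑' n : ℕ, ‖coeff f (n + 1)‖ * r ^ (n + 1)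

/-- The best constant `B(lam)`. -/
noncomputable def B (lam : ℝ) : ℝ :=
  sSup {r : ℝ | 0 ≤ r ∧ r < 1 ∧ ∀ f, InClass lam f → majorant lam f r ≤ 1}

/-- Finite sum form of the admissibility of the radius `r`. -/
def Good (lam r : ℝ) : Prop :=
  ∀ f, InClass lam f → ∀ N, ∑ n ∈ range N, ‖coeff f (n + 1)‖ * r ^ (n + 1) ≤ 1 - lam

theorem InClass.ps {lam : ℝ} {f : ℂ → ℂ} (hf : InClass lam f) : PS f (coeff f) := PS.of_diff hf.1

theorem summable_maj {lam : ℝ} {f : ℂ → ℂ} (hf : InClass lam f) {r : ℝ} (h0 : 0 ≤ r) (h1 : r < 1) :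
    Summable (fun n : ℕ => ‖coeff f (n + 1)‖ * r ^ (n + 1)) :=
  (summable_nat_add_iff 1).mpr (hf.ps.summable_norm h0 h1)

theorem good_iff {lam r : ℝ} (h0 : 0 ≤ r) (h1 : r < 1) :
    (∀ f, InClass lam f → majorant lam f r ≤ 1) ↔ Good lam r := by
  constructor
  · intro h f hf N
    have h2 := h f hf
    have h3 := (summable_maj hf h0 h1).sum_le_tsum (range N) (fun n _ => by positivity)
    unfold majorant at h2
    linarith
  · intro h f hf
    have h2 := (summable_maj hf h0 h1).tsum_le_of_sum_range_le (c := 1 - lam) (h f hf)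
    unfold majorant
    linarith

theorem Good.mono {lam r r' : ℝ} (h : Good lam r) (h0 : 0 ≤ r') (h1 : r' ≤ r) : Good lam r' := by
  intro f hf N
  refine le_trans (Finset.sum_le_sum (fun n _ => ?_)) (h f hf N)
  exact mul_le_mul_of_nonneg_left (pow_le_pow_left₀ h0 h1 _) (norm_nonneg _)

theorem bddAbove_set (lam : ℝ) :
    BddAbove {r : ℝ | 0 ≤ r ∧ r < 1 ∧ ∀ f, InClass lam f → majorant lam f r ≤ 1} :=
  ⟨1, fun _ hr => hr.2.1.le⟩

theorem zero_mem {lam : ℝ} (hl : lam ≤ 1) :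
    (0 : ℝ) ∈ {r : ℝ | 0 ≤ r ∧ r < 1 ∧ ∀ f, InClass lam f → majorant lam f r ≤ 1} := by
  refine ⟨le_rfl, zero_lt_one, fun f _ => ?_⟩
  unfold majorant
  simp [hl]

theorem le_B {lam r : ℝ} (h : Good lam r) (h0 : 0 ≤ r) (h1 : r < 1) : r ≤ B lam :=
  le_csSup (bddAbove_set lam) ⟨h0, h1, (good_iff h0 h1).mpr h⟩

theorem B_nonneg {lam : ℝ} (hl : lam ≤ 1) : 0 ≤ B lam := le_csSup (bddAbove_set lam) (zero_mem hl)

theorem good_of_lt {lam r : ℝ} (hl : lam ≤ 1) (h0 : 0 ≤ r) (h : r < B lam) : Good lam r := by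
  obtain ⟨r', hr', hlt⟩ := exists_lt_of_lt_csSup ⟨0, zero_mem hl⟩ h
  exact ((good_iff hr'.1 hr'.2.1).mp hr'.2.2).mono h0 hlt.le

theorem good_of_le {lam r : ℝ} (hl : lam ≤ 1) (h0 : 0 ≤ r) (h : r ≤ B lam) : Good lam r := by
  rcases eq_or_lt_of_le h0 with h2 | h2
  · intro f _ N
    rw [← h2]
    have : ∑ n ∈ range N, ‖coeff f (n + 1)‖ * (0 : ℝ) ^ (n + 1) = 0 :=
      Finset.sum_eq_zero (fun n _ => by simp)
    rw [this]
    linarith
  · intro f hf N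
    have hc : Continuous (fun x : ℝ => ∑ n ∈ range N, ‖coeff f (n + 1)‖ * x ^ (n + 1)) := by fun_prop
    have ht := (hc.tendsto r).mono_left (nhdsWithin_le_nhds (s := Set.Iio r))
    refine le_of_tendsto ht ?_
    filter_upwards [Ioo_mem_nhdsLT h2] with x hx
    exact good_of_lt hl hx.1.le (hx.2.trans_le h) f hf N

theorem norm_sub_lt_norm {l : ℝ} (h0 : 0 ≤ l) (h1 : l < 1) {w : ℂ} (hw : ‖w‖ < 1) :
    ‖(l : ℂ) - w‖ < ‖1 - (l : ℂ) * w‖ := by
  have h2 : ‖(l : ℂ) - w‖ ^ 2 < ‖1 - (l : ℂ) * w‖ ^ 2 := by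
    have e : ‖1 - (l : ℂ) * w‖ ^ 2 - ‖(l : ℂ) - w‖ ^ 2 = (1 - l ^ 2) * (1 - ‖w‖ ^ 2) := by
      rw [← Complex.normSq_eq_norm_sq, ← Complex.normSq_eq_norm_sq, ← Complex.normSq_eq_norm_sq]
      simp only [Complex.normSq_apply, Complex.sub_re, Complex.sub_im, Complex.mul_re,
        Complex.mul_im, Complex.ofReal_re, Complex.ofReal_im, Complex.one_re, Complex.one_im]
      ring
    have h3 := norm_nonneg w
    have : 0 < (1 - l ^ 2) * (1 - ‖w‖ ^ 2) := by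
      apply mul_pos <;> nlinarith
    linarith
  exact lt_of_pow_lt_pow_left₀ 2 (norm_nonneg _) h2

theorem one_sub_ne {l : ℝ} (h0 : 0 ≤ l) (h1 : l < 1) {w : ℂ} (hw : ‖w‖ < 1) :
    1 - (l : ℂ) * w ≠ 0 := by
  have := norm_sub_lt_norm h0 h1 hw
  intro h
  rw [h, norm_zero] at this
  exact absurd this (not_lt.mpr (norm_nonneg _))

theorem moebius_lt {l : ℝ} (h0 : 0 ≤ l) (h1 : l < 1) {w : ℂ} (hw : ‖w‖ < 1) :
    ‖((l : ℂ) - w) / (1 - (l : ℂ) * w)‖ < 1 := by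
  rw [norm_div, div_lt_one]
  · exact norm_sub_lt_norm h0 h1 hw
  · exact (norm_nonneg _).trans_lt (norm_sub_lt_norm h0 h1 hw)

/-- The Schwarz function `ω = (l - f)/(1 - l f)`. -/
noncomputable def om (l : ℝ) (f : ℂ → ℂ) (z : ℂ) : ℂ := ((l : ℂ) - f z) / (1 - (l : ℂ) * f z)

theorem om_zero {l : ℝ} {f : ℂ → ℂ} (hf : InClass l f) : om l f 0 = 0 := by
  simp [om, hf.2.2]

theorem om_diff {l : ℝ} (h0 : 0 ≤ l) (h1 : l < 1) {f : ℂ → ℂ} (hf : InClass l f) :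
    DifferentiableOn ℂ (om l f) (ball 0 1) := by
  have hfd := hf.1
  unfold om
  refine DifferentiableOn.div (by fun_prop) (by fun_prop) (fun z hz => ?_)
  exact one_sub_ne h0 h1 (hf.2.1 z hz)

theorem om_lt {l : ℝ} (h0 : 0 ≤ l) (h1 : l < 1) {f : ℂ → ℂ} (hf : InClass l f) {z : ℂ}
    (hz : ‖z‖ < 1) : ‖om l f z‖ < 1 :=
  moebius_lt h0 h1 (hf.2.1 z (by simpa using hz))

theorem om_le {l : ℝ} (h0 : 0 ≤ l) (h1 : l < 1) {f : ℂ → ℂ} (hf : InClass l f) {z : ℂ}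
    (hz : ‖z‖ < 1) : ‖om l f z‖ ≤ ‖z‖ := by
  refine norm_le_norm_of_mapsTo_ball (om_diff h0 h1 hf) (fun w hw => ?_) (om_zero hf) hz
  rw [mem_closedBall_zero_iff]
  exact (om_lt h0 h1 hf (by simpa using hw)).le

/-- The normalized function `c = (l - f)/(1 - l^2)`. -/
noncomputable def cf (l : ℝ) (f : ℂ → ℂ) (z : ℂ) : ℂ := ((l : ℂ) - f z) / (1 - (l : ℂ) ^ 2)

/-- coefficients of `c`. -/
noncomputable def cc (l : ℝ) (f : ℂ → ℂ) (n : ℕ) : ℂ :=
  if n = 0 then 0 else - coeff f n / (1 - (l : ℂ) ^ 2)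

theorem coeff_zero_eq {l : ℝ} {f : ℂ → ℂ} (hf : InClass l f) : coeff f 0 = (l : ℂ) := by
  simp [coeff, hf.2.2]

theorem one_sub_sq_ne {l : ℝ} (h0 : 0 ≤ l) (h1 : l < 1) : (1 : ℂ) - (l : ℂ) ^ 2 ≠ 0 := by
  have : (1 : ℝ) - l ^ 2 ≠ 0 := by nlinarith
  exact_mod_cast this

theorem cf_ps {l : ℝ} {f : ℂ → ℂ} (hf : InClass l f) : PS (cf l f) (cc l f) := by
  have h := ((PS.const (l : ℂ)).sub hf.ps).const_mul (1 - (l : ℂ) ^ 2)⁻¹
  have e : (fun n => (1 - (l : ℂ) ^ 2)⁻¹ * ((if n = 0 then (l : ℂ) else 0) - coeff f n)) =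
      cc l f := by
    funext n
    by_cases hn : n = 0
    · subst hn
      simp [cc, coeff_zero_eq hf]
    · simp only [cc, if_neg hn]
      ring
  rw [e] at h
  refine h.congr (fun z _ => ?_)
  simp only [cf]
  ring

theorem norm_cc {l : ℝ} (h0 : 0 ≤ l) (h1 : l < 1) {f : ℂ → ℂ} {n : ℕ} :
    ‖cc l f (n + 1)‖ = ‖coeff f (n + 1)‖ / (1 - l ^ 2) := by
  simp only [cc, if_neg (Nat.succ_ne_zero n)]
  rw [norm_div, norm_neg]
  congr 1
  have : (1 : ℂ) - (l : ℂ) ^ 2 = ((1 - l ^ 2 : ℝ) : ℂ) := by push_cast; ring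
  rw [this, Complex.norm_real, Real.norm_eq_abs, abs_of_pos]
  nlinarith

theorem sum_cc {l : ℝ} (h0 : 0 ≤ l) (h1 : l < 1) {f : ℂ → ℂ} (r : ℝ) (N : ℕ) :
    ∑ n ∈ range (N + 1), ‖cc l f n‖ * r ^ n =
      (∑ n ∈ range N, ‖coeff f (n + 1)‖ * r ^ (n + 1)) / (1 - l ^ 2) := by
  rw [Finset.sum_range_succ', Finset.sum_div]
  have : ‖cc l f 0‖ * r ^ 0 = 0 := by simp [cc]
  rw [this, add_zero]
  refine Finset.sum_congr rfl (fun n _ => ?_)
  rw [norm_cc h0 h1]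
  ring

theorem cf_eq {l : ℝ} (h0 : 0 ≤ l) (h1 : l < 1) {f : ℂ → ℂ} (hf : InClass l f) {z : ℂ}
    (hz : ‖z‖ < 1) : cf l f z = om l f z / (1 - (l : ℂ) * om l f z) := by
  have hw := hf.2.1 z (by simpa using hz)
  have h2 := one_sub_ne h0 h1 hw
  have h3 := one_sub_sq_ne h0 h1
  have h4 := one_sub_ne h0 h1 (om_lt h0 h1 hf hz)
  unfold cf
  rw [eq_div_iff h4, div_mul_eq_mul_div, div_eq_iff h3]
  unfold om
  field_simp
  ring

theorem PS.scale {f : ℂ → ℂ} {a : ℕ → ℂ} (hf : PS f a) {s : ℝ} (h0 : 0 ≤ s) (h1 : s ≤ 1) :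
    PS (fun z => f ((s : ℂ) * z)) (fun n => a n * (s : ℂ) ^ n) := by
  intro z hz
  have h2 : ‖(s : ℂ) * z‖ < 1 := by
    rw [norm_mul, Complex.norm_real, Real.norm_eq_abs, abs_of_nonneg h0]
    have := norm_nonneg z
    nlinarith
  refine (hf _ h2).congr_fun (fun n => ?_)
  rw [mul_pow]
  ring

theorem sum_conv_le {x y : ℕ → ℝ} (hx : ∀ n, 0 ≤ x n) (hy : ∀ n, 0 ≤ y n) (N : ℕ) :
    ∑ n ∈ range N, ∑ kl ∈ antidiagonal n, x kl.1 * y kl.2 ≤
      (∑ n ∈ range N, x n) * ∑ n ∈ range N, y n := by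
  rw [Finset.sum_mul_sum, ← Finset.sum_product', ← Finset.sum_biUnion]
  · refine Finset.sum_le_sum_of_subset_of_nonneg ?_ (fun p _ _ => mul_nonneg (hx _) (hy _))
    intro p hp
    rw [Finset.mem_biUnion] at hp
    obtain ⟨n, hn, hp⟩ := hp
    rw [HasAntidiagonal.mem_antidiagonal] at hp
    rw [Finset.mem_range] at hn
    rw [Finset.mem_product, Finset.mem_range, Finset.mem_range]
    omega
  · intro n _ m _ hnm
    rw [Function.onFun, Finset.disjoint_left]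
    intro p hp hq
    rw [HasAntidiagonal.mem_antidiagonal] at hp hq
    exact hnm (hp.symm.trans hq)

theorem alg1 {l v : ℂ} (h : 1 - l * v ≠ 0) (h2 : 1 - l ^ 2 ≠ 0) :
    (l - (l - v) / (1 - l * v)) / (1 - l ^ 2) = v / (1 - l * v) := by
  rw [div_eq_div_iff h2 h, sub_mul, div_mul_cancel₀ _ h]
  ring

theorem alg2 {W a b t s : ℂ} (ha : a ≠ 0) (hb : b ≠ 0) (h : b - t * W = s * a) :
    W / a - t * (W / b * (W / a)) = s * (W / b) := by
  have : W / a - t * (W / b * (W / a)) = W * (b - t * W) / (a * b) := by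
    field_simp
  rw [this, h]
  field_simp

/-- Transfer of admissible radii: the key monotonicity. -/
theorem Good.transfer {l₀ l r₀ : ℝ} (h00 : 0 ≤ l₀) (hle : l₀ ≤ l) (h1 : l < 1) (hr0 : 0 ≤ r₀)
    (hg : Good l₀ r₀) : Good l ((1 + 2 * l₀) / (1 + 2 * l) * r₀) := by
  have h0 : 0 ≤ l := h00.trans hle
  have h01 : l₀ < 1 := hle.trans_lt h1
  set s : ℝ := (1 + 2 * l₀) / (1 + 2 * l) with hs
  have hs0 : 0 < s := by rw [hs]; positivity
  have hs1 : s ≤ 1 := by rw [hs, div_le_one (by positivity)]; linarith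
  have hsC : (s : ℂ) ≠ 0 := by exact_mod_cast hs0.ne'
  have ht : l * s - l₀ = (l - l₀) / (1 + 2 * l) := by
    rw [hs]; field_simp; ring
  set t : ℝ := (l - l₀) / (1 + 2 * l) with htdef
  have ht0 : 0 ≤ t := by rw [htdef]; apply div_nonneg <;> linarith
  intro f hf N
  -- the companion function
  have hnorm : ∀ z : ℂ, ‖z‖ < 1 → ‖(s : ℂ) * z‖ < 1 ∧ ‖(s : ℂ) * z‖ = s * ‖z‖ := by
    intro z hz
    have e : ‖(s : ℂ) * z‖ = s * ‖z‖ := by
      rw [norm_mul, Complex.norm_real, Real.norm_eq_abs, abs_of_pos hs0]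
    refine ⟨?_, e⟩
    rw [e]
    have := norm_nonneg z
    nlinarith
  have hoh : ∀ z : ℂ, ‖z‖ < 1 → ‖om l f ((s : ℂ) * z) / (s : ℂ)‖ < 1 := by
    intro z hz
    have h2 := om_le h0 h1 hf (hnorm z hz).1
    rw [(hnorm z hz).2] at h2
    rw [norm_div, Complex.norm_real, Real.norm_eq_abs, abs_of_pos hs0, div_lt_one hs0]
    nlinarith
  have hohd : DifferentiableOn ℂ (fun z => om l f ((s : ℂ) * z) / (s : ℂ)) (ball 0 1) := by
    have h2 := om_diff h0 h1 hf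
    have h3 : DifferentiableOn ℂ (fun z : ℂ => om l f ((s : ℂ) * z)) (ball 0 1) := by
      refine DifferentiableOn.comp (t := ball 0 1) h2 (by fun_prop) (fun z hz => ?_)
      have := (hnorm z (by simpa using hz)).1
      simpa using this
    exact h3.div_const _
  set g : ℂ → ℂ := fun z => ((l₀ : ℂ) - om l f ((s : ℂ) * z) / (s : ℂ)) /
    (1 - (l₀ : ℂ) * (om l f ((s : ℂ) * z) / (s : ℂ))) with hgdef
  have hgc : InClass l₀ g := by
    refine ⟨?_, ?_, ?_⟩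
    · refine DifferentiableOn.div (by fun_prop) (by fun_prop) (fun z hz => ?_)
      exact one_sub_ne h00 h01 (hoh z (by simpa using hz))
    · intro z hz
      exact moebius_lt h00 h01 (hoh z (by simpa using hz))
    · simp [hgdef, om_zero hf]
  have hC := cf_ps hgc
  have hc := (cf_ps hf).scale hs0.le hs1
  have hid : ∀ z : ℂ, ‖z‖ < 1 → cf l f ((s : ℂ) * z) - (t : ℂ) * (cf l₀ g z * cf l f ((s : ℂ) * z)) =
      (s : ℂ) * cf l₀ g z := by
    intro z hz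
    have h2 := cf_eq h0 h1 hf (hnorm z hz).1
    have h3 := one_sub_ne h00 h01 (hoh z hz)
    have h4 : cf l₀ g z = (om l f ((s : ℂ) * z) / (s : ℂ)) /
        (1 - (l₀ : ℂ) * (om l f ((s : ℂ) * z) / (s : ℂ))) := by
      have h5 := one_sub_sq_ne h00 h01
      exact alg1 h3 h5
    have h5 := one_sub_ne h0 h1 (om_lt h0 h1 hf (hnorm z hz).1)
    have htC : (t : ℂ) = (l : ℂ) * (s : ℂ) - (l₀ : ℂ) := by
      rw [← ht]; push_cast; ring
    rw [h2, h4, htC]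
    set W : ℂ := om l f ((s : ℂ) * z) with hW
    have h6 : (s : ℂ) - (l₀ : ℂ) * W ≠ 0 := by
      intro h7
      apply h3
      have : (l₀ : ℂ) * (W / (s : ℂ)) = 1 := by
        rw [← mul_div_assoc, div_eq_one_iff_eq hsC]
        exact (sub_eq_zero.mp h7).symm
      rw [this]; ring
    have h8 : W / (s : ℂ) / (1 - (l₀ : ℂ) * (W / (s : ℂ))) = W / ((s : ℂ) - (l₀ : ℂ) * W) := by
      rw [div_div]
      congr 1
      field_simp
    rw [h8]
    exact alg2 h5 h6 (by ring)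
  have hlhs : PS (fun z => cf l f ((s : ℂ) * z) - (t : ℂ) * (cf l₀ g z * cf l f ((s : ℂ) * z)))
      (fun n => cc l f n * (s : ℂ) ^ n -
        (t : ℂ) * conv (cc l₀ g) (fun n => cc l f n * (s : ℂ) ^ n) n) :=
    hc.sub ((hC.mul hc).const_mul t)
  have hrhs : PS (fun z => cf l f ((s : ℂ) * z) - (t : ℂ) * (cf l₀ g z * cf l f ((s : ℂ) * z)))
      (fun n => (s : ℂ) * cc l₀ g n) := (hC.const_mul s).congr hid
  have hco := hlhs.unique hrhs
  have hn : ∀ n, ‖cc l f n * (s : ℂ) ^ n‖ ≤ s * ‖cc l₀ g n‖ +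
      t * ∑ kl ∈ antidiagonal n, ‖cc l₀ g kl.1‖ * ‖cc l f kl.2 * (s : ℂ) ^ kl.2‖ := by
    intro n
    have h2 := congrFun hco n
    have h3 : cc l f n * (s : ℂ) ^ n = (s : ℂ) * cc l₀ g n +
        (t : ℂ) * conv (cc l₀ g) (fun n => cc l f n * (s : ℂ) ^ n) n := by
      rw [← h2]; ring
    calc ‖cc l f n * (s : ℂ) ^ n‖ = ‖(s : ℂ) * cc l₀ g n +
        (t : ℂ) * conv (cc l₀ g) (fun n => cc l f n * (s : ℂ) ^ n) n‖ := by rw [← h3]
      _ ≤ ‖(s : ℂ) * cc l₀ g n‖ + ‖(t : ℂ) * conv (cc l₀ g) (fun n => cc l f n * (s : ℂ) ^ n) n‖ :=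
        norm_add_le _ _
      _ ≤ _ := by
        rw [norm_mul, norm_mul, Complex.norm_real, Complex.norm_real, Real.norm_eq_abs,
          Real.norm_eq_abs, abs_of_pos hs0, abs_of_nonneg ht0]
        gcongr
        unfold conv
        refine (norm_sum_le _ _).trans (le_of_eq ?_)
        refine Finset.sum_congr rfl (fun kl _ => ?_)
        rw [norm_mul]
  set M : ℝ := ∑ n ∈ range (N + 1), ‖cc l₀ g n‖ * r₀ ^ n with hM
  set S : ℝ := ∑ n ∈ range (N + 1), ‖cc l f n * (s : ℂ) ^ n‖ * r₀ ^ n with hS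
  have hM0 : 0 ≤ M := Finset.sum_nonneg (fun n _ => by positivity)
  have hS0 : 0 ≤ S := Finset.sum_nonneg (fun n _ => by positivity)
  have hM1 : M ≤ 1 / (1 + l₀) := by
    rw [hM, sum_cc h00 h01]
    have h2 := hg g hgc N
    have h3 : 0 < 1 - l₀ ^ 2 := by nlinarith
    rw [div_le_div_iff₀ h3 (by linarith)]
    nlinarith
  have hSM : S ≤ s * M + t * (M * S) := by
    have h2 : S ≤ ∑ n ∈ range (N + 1), (s * (‖cc l₀ g n‖ * r₀ ^ n) +
        t * ∑ kl ∈ antidiagonal n, (‖cc l₀ g kl.1‖ * r₀ ^ kl.1) *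
          (‖cc l f kl.2 * (s : ℂ) ^ kl.2‖ * r₀ ^ kl.2)) := by
      refine Finset.sum_le_sum (fun n _ => ?_)
      have h3 := mul_le_mul_of_nonneg_right (hn n) (pow_nonneg hr0 n)
      refine h3.trans (le_of_eq ?_)
      have h4 : (∑ kl ∈ antidiagonal n, ‖cc l₀ g kl.1‖ * ‖cc l f kl.2 * (s : ℂ) ^ kl.2‖) * r₀ ^ n =
          ∑ kl ∈ antidiagonal n, (‖cc l₀ g kl.1‖ * r₀ ^ kl.1) *
          (‖cc l f kl.2 * (s : ℂ) ^ kl.2‖ * r₀ ^ kl.2) := by
        rw [Finset.sum_mul]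
        refine Finset.sum_congr rfl (fun kl hkl => ?_)
        rw [HasAntidiagonal.mem_antidiagonal] at hkl
        rw [← hkl, pow_add]
        ring
      rw [← h4]
      ring
    rw [Finset.sum_add_distrib, ← Finset.mul_sum, ← Finset.mul_sum] at h2
    have h5 := sum_conv_le (x := fun n => ‖cc l₀ g n‖ * r₀ ^ n)
      (y := fun n => ‖cc l f n * (s : ℂ) ^ n‖ * r₀ ^ n) (fun n => by positivity)
      (fun n => by positivity) (N + 1)
    have h6 := mul_le_mul_of_nonneg_left h5 ht0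
    linarith
  have hfin : S ≤ 1 / (1 + l) := by
    have hl0 : 0 < 1 + l₀ := by linarith
    have hl1 : 0 < 1 + l := by linarith
    have hl2 : 0 < 1 + 2 * l := by linarith
    rw [le_div_iff₀ hl1]
    rw [le_div_iff₀ hl0] at hM1
    have h7 : S * (1 + 2 * l) ≤ (1 + 2 * l₀) * M + (l - l₀) * (M * S) := by
      have h8 := mul_le_mul_of_nonneg_right hSM hl2.le
      have h9 : (s * M + t * (M * S)) * (1 + 2 * l) = (1 + 2 * l₀) * M + (l - l₀) * (M * S) := by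
        rw [hs, htdef]; field_simp
      linarith
    nlinarith [mul_nonneg hM0 hS0, mul_nonneg hS0 (sub_nonneg.mpr hle)]
  have hS2 : S = (∑ n ∈ range N, ‖coeff f (n + 1)‖ * (s * r₀) ^ (n + 1)) / (1 - l ^ 2) := by
    rw [← sum_cc h0 h1 (s * r₀) N, hS]
    refine Finset.sum_congr rfl (fun n _ => ?_)
    rw [norm_mul, norm_pow, Complex.norm_real, Real.norm_eq_abs, abs_of_pos hs0, mul_pow]
    ring
  rw [hS2, div_le_div_iff₀ (by nlinarith) (by linarith)] at hfin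
  nlinarith

/-- `(1 + 2 lam) B(lam)` is nondecreasing. -/
theorem mul_B_mono {l₀ l : ℝ} (h00 : 0 ≤ l₀) (hle : l₀ ≤ l) (h1 : l < 1) :
    (1 + 2 * l₀) * B l₀ ≤ (1 + 2 * l) * B l := by
  have h01 : l₀ < 1 := hle.trans_lt h1
  have hl2 : 0 < 1 + 2 * l := by linarith
  have hl0 : 0 < 1 + 2 * l₀ := by linarith
  have key : ∀ r, 0 ≤ r → r < B l₀ → (1 + 2 * l₀) / (1 + 2 * l) * r ≤ B l := by
    intro r hr hrB
    have hr1 : r < 1 := by
      refine hrB.trans_le (csSup_le ⟨0, zero_mem h01.le⟩ (fun x hx => hx.2.1.le))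
    have h2 := Good.transfer h00 hle h1 hr (good_of_lt h01.le hr hrB)
    refine le_B h2 (by positivity) ?_
    have h3 : (1 + 2 * l₀) / (1 + 2 * l) ≤ 1 := by rw [div_le_one hl2]; linarith
    nlinarith
  have hB0 := B_nonneg (lam := l₀) h01.le
  have hB1 := B_nonneg (lam := l) h1.le
  rcases eq_or_lt_of_le hB0 with h | h
  · rw [← h]
    have : 0 ≤ (1 + 2 * l) * B l := by positivity
    linarith
  · have h4 : (1 + 2 * l₀) / (1 + 2 * l) * B l₀ ≤ B l := by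
      have hc : Continuous (fun x : ℝ => (1 + 2 * l₀) / (1 + 2 * l) * x) := by fun_prop
      have ht := (hc.tendsto (B l₀)).mono_left (nhdsWithin_le_nhds (s := Set.Iio (B l₀)))
      refine le_of_tendsto ht ?_
      filter_upwards [Ioo_mem_nhdsLT h] with x hx
      exact key x hx.1.le hx.2
    rw [div_mul_eq_mul_div, div_le_iff₀ hl2] at h4
    linarith

end Pool.Agent.Helper610.Bohr
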