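import Pool.Agent.Helper610.Bohr.Red

open Metric Complex Finset

namespace Pool.Agent.Helper610.Bohr

/-- The Schwarz function `z (b - ζ z)/(1 - b ζ z)`. -/
noncomputable def om2 (b : ℝ) (ζ : ℂ) (z : ℂ) : ℂ := z * (((b : ℂ) - ζ * z) / (1 - (b : ℂ) * (ζ * z)))

/-- The Blaschke product of degree two used as test function. -/
noncomputable def f2 (l b : ℝ) (ζ : ℂ) (z : ℂ) : ℂ :=
  ((l : ℂ) - om2 b ζ z) / (1 - (l : ℂ) * om2 b ζ z)

theorem zz_lt {ζ z : ℂ} (hζ : ‖ζ‖ = 1) (hz : ‖z‖ < 1) : ‖ζ * z‖ < 1 := by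
  rwa [norm_mul, hζ, one_mul]

theorem om2_lt {b : ℝ} (hb0 : 0 ≤ b) (hb1 : b < 1) {ζ z : ℂ} (hζ : ‖ζ‖ = 1) (hz : ‖z‖ < 1) :
    ‖om2 b ζ z‖ < 1 := by
  have h := moebius_lt hb0 hb1 (zz_lt hζ hz)
  rw [om2, norm_mul]
  have h2 := norm_nonneg z
  have h3 := norm_nonneg (((b : ℂ) - ζ * z) / (1 - (b : ℂ) * (ζ * z)))
  nlinarith

theorem f2_inClass {l b : ℝ} (h0 : 0 ≤ l) (h1 : l < 1) (hb0 : 0 ≤ b) (hb1 : b < 1) {ζ : ℂ}
    (hζ : ‖ζ‖ = 1) : InClass l (f2 l b ζ) := by
  have hod : DifferentiableOn ℂ (om2 b ζ) (ball 0 1) := by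
    unfold om2
    refine DifferentiableOn.mul (by fun_prop) (DifferentiableOn.div (by fun_prop) (by fun_prop) ?_)
    intro z hz
    exact one_sub_ne hb0 hb1 (zz_lt hζ (by simpa using hz))
  refine ⟨?_, ?_, ?_⟩
  · unfold f2
    refine DifferentiableOn.div (by fun_prop) (by fun_prop) (fun z hz => ?_)
    exact one_sub_ne h0 h1 (om2_lt hb0 hb1 hζ (by simpa using hz))
  · intro z hz
    exact moebius_lt h0 h1 (om2_lt hb0 hb1 hζ (by simpa using hz))
  · simp [f2, om2]

theorem f2_id {l b : ℝ} (h0 : 0 ≤ l) (h1 : l < 1) (hb0 : 0 ≤ b) (hb1 : b < 1) {ζ : ℂ}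
    (hζ : ‖ζ‖ = 1) {z : ℂ} (hz : ‖z‖ < 1) :
    cf l (f2 l b ζ) z - ((b : ℂ) * (ζ + l)) * (z * cf l (f2 l b ζ) z) +
      ((l : ℂ) * ζ) * (z * (z * cf l (f2 l b ζ) z)) = z * ((b : ℂ) * 1 - ζ * (z * 1)) := by
  have hd := one_sub_ne hb0 hb1 (zz_lt hζ hz)
  have hw := one_sub_ne h0 h1 (om2_lt hb0 hb1 hζ hz)
  have h5 := one_sub_sq_ne h0 h1
  have e : cf l (f2 l b ζ) z = om2 b ζ z / (1 - (l : ℂ) * om2 b ζ z) := by
    unfold cf f2
    rw [div_eq_div_iff h5 hw, sub_mul, div_mul_cancel₀ _ hw]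
    ring
  set W := om2 b ζ z with hW
  have hWd : W * (1 - (b : ℂ) * (ζ * z)) = z * ((b : ℂ) - ζ * z) := by
    rw [hW, om2, mul_assoc, div_mul_cancel₀ _ hd]
  rw [e]
  have h6 : W / (1 - (l : ℂ) * W) - ((b : ℂ) * (ζ + l)) * (z * (W / (1 - (l : ℂ) * W))) +
      ((l : ℂ) * ζ) * (z * (z * (W / (1 - (l : ℂ) * W)))) =
      (W * (1 - ((b : ℂ) * (ζ + l)) * z + ((l : ℂ) * ζ) * z ^ 2)) / (1 - (l : ℂ) * W) := by
    field_simp
  rw [h6, div_eq_iff hw]
  linear_combination hWd

theorem f2_rec {l b : ℝ} (h0 : 0 ≤ l) (h1 : l < 1) (hb0 : 0 ≤ b) (hb1 : b < 1) {ζ : ℂ}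
    (hζ : ‖ζ‖ = 1) : cc l (f2 l b ζ) 1 = (b : ℂ) ∧
      cc l (f2 l b ζ) 2 = ((b : ℂ) * (ζ + l)) * b - ζ ∧
      ∀ n, cc l (f2 l b ζ) (n + 3) = ((b : ℂ) * (ζ + l)) * cc l (f2 l b ζ) (n + 2) -
        ((l : ℂ) * ζ) * cc l (f2 l b ζ) (n + 1) := by
  have hc := cf_ps (f2_inClass h0 h1 hb0 hb1 hζ)
  have hL := (hc.sub (hc.shift.const_mul ((b : ℂ) * (ζ + l)))).add
    ((hc.shift.shift).const_mul ((l : ℂ) * ζ))
  have hR : PS (fun z : ℂ => z * ((b : ℂ) * 1 - ζ * (z * 1)))
      (shiftSeq (fun n => (b : ℂ) * (if n = 0 then (1 : ℂ) else 0) -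
        ζ * shiftSeq (fun n => if n = 0 then (1 : ℂ) else 0) n)) :=
    (((PS.const 1).const_mul (b : ℂ)).sub ((PS.const 1).shift.const_mul ζ)).shift
  have hR2 := hR.congr (fun z hz => f2_id h0 h1 hb0 hb1 hζ hz)
  have hu := hL.unique hR2
  have e0 : cc l (f2 l b ζ) 0 = 0 := by simp [cc]
  have e1 := congrFun hu 1
  have e2 := congrFun hu 2
  simp only [shiftSeq, e0, if_true, mul_zero, sub_zero, add_zero, mul_one, if_neg one_ne_zero,
    zero_sub] at e1 e2
  refine ⟨e1, ?_, ?_⟩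
  · rw [e1] at e2
    linear_combination e2
  · intro n
    have e3 := congrFun hu (n + 3)
    simp only [shiftSeq, Nat.succ_ne_zero, if_false, mul_zero, sub_zero] at e3
    linear_combination e3

/-- The test parameter on the unit circle. -/
noncomputable def z0 : ℂ := ⟨(-(20/29)), (21/29)⟩

theorem norm_z0 : ‖z0‖ = 1 := by
  have h : ‖z0‖ ^ 2 = 1 := by
    rw [← Complex.normSq_eq_norm_sq, Complex.normSq_apply]
    norm_num [z0]
  have h2 := norm_nonneg z0
  nlinarith

theorem cc_vals : cc (11/30) (f2 (11/30) (21/25) z0) 1 = ⟨(21/25), 0⟩ ∧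
    cc (11/30) (f2 (11/30) (21/25) z0) 2 = ⟨(83693/181250), (-(3864/18125))⟩ ∧
    cc (11/30) (f2 (11/30) (21/25) z0) 3 = ⟨(284903269/1314062500), (7600488/65703125)⟩ ∧
    cc (11/30) (f2 (11/30) (21/25) z0) 4 = ⟨(-(1972853440169/28580859375000)), (-(18105255322/238173828125))⟩ ∧
    cc (11/30) (f2 (11/30) (21/25) z0) 5 = ⟨(10395626774529941/69070410156250000), (-(42891140703684/863380126953125))⟩ ∧
    cc (11/30) (f2 (11/30) (21/25) z0) 6 = ⟨(-(217478690805463483723/4506844262695312500000)), (130364954596829057/1251901184082031250)⟩ ∧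
    cc (11/30) (f2 (11/30) (21/25) z0) 7 = ⟨(-(829308208822735918323859/32674620904541015625000000)), (-(2498920315990081363457/22690708961486816406250))⟩ ∧
    cc (11/30) (f2 (11/30) (21/25) z0) 8 = ⟨(63478799362378898001033965359/710673004673767089843750000000), (158675533396741754783944799/2961137519474029541015625000)⟩ ∧
    cc (11/30) (f2 (11/30) (21/25) z0) 9 = ⟨(-(476536052491075355858710849747753/5152379283884811401367187500000000)), (25069805444310819056452150528/1341765438511669635772705078125)⟩ ∧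
    cc (11/30) (f2 (11/30) (21/25) z0) 10 = ⟨(5664081127713442352971201512099025853/112064249424494647979736328125000000000), (-(33382928670220508002072251464490829/466934372602061033248901367187500000))⟩ ∧
    cc (11/30) (f2 (11/30) (21/25) z0) 11 = ⟨(3073330691127310330284324465105462228583/270821936109195399284362792968750000000000), (8962315027392022515799252822074601109/112842473378831416368484497070312500000)⟩ ∧
    cc (11/30) (f2 (11/30) (21/25) z0) 12 = ⟨(-(1017714577249418532376093381371287640389633849/17671131331124999803304672241210937500000000000)), (-(1132535833320735893222327244870674331386999/24543237959895833060145378112792968750000000))⟩ := by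
  obtain ⟨r1, r2, r3⟩ := f2_rec (l := (11/30)) (b := (21/25)) (ζ := z0) (by norm_num) (by norm_num)
    (by norm_num) (by norm_num) norm_z0
  have e1 : cc (11/30) (f2 (11/30) (21/25) z0) 1 = ⟨(21/25), 0⟩ := by
    rw [r1]; apply Complex.ext <;> norm_num
  have e2 : cc (11/30) (f2 (11/30) (21/25) z0) 2 = ⟨(83693/181250), (-(3864/18125))⟩ := by
    rw [r2]; apply Complex.ext <;> norm_num [z0]
  have e3 : cc (11/30) (f2 (11/30) (21/25) z0) 3 = ⟨(284903269/1314062500), (7600488/65703125)⟩ := by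
    rw [r3 0, e2, e1]; apply Complex.ext <;> norm_num [z0]
  have e4 : cc (11/30) (f2 (11/30) (21/25) z0) 4 = ⟨(-(1972853440169/28580859375000)), (-(18105255322/238173828125))⟩ := by
    rw [r3 1, e3, e2]; apply Complex.ext <;> norm_num [z0]
  have e5 : cc (11/30) (f2 (11/30) (21/25) z0) 5 = ⟨(10395626774529941/69070410156250000), (-(42891140703684/863380126953125))⟩ := by
    rw [r3 2, e4, e3]; apply Complex.ext <;> norm_num [z0]
  have e6 : cc (11/30) (f2 (11/30) (21/25) z0) 6 = ⟨(-(217478690805463483723/4506844262695312500000)), (130364954596829057/1251901184082031250)⟩ := by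
    rw [r3 3, e5, e4]; apply Complex.ext <;> norm_num [z0]
  have e7 : cc (11/30) (f2 (11/30) (21/25) z0) 7 = ⟨(-(829308208822735918323859/32674620904541015625000000)), (-(2498920315990081363457/22690708961486816406250))⟩ := by
    rw [r3 4, e6, e5]; apply Complex.ext <;> norm_num [z0]
  have e8 : cc (11/30) (f2 (11/30) (21/25) z0) 8 = ⟨(63478799362378898001033965359/710673004673767089843750000000), (158675533396741754783944799/2961137519474029541015625000)⟩ := by
    rw [r3 5, e7, e6]; apply Complex.ext <;> norm_num [z0]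
  have e9 : cc (11/30) (f2 (11/30) (21/25) z0) 9 = ⟨(-(476536052491075355858710849747753/5152379283884811401367187500000000)), (25069805444310819056452150528/1341765438511669635772705078125)⟩ := by
    rw [r3 6, e8, e7]; apply Complex.ext <;> norm_num [z0]
  have e10 : cc (11/30) (f2 (11/30) (21/25) z0) 10 = ⟨(5664081127713442352971201512099025853/112064249424494647979736328125000000000), (-(33382928670220508002072251464490829/466934372602061033248901367187500000))⟩ := by
    rw [r3 7, e9, e8]; apply Complex.ext <;> norm_num [z0]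
  have e11 : cc (11/30) (f2 (11/30) (21/25) z0) 11 = ⟨(3073330691127310330284324465105462228583/270821936109195399284362792968750000000000), (8962315027392022515799252822074601109/112842473378831416368484497070312500000)⟩ := by
    rw [r3 8, e10, e9]; apply Complex.ext <;> norm_num [z0]
  have e12 : cc (11/30) (f2 (11/30) (21/25) z0) 12 = ⟨(-(1017714577249418532376093381371287640389633849/17671131331124999803304672241210937500000000000)), (-(1132535833320735893222327244870674331386999/24543237959895833060145378112792968750000000))⟩ := by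
    rw [r3 9, e11, e10]; apply Complex.ext <;> norm_num [z0]
  exact ⟨e1, e2, e3, e4, e5, e6, e7, e8, e9, e10, e11, e12⟩

theorem norm_ge {x y c : ℝ} (hc : 0 ≤ c) (h : c ^ 2 ≤ x ^ 2 + y ^ 2) : c ≤ ‖(⟨x, y⟩ : ℂ)‖ := by
  have h2 : ‖(⟨x, y⟩ : ℂ)‖ ^ 2 = x ^ 2 + y ^ 2 := by
    rw [← Complex.normSq_eq_norm_sq, Complex.normSq_apply]
    ring
  have h3 := norm_nonneg (⟨x, y⟩ : ℂ)
  nlinarith

theorem not_good : ¬ Good (11/30) (15/26) := by
  intro hg
  have h := hg (f2 (11/30) (21/25) z0) (f2_inClass (by norm_num) (by norm_num) (by norm_num) (by norm_num) norm_z0) 12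
  have hs := sum_cc (l := (11/30)) (by norm_num) (by norm_num) (f := (f2 (11/30) (21/25) z0)) (15/26) 12
  have h2 : ∑ n ∈ range (12 + 1), ‖cc (11/30) (f2 (11/30) (21/25) z0) n‖ * ((15/26) : ℝ) ^ n ≤ (1 - (11/30)) / (1 - (11/30) ^ 2) := by
    rw [hs]; exact div_le_div_of_nonneg_right h (by norm_num)
  obtain ⟨e1, e2, e3, e4, e5, e6, e7, e8, e9, e10, e11, e12⟩ := cc_vals
  have b1 : (83999999/100000000) ≤ ‖cc (11/30) (f2 (11/30) (21/25) z0) 1‖ := by
    rw [e1]; exact norm_ge (by norm_num) (by norm_num)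
  have b2 : (50859173/100000000) ≤ ‖cc (11/30) (f2 (11/30) (21/25) z0) 2‖ := by
    rw [e2]; exact norm_ge (by norm_num) (by norm_num)
  have b3 : (4914823/20000000) ≤ ‖cc (11/30) (f2 (11/30) (21/25) z0) 3‖ := by
    rw [e3]; exact norm_ge (by norm_num) (by norm_num)
  have b4 : (2053613/20000000) ≤ ‖cc (11/30) (f2 (11/30) (21/25) z0) 4‖ := by
    rw [e4]; exact norm_ge (by norm_num) (by norm_num)
  have b5 : (99059/625000) ≤ ‖cc (11/30) (f2 (11/30) (21/25) z0) 5‖ := by
    rw [e5]; exact norm_ge (by norm_num) (by norm_num)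
  have b6 : (2869273/25000000) ≤ ‖cc (11/30) (f2 (11/30) (21/25) z0) 6‖ := by
    rw [e6]; exact norm_ge (by norm_num) (by norm_num)
  have b7 : (11301649/100000000) ≤ ‖cc (11/30) (f2 (11/30) (21/25) z0) 7‖ := by
    rw [e7]; exact norm_ge (by norm_num) (by norm_num)
  have b8 : (5208141/50000000) ≤ ‖cc (11/30) (f2 (11/30) (21/25) z0) 8‖ := by
    rw [e8]; exact norm_ge (by norm_num) (by norm_num)
  have b9 : (9435691/100000000) ≤ ‖cc (11/30) (f2 (11/30) (21/25) z0) 9‖ := by
    rw [e9]; exact norm_ge (by norm_num) (by norm_num)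
  have b10 : (2188889/25000000) ≤ ‖cc (11/30) (f2 (11/30) (21/25) z0) 10‖ := by
    rw [e10]; exact norm_ge (by norm_num) (by norm_num)
  have b11 : (4011493/50000000) ≤ ‖cc (11/30) (f2 (11/30) (21/25) z0) 11‖ := by
    rw [e11]; exact norm_ge (by norm_num) (by norm_num)
  have b12 : (36899/500000) ≤ ‖cc (11/30) (f2 (11/30) (21/25) z0) 12‖ := by
    rw [e12]; exact norm_ge (by norm_num) (by norm_num)
  rw [Finset.sum_range_succ'] at h2
  simp only [Finset.sum_range_succ, Finset.sum_range_zero, zero_add, pow_zero, mul_one] at h2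
  norm_num at h2 b1 b2 b3 b4 b5 b6 b7 b8 b9 b10 b11 b12
  nlinarith [norm_nonneg (cc (11/30) (f2 (11/30) (21/25) z0) 0), b1, b2, b3, b4, b5, b6, b7, b8, b9, b10, b11, b12]

end Pool.Agent.Helper610.Bohr
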