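import Pool.Agent.Helper610.Bohr.NumA

open Metric Complex Finset

namespace Pool.Agent.Helper610.Bohr

theorem region_i_num (x y : ℝ) (hx : 0 ≤ x) (hx2 : x ≤ (1 - (7 / 16 : ℝ) ^ 2) * (6 / 7))
    (hy : 0 ≤ y) (hy2 : y ≤ 1 - (7 / 16 : ℝ) ^ 2 - x ^ 2 / (1 + 7 / 16)) :
    x * (8 / 15) + y * (8 / 15) ^ 2 +
      (279 / 500 : ℝ) / 2 * (1 - (7 / 16 : ℝ) ^ 2 - x ^ 2 - y ^ 2) +
      (8 / 15 : ℝ) ^ 6 / (1 - (8 / 15) ^ 2) / (2 * (279 / 500)) ≤ 1 - 7 / 16 := by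
  have h1 : 0 ≤ (127 / 1000 : ℝ) * ((1 - (7 / 16 : ℝ) ^ 2) * (6 / 7) - x) :=
    mul_nonneg (by norm_num) (by linarith)
  have h2 : 0 ≤ (39 / 2000 : ℝ) * (1 - (7 / 16 : ℝ) ^ 2 - x ^ 2 / (1 + 7 / 16) - y) :=
    mul_nonneg (by norm_num) (by linarith)
  have e : x ^ 2 / (1 + 7 / 16) = x ^ 2 * (16 / 23) := by ring
  rw [e] at h2
  have e2 : (8 / 15 : ℝ) ^ 6 / (1 - (8 / 15) ^ 2) / (2 * (279 / 500)) = 524288 / 18192195 := by
    norm_num
  rw [e2]
  nlinarith [sq_nonneg (x - 28037 / 40374), sq_nonneg (y - 4769 / 10044)]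

theorem good_seven_sixteenths : Good (7 / 16) (8 / 15) := by
  apply good_of_real
  rintro f hf ⟨β, hβ0, hβ⟩ N
  have hn : ‖cc (7 / 16) f 1‖ = β := by
    rw [hβ, Complex.norm_real, Real.norm_eq_abs, abs_of_nonneg hβ0]
  have hle := (norm_c1 (by norm_num) (by norm_num) hf).2
  rw [hn] at hle
  rcases le_or_gt β (6 / 7) with h | h
  · exact region_i (κ := 279 / 500) (by norm_num) (by norm_num) (by norm_num) (by norm_num)
      (by norm_num) region_i_num hf (by rw [hn]; exact h) N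
  · exact region_ii (η₁ := 1 / 7) (by norm_num) (by norm_num) (by norm_num) (by norm_num)
      (fun ζ hζ N => NumA.kernel_bound hζ N) hf (η := 1 - β) (by linarith) (by linarith)
      (by rw [hβ]; congr 1; ring) N

theorem B_eq {l : ℝ} (h : 7 / 16 ≤ l) (h1 : l < 1) : B l = 1 / (1 + 2 * l) := by
  refine le_antisymm (B_le (by linarith) h1) ?_
  have h2 := le_B good_seven_sixteenths (by norm_num) (by norm_num)
  have h3 := mul_B_mono (by norm_num) h h1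
  rw [div_le_iff₀ (by linarith)]
  norm_num at h3
  linarith

end Pool.Agent.Helper610.Bohr
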