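import Pool.Agent.Helper610.Bohr.Tail

open Metric Complex Finset

namespace Pool.Agent.Helper610.Bohr.NumA

theorem piece0 {t X1 X2 X3 X4 X5 Y : ℝ} (ha : (-1) ≤ t) (hb : t ≤ (-(1/2)))
    (h1 : X1 ^ 2 = (2249/12544) + (-(5/28)) * t)
    (h2 : X2 ^ 2 = (43873/200704) + (79/896) * t + (-(1/8)) * t ^ 2)
    (h3 : X3 ^ 2 = (79356953/822083584) + (503959/1835008) * t + (621/4096) * t ^ 2 + (-(21/256)) * t ^ 3)
    (h4 : X4 ^ 2 = (1902996673/52613349376) + (6220015/58720256) * t + (339933/1048576) * t ^ 2 + (3241/16384) * t ^ 3 + (-(49/1024)) * t ^ 4)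
    (h5 : X5 ^ 2 = (2875822812913/53876069761024) + (2310401851/120259084288) * t + (11619823/134217728) * t ^ 2 + (5814795/16777216) * t ^ 3 + (60319/262144) * t ^ 4 + (-(343/16384)) * t ^ 5)
    (hY : Y * ((305/256) - (7/8) * t) = 1) :
    (64/225) * X1 + (512/3375) * X2 + (4096/50625) * X3 + (32768/759375) * X4 + (262144/11390625) * X5 + (117649/501187500) + (4440734407/571536000000) * Y ≤ (192/805) := by
  have c1 : 2 * (14/25) * X1 ≤ ((2249/12544) + (-(5/28)) * t) + (14/25) ^ 2 := by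
    rw [← h1]
    nlinarith [sq_nonneg (X1 - (14/25))]
  have c2 : 2 * (287/1000) * X2 ≤ ((43873/200704) + (79/896) * t + (-(1/8)) * t ^ 2) + (287/1000) ^ 2 := by
    rw [← h2]
    nlinarith [sq_nonneg (X2 - (287/1000))]
  have c3 : 2 * (51/500) * X3 ≤ ((79356953/822083584) + (503959/1835008) * t + (621/4096) * t ^ 2 + (-(21/256)) * t ^ 3) + (51/500) ^ 2 := by
    rw [← h3]
    nlinarith [sq_nonneg (X3 - (51/500))]
  have c4 : 2 * (201/1000) * X4 ≤ ((1902996673/52613349376) + (6220015/58720256) * t + (339933/1048576) * t ^ 2 + (3241/16384) * t ^ 3 + (-(49/1024)) * t ^ 4) + (201/1000) ^ 2 := by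
    rw [← h4]
    nlinarith [sq_nonneg (X4 - (201/1000))]
  have c5 : 2 * (139/1000) * X5 ≤ ((2875822812913/53876069761024) + (2310401851/120259084288) * t + (11619823/134217728) * t ^ 2 + (5814795/16777216) * t ^ 3 + (60319/262144) * t ^ 4 + (-(343/16384)) * t ^ 5) + (139/1000) ^ 2 := by
    rw [← h5]
    nlinarith [sq_nonneg (X5 - (139/1000))]
  have hD : 0 < ((305/256) - (7/8) * t) := by linarith
  have hu : 0 ≤ t - (-1) := by linarith
  have hv : 0 ≤ (-(1/2)) - t := by linarith
  have cY : Y ≤ (164096/220593) + (57344/220593) * t := by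
    refine le_of_mul_le_mul_right ?_ hD
    rw [hY]
    have e : ((164096/220593) + (57344/220593) * t) * ((305/256) - (7/8) * t) - 1 = (50176/220593) * ((t - (-1)) * ((-(1/2)) - t)) := by ring
    have e2 := mul_nonneg hu hv
    linarith
  have hbern : 0 ≤ (4765318462783559171705551/26281159657308864000000000) * ((t - (-1)) ^ 0 * ((-(1/2)) - t) ^ 5) + (26508261973498771959274253/15768695794385318400000000) * ((t - (-1)) ^ 1 * ((-(1/2)) - t) ^ 4) + (31297350012665215929831853/7884347897192659200000000) * ((t - (-1)) ^ 2 * ((-(1/2)) - t) ^ 3) + (3379590880825929832487717/876038655243628800000000) * ((t - (-1)) ^ 3 * ((-(1/2)) - t) ^ 2) + (24906227137257445314147053/15768695794385318400000000) * ((t - (-1)) ^ 4 * ((-(1/2)) - t) ^ 1) + (15232745104563562375904653/78843478971926592000000000) * ((t - (-1)) ^ 5 * ((-(1/2)) - t) ^ 0) := by positivity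
  linarith

theorem piece1 {t X1 X2 X3 X4 X5 Y : ℝ} (ha : (-(1/2)) ≤ t) (hb : t ≤ (-(1/4)))
    (h1 : X1 ^ 2 = (2249/12544) + (-(5/28)) * t)
    (h2 : X2 ^ 2 = (43873/200704) + (79/896) * t + (-(1/8)) * t ^ 2)
    (h3 : X3 ^ 2 = (79356953/822083584) + (503959/1835008) * t + (621/4096) * t ^ 2 + (-(21/256)) * t ^ 3)
    (h4 : X4 ^ 2 = (1902996673/52613349376) + (6220015/58720256) * t + (339933/1048576) * t ^ 2 + (3241/16384) * t ^ 3 + (-(49/1024)) * t ^ 4)
    (h5 : X5 ^ 2 = (2875822812913/53876069761024) + (2310401851/120259084288) * t + (11619823/134217728) * t ^ 2 + (5814795/16777216) * t ^ 3 + (60319/262144) * t ^ 4 + (-(343/16384)) * t ^ 5)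
    (hY : Y * ((305/256) - (7/8) * t) = 1) :
    (64/225) * X1 + (512/3375) * X2 + (4096/50625) * X3 + (32768/759375) * X4 + (262144/11390625) * X5 + (117649/501187500) + (4440734407/571536000000) * Y ≤ (192/805) := by
  have c1 : 2 * (62/125) * X1 ≤ ((2249/12544) + (-(5/28)) * t) + (62/125) ^ 2 := by
    rw [← h1]
    nlinarith [sq_nonneg (X1 - (62/125))]
  have c2 : 2 * (41/100) * X2 ≤ ((43873/200704) + (79/896) * t + (-(1/8)) * t ^ 2) + (41/100) ^ 2 := by
    rw [← h2]
    nlinarith [sq_nonneg (X2 - (41/100))]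
  have c3 : 2 * (139/1000) * X3 ≤ ((79356953/822083584) + (503959/1835008) * t + (621/4096) * t ^ 2 + (-(21/256)) * t ^ 3) + (139/1000) ^ 2 := by
    rw [← h3]
    nlinarith [sq_nonneg (X3 - (139/1000))]
  have c4 : 2 * (7/40) * X4 ≤ ((1902996673/52613349376) + (6220015/58720256) * t + (339933/1048576) * t ^ 2 + (3241/16384) * t ^ 3 + (-(49/1024)) * t ^ 4) + (7/40) ^ 2 := by
    rw [← h4]
    nlinarith [sq_nonneg (X4 - (7/40))]
  have c5 : 2 * (53/250) * X5 ≤ ((2875822812913/53876069761024) + (2310401851/120259084288) * t + (11619823/134217728) * t ^ 2 + (5814795/16777216) * t ^ 3 + (60319/262144) * t ^ 4 + (-(343/16384)) * t ^ 5) + (53/250) ^ 2 := by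
    rw [← h5]
    nlinarith [sq_nonneg (X5 - (53/250))]
  have hD : 0 < ((305/256) - (7/8) * t) := by linarith
  have hu : 0 ≤ t - (-(1/2)) := by linarith
  have hv : 0 ≤ (-(1/4)) - t := by linarith
  have cY : Y ≤ (121088/150537) + (57344/150537) * t := by
    refine le_of_mul_le_mul_right ?_ hD
    rw [hY]
    have e : ((121088/150537) + (57344/150537) * t) * ((305/256) - (7/8) * t) - 1 = (50176/150537) * ((t - (-(1/2))) * ((-(1/4)) - t)) := by ring
    have e2 := mul_nonneg hu hv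
    linarith
  have hbern : 0 ≤ (114212511957349460297334187/14216399906812488000000000) * ((t - (-(1/2))) ^ 0 * ((-(1/4)) - t) ^ 5) + (39318263263765105981803441107/1026424073271861633600000000) * ((t - (-(1/2))) ^ 1 * ((-(1/4)) - t) ^ 4) + (1327029912369347431644774841/19007853208738178400000000) * ((t - (-(1/2))) ^ 2 * ((-(1/4)) - t) ^ 3) + (579966075180097524556338119/9683245974262845600000000) * ((t - (-(1/2))) ^ 3 * ((-(1/4)) - t) ^ 2) + (23977579245644880743386759907/1026424073271861633600000000) * ((t - (-(1/2))) ^ 4 * ((-(1/4)) - t) ^ 1) + (5149728317280472743713413169/1710706788786436056000000000) * ((t - (-(1/2))) ^ 5 * ((-(1/4)) - t) ^ 0) := by positivity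
  linarith

theorem piece2 {t X1 X2 X3 X4 X5 Y : ℝ} (ha : (-(1/4)) ≤ t) (hb : t ≤ 0)
    (h1 : X1 ^ 2 = (2249/12544) + (-(5/28)) * t)
    (h2 : X2 ^ 2 = (43873/200704) + (79/896) * t + (-(1/8)) * t ^ 2)
    (h3 : X3 ^ 2 = (79356953/822083584) + (503959/1835008) * t + (621/4096) * t ^ 2 + (-(21/256)) * t ^ 3)
    (h4 : X4 ^ 2 = (1902996673/52613349376) + (6220015/58720256) * t + (339933/1048576) * t ^ 2 + (3241/16384) * t ^ 3 + (-(49/1024)) * t ^ 4)
    (h5 : X5 ^ 2 = (2875822812913/53876069761024) + (2310401851/120259084288) * t + (11619823/134217728) * t ^ 2 + (5814795/16777216) * t ^ 3 + (60319/262144) * t ^ 4 + (-(343/16384)) * t ^ 5)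
    (hY : Y * ((305/256) - (7/8) * t) = 1) :
    (64/225) * X1 + (512/3375) * X2 + (4096/50625) * X3 + (32768/759375) * X4 + (262144/11390625) * X5 + (117649/501187500) + (4440734407/571536000000) * Y ≤ (192/805) := by
  have c1 : 2 * (449/1000) * X1 ≤ ((2249/12544) + (-(5/28)) * t) + (449/1000) ^ 2 := by
    rw [← h1]
    nlinarith [sq_nonneg (X1 - (449/1000))]
  have c2 : 2 * (453/1000) * X2 ≤ ((43873/200704) + (79/896) * t + (-(1/8)) * t ^ 2) + (453/1000) ^ 2 := by
    rw [← h2]
    nlinarith [sq_nonneg (X2 - (453/1000))]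
  have c3 : 2 * (127/500) * X3 ≤ ((79356953/822083584) + (503959/1835008) * t + (621/4096) * t ^ 2 + (-(21/256)) * t ^ 3) + (127/500) ^ 2 := by
    rw [← h3]
    nlinarith [sq_nonneg (X3 - (127/500))]
  have c4 : 2 * (83/500) * X4 ≤ ((1902996673/52613349376) + (6220015/58720256) * t + (339933/1048576) * t ^ 2 + (3241/16384) * t ^ 3 + (-(49/1024)) * t ^ 4) + (83/500) ^ 2 := by
    rw [← h4]
    nlinarith [sq_nonneg (X4 - (83/500))]
  have c5 : 2 * (227/1000) * X5 ≤ ((2875822812913/53876069761024) + (2310401851/120259084288) * t + (11619823/134217728) * t ^ 2 + (5814795/16777216) * t ^ 3 + (60319/262144) * t ^ 4 + (-(343/16384)) * t ^ 5) + (227/1000) ^ 2 := by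
    rw [← h5]
    nlinarith [sq_nonneg (X5 - (227/1000))]
  have hD : 0 < ((305/256) - (7/8) * t) := by linarith
  have hu : 0 ≤ t - (-(1/4)) := by linarith
  have hv : 0 ≤ 0 - t := by linarith
  have cY : Y ≤ (256/305) + (57344/110105) * t := by
    refine le_of_mul_le_mul_right ?_ hD
    rw [hY]
    have e : ((256/305) + (57344/110105) * t) * ((305/256) - (7/8) * t) - 1 = (50176/110105) * ((t - (-(1/4))) * (0 - t)) := by ring
    have e2 := mul_nonneg hu hv
    linarith
  have hbern : 0 ≤ (3701230162636348270177437056497/1058552216633151969498000000000) * ((t - (-(1/4))) ^ 0 * (0 - t) ^ 5) + (221928966109867547906626976135357/12914337042924454027875600000000) * ((t - (-(1/4))) ^ 1 * (0 - t) ^ 4) + (68659907615408351144365120474799/2152389507154075671312600000000) * ((t - (-(1/4))) ^ 2 * (0 - t) ^ 3) + (58478902270121851331141073704479/2152389507154075671312600000000) * ((t - (-(1/4))) ^ 3 * (0 - t) ^ 2) + (127459533389463779316548345602477/12914337042924454027875600000000)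 * ((t - (-(1/4))) ^ 4 * (0 - t) ^ 1) + (18136830493257747069652990733/19874326012503007122000000000) * ((t - (-(1/4))) ^ 5 * (0 - t) ^ 0) := by positivity
  linarith

theorem piece3 {t X1 X2 X3 X4 X5 Y : ℝ} (ha : 0 ≤ t) (hb : t ≤ (1/8))
    (h1 : X1 ^ 2 = (2249/12544) + (-(5/28)) * t)
    (h2 : X2 ^ 2 = (43873/200704) + (79/896) * t + (-(1/8)) * t ^ 2)
    (h3 : X3 ^ 2 = (79356953/822083584) + (503959/1835008) * t + (621/4096) * t ^ 2 + (-(21/256)) * t ^ 3)
    (h4 : X4 ^ 2 = (1902996673/52613349376) + (6220015/58720256) * t + (339933/1048576) * t ^ 2 + (3241/16384) * t ^ 3 + (-(49/1024)) * t ^ 4)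
    (h5 : X5 ^ 2 = (2875822812913/53876069761024) + (2310401851/120259084288) * t + (11619823/134217728) * t ^ 2 + (5814795/16777216) * t ^ 3 + (60319/262144) * t ^ 4 + (-(343/16384)) * t ^ 5)
    (hY : Y * ((305/256) - (7/8) * t) = 1) :
    (64/225) * X1 + (512/3375) * X2 + (4096/50625) * X3 + (32768/759375) * X4 + (262144/11390625) * X5 + (117649/501187500) + (4440734407/571536000000) * Y ≤ (192/805) := by
  have c1 : 2 * (41/100) * X1 ≤ ((2249/12544) + (-(5/28)) * t) + (41/100) ^ 2 := by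
    rw [← h1]
    nlinarith [sq_nonneg (X1 - (41/100))]
  have c2 : 2 * (473/1000) * X2 ≤ ((43873/200704) + (79/896) * t + (-(1/8)) * t ^ 2) + (473/1000) ^ 2 := by
    rw [← h2]
    nlinarith [sq_nonneg (X2 - (473/1000))]
  have c3 : 2 * (169/500) * X3 ≤ ((79356953/822083584) + (503959/1835008) * t + (621/4096) * t ^ 2 + (-(21/256)) * t ^ 3) + (169/500) ^ 2 := by
    rw [← h3]
    nlinarith [sq_nonneg (X3 - (169/500))]
  have c4 : 2 * (21/100) * X4 ≤ ((1902996673/52613349376) + (6220015/58720256) * t + (339933/1048576) * t ^ 2 + (3241/16384) * t ^ 3 + (-(49/1024)) * t ^ 4) + (21/100) ^ 2 := by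
    rw [← h4]
    nlinarith [sq_nonneg (X4 - (21/100))]
  have c5 : 2 * (47/200) * X5 ≤ ((2875822812913/53876069761024) + (2310401851/120259084288) * t + (11619823/134217728) * t ^ 2 + (5814795/16777216) * t ^ 3 + (60319/262144) * t ^ 4 + (-(343/16384)) * t ^ 5) + (47/200) ^ 2 := by
    rw [← h5]
    nlinarith [sq_nonneg (X5 - (47/200))]
  have hD : 0 < ((305/256) - (7/8) * t) := by linarith
  have hu : 0 ≤ t - 0 := by linarith
  have hv : 0 ≤ (1/8) - t := by linarith
  have cY : Y ≤ (256/305) + (57344/84485) * t := by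
    refine le_of_mul_le_mul_right ?_ hD
    rw [hY]
    have e : ((256/305) + (57344/84485) * t) * ((305/256) - (7/8) * t) - 1 = (50176/84485) * ((t - 0) * ((1/8) - t)) := by ring
    have e2 := mul_nonneg hu hv
    linarith
  have hbern : 0 ≤ (2596383675502574225297639/51960765440871787500000) * ((t - 0) ^ 0 * ((1/8) - t) ^ 5) + (9017939411811545701375319503/37422143270515861357500000) * ((t - 0) ^ 1 * ((1/8) - t) ^ 4) + (8344801307231765262744856967/18711071635257930678750000) * ((t - 0) ^ 2 * ((1/8) - t) ^ 3) + (7297259728285547599631690431/18711071635257930678750000) * ((t - 0) ^ 3 * ((1/8) - t) ^ 2) + (389367323390924605143327193/2494809551367724090500000) * ((t - 0) ^ 4 * ((1/8) - t) ^ 1) + (64557990303098356876112219/3067388792665234537500000) * ((t - 0) ^ 5 * ((1/8) - t) ^ 0) := by positivity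
  linarith

theorem piece4 {t X1 X2 X3 X4 X5 Y : ℝ} (ha : (1/8) ≤ t) (hb : t ≤ (1/4))
    (h1 : X1 ^ 2 = (2249/12544) + (-(5/28)) * t)
    (h2 : X2 ^ 2 = (43873/200704) + (79/896) * t + (-(1/8)) * t ^ 2)
    (h3 : X3 ^ 2 = (79356953/822083584) + (503959/1835008) * t + (621/4096) * t ^ 2 + (-(21/256)) * t ^ 3)
    (h4 : X4 ^ 2 = (1902996673/52613349376) + (6220015/58720256) * t + (339933/1048576) * t ^ 2 + (3241/16384) * t ^ 3 + (-(49/1024)) * t ^ 4)
    (h5 : X5 ^ 2 = (2875822812913/53876069761024) + (2310401851/120259084288) * t + (11619823/134217728) * t ^ 2 + (5814795/16777216) * t ^ 3 + (60319/262144) * t ^ 4 + (-(343/16384)) * t ^ 5)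
    (hY : Y * ((305/256) - (7/8) * t) = 1) :
    (64/225) * X1 + (512/3375) * X2 + (4096/50625) * X3 + (32768/759375) * X4 + (262144/11390625) * X5 + (117649/501187500) + (4440734407/571536000000) * Y ≤ (192/805) := by
  have c1 : 2 * (191/500) * X1 ≤ ((2249/12544) + (-(5/28)) * t) + (191/500) ^ 2 := by
    rw [← h1]
    nlinarith [sq_nonneg (X1 - (191/500))]
  have c2 : 2 * (12/25) * X2 ≤ ((43873/200704) + (79/896) * t + (-(1/8)) * t ^ 2) + (12/25) ^ 2 := by
    rw [← h2]
    nlinarith [sq_nonneg (X2 - (12/25))]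
  have c3 : 2 * (391/1000) * X3 ≤ ((79356953/822083584) + (503959/1835008) * t + (621/4096) * t ^ 2 + (-(21/256)) * t ^ 3) + (391/1000) ^ 2 := by
    rw [← h3]
    nlinarith [sq_nonneg (X3 - (391/1000))]
  have c4 : 2 * (131/500) * X4 ≤ ((1902996673/52613349376) + (6220015/58720256) * t + (339933/1048576) * t ^ 2 + (3241/16384) * t ^ 3 + (-(49/1024)) * t ^ 4) + (131/500) ^ 2 := by
    rw [← h4]
    nlinarith [sq_nonneg (X4 - (131/500))]
  have c5 : 2 * (1/4) * X5 ≤ ((2875822812913/53876069761024) + (2310401851/120259084288) * t + (11619823/134217728) * t ^ 2 + (5814795/16777216) * t ^ 3 + (60319/262144) * t ^ 4 + (-(343/16384)) * t ^ 5) + (1/4) ^ 2 := by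
    rw [← h5]
    nlinarith [sq_nonneg (X5 - (1/4))]
  have hD : 0 < ((305/256) - (7/8) * t) := by linarith
  have hu : 0 ≤ t - (1/8) := by linarith
  have hv : 0 ≤ (1/4) - t := by linarith
  have cY : Y ≤ (56576/68973) + (57344/68973) * t := by
    refine le_of_mul_le_mul_right ?_ hD
    rw [hY]
    have e : ((56576/68973) + (57344/68973) * t) * ((305/256) - (7/8) * t) - 1 = (50176/68973) * ((t - (1/8)) * ((1/4) - t)) := by ring
    have e2 := mul_nonneg hu hv
    linarith
  have hbern : 0 ≤ (561453246866233116538307/26620578653978925000000) * ((t - (1/8)) ^ 0 * ((1/4) - t) ^ 5) + (141164408859707304708423043/1325704816968150465000000) * ((t - (1/8)) ^ 1 * ((1/4) - t) ^ 4) + (130265953333087361113726043/662852408484075232500000) * ((t - (1/8)) ^ 2 * ((1/4) - t) ^ 3) + (11773782656897482179701147/73650267609341692500000) * ((t - (1/8)) ^ 3 * ((1/4) - t) ^ 2) + (67052087851334689400936203/1325704816968150465000000) * ((t - (1/8)) ^ 4 * ((1/4) - t) ^ 1) + (44280631336102118199959/23929689836970225000000)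 * ((t - (1/8)) ^ 5 * ((1/4) - t) ^ 0) := by positivity
  linarith

theorem piece5 {t X1 X2 X3 X4 X5 Y : ℝ} (ha : (1/4) ≤ t) (hb : t ≤ (5/16))
    (h1 : X1 ^ 2 = (2249/12544) + (-(5/28)) * t)
    (h2 : X2 ^ 2 = (43873/200704) + (79/896) * t + (-(1/8)) * t ^ 2)
    (h3 : X3 ^ 2 = (79356953/822083584) + (503959/1835008) * t + (621/4096) * t ^ 2 + (-(21/256)) * t ^ 3)
    (h4 : X4 ^ 2 = (1902996673/52613349376) + (6220015/58720256) * t + (339933/1048576) * t ^ 2 + (3241/16384) * t ^ 3 + (-(49/1024)) * t ^ 4)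
    (h5 : X5 ^ 2 = (2875822812913/53876069761024) + (2310401851/120259084288) * t + (11619823/134217728) * t ^ 2 + (5814795/16777216) * t ^ 3 + (60319/262144) * t ^ 4 + (-(343/16384)) * t ^ 5)
    (hY : Y * ((305/256) - (7/8) * t) = 1) :
    (64/225) * X1 + (512/3375) * X2 + (4096/50625) * X3 + (32768/759375) * X4 + (262144/11390625) * X5 + (117649/501187500) + (4440734407/571536000000) * Y ≤ (192/805) := by
  have c1 : 2 * (359/1000) * X1 ≤ ((2249/12544) + (-(5/28)) * t) + (359/1000) ^ 2 := by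
    rw [← h1]
    nlinarith [sq_nonneg (X1 - (359/1000))]
  have c2 : 2 * (483/1000) * X2 ≤ ((43873/200704) + (79/896) * t + (-(1/8)) * t ^ 2) + (483/1000) ^ 2 := by
    rw [← h2]
    nlinarith [sq_nonneg (X2 - (483/1000))]
  have c3 : 2 * (429/1000) * X3 ≤ ((79356953/822083584) + (503959/1835008) * t + (621/4096) * t ^ 2 + (-(21/256)) * t ^ 3) + (429/1000) ^ 2 := by
    rw [← h3]
    nlinarith [sq_nonneg (X3 - (429/1000))]
  have c4 : 2 * (309/1000) * X4 ≤ ((1902996673/52613349376) + (6220015/58720256) * t + (339933/1048576) * t ^ 2 + (3241/16384) * t ^ 3 + (-(49/1024)) * t ^ 4) + (309/1000) ^ 2 := by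
    rw [← h4]
    nlinarith [sq_nonneg (X4 - (309/1000))]
  have c5 : 2 * (273/1000) * X5 ≤ ((2875822812913/53876069761024) + (2310401851/120259084288) * t + (11619823/134217728) * t ^ 2 + (5814795/16777216) * t ^ 3 + (60319/262144) * t ^ 4 + (-(343/16384)) * t ^ 5) + (273/1000) ^ 2 := by
    rw [← h5]
    nlinarith [sq_nonneg (X5 - (273/1000))]
  have hD : 0 < ((305/256) - (7/8) * t) := by linarith
  have hu : 0 ≤ t - (1/4) := by linarith
  have hv : 0 ≤ (5/16) - t := by linarith
  have cY : Y ≤ (45824/58515) + (57344/58515) * t := by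
    refine le_of_mul_le_mul_right ?_ hD
    rw [hY]
    have e : ((45824/58515) + (57344/58515) * t) * ((305/256) - (7/8) * t) - 1 = (50176/58515) * ((t - (1/4)) * ((5/16) - t)) := by ring
    have e2 := mul_nonneg hu hv
    linarith
  have hbern : 0 ≤ (3656984933382355726703473/14789264672133123046875) * ((t - (1/4)) ^ 0 * ((5/16) - t) ^ 5) + (175925012297504228426634971/139019087918051356640625) * ((t - (1/4)) ^ 1 * ((5/16) - t) ^ 4) + (37544453136993781202168158/15446565324227928515625) * ((t - (1/4)) ^ 2 * ((5/16) - t) ^ 3) + (300963939267664618643906902/139019087918051356640625) * ((t - (1/4)) ^ 3 * ((5/16) - t) ^ 2) + (40012571183878010566183397/46339695972683785546875) * ((t - (1/4)) ^ 4 * ((5/16) - t) ^ 1) + (929194052169938370598457/8374643850485021484375) * ((t - (1/4)) ^ 5 * ((5/16) - t) ^ 0) := by positivity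
  linarith

theorem piece6 {t X1 X2 X3 X4 X5 Y : ℝ} (ha : (5/16) ≤ t) (hb : t ≤ (3/8))
    (h1 : X1 ^ 2 = (2249/12544) + (-(5/28)) * t)
    (h2 : X2 ^ 2 = (43873/200704) + (79/896) * t + (-(1/8)) * t ^ 2)
    (h3 : X3 ^ 2 = (79356953/822083584) + (503959/1835008) * t + (621/4096) * t ^ 2 + (-(21/256)) * t ^ 3)
    (h4 : X4 ^ 2 = (1902996673/52613349376) + (6220015/58720256) * t + (339933/1048576) * t ^ 2 + (3241/16384) * t ^ 3 + (-(49/1024)) * t ^ 4)
    (h5 : X5 ^ 2 = (2875822812913/53876069761024) + (2310401851/120259084288) * t + (11619823/134217728) * t ^ 2 + (5814795/16777216) * t ^ 3 + (60319/262144) * t ^ 4 + (-(343/16384)) * t ^ 5)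
    (hY : Y * ((305/256) - (7/8) * t) = 1) :
    (64/225) * X1 + (512/3375) * X2 + (4096/50625) * X3 + (32768/759375) * X4 + (262144/11390625) * X5 + (117649/501187500) + (4440734407/571536000000) * Y ≤ (192/805) := by
  have c1 : 2 * (343/1000) * X1 ≤ ((2249/12544) + (-(5/28)) * t) + (343/1000) ^ 2 := by
    rw [← h1]
    nlinarith [sq_nonneg (X1 - (343/1000))]
  have c2 : 2 * (121/250) * X2 ≤ ((43873/200704) + (79/896) * t + (-(1/8)) * t ^ 2) + (121/250) ^ 2 := by
    rw [← h2]
    nlinarith [sq_nonneg (X2 - (121/250))]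
  have c3 : 2 * (453/1000) * X3 ≤ ((79356953/822083584) + (503959/1835008) * t + (621/4096) * t ^ 2 + (-(21/256)) * t ^ 3) + (453/1000) ^ 2 := by
    rw [← h3]
    nlinarith [sq_nonneg (X3 - (453/1000))]
  have c4 : 2 * (43/125) * X4 ≤ ((1902996673/52613349376) + (6220015/58720256) * t + (339933/1048576) * t ^ 2 + (3241/16384) * t ^ 3 + (-(49/1024)) * t ^ 4) + (43/125) ^ 2 := by
    rw [← h4]
    nlinarith [sq_nonneg (X4 - (43/125))]
  have c5 : 2 * (37/125) * X5 ≤ ((2875822812913/53876069761024) + (2310401851/120259084288) * t + (11619823/134217728) * t ^ 2 + (5814795/16777216) * t ^ 3 + (60319/262144) * t ^ 4 + (-(343/16384)) * t ^ 5) + (37/125) ^ 2 := by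
    rw [← h5]
    nlinarith [sq_nonneg (X5 - (37/125))]
  have hD : 0 < ((305/256) - (7/8) * t) := by linarith
  have hu : 0 ≤ t - (5/16) := by linarith
  have hv : 0 ≤ (3/8) - t := by linarith
  have cY : Y ≤ (38656/51935) + (57344/51935) * t := by
    refine le_of_mul_le_mul_right ?_ hD
    rw [hY]
    have e : ((38656/51935) + (57344/51935) * t) * ((305/256) - (7/8) * t) - 1 = (50176/51935) * ((t - (5/16)) * ((3/8) - t)) := by ring
    have e2 := mul_nonneg hu hv
    linarith
  have hbern : 0 ≤ (17338425865748916474604573/162590146190259046875000) * ((t - (5/16)) ^ 0 * ((3/8) - t) ^ 5) + (10981563980451944553928734353/15641172063502920309375000) * ((t - (5/16)) ^ 1 * ((3/8) - t) ^ 4) + (4132398255470371047125448031/2606862010583820051562500) * ((t - (5/16)) ^ 2 * ((3/8) - t) ^ 3) + (1392915903201518862215611537/868954003527940017187500) * ((t - (5/16)) ^ 3 * ((3/8) - t) ^ 2) + (11347107736450170305007688573/15641172063502920309375000) * ((t - (5/16)) ^ 4 * ((3/8)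 - t) ^ 1) + (5658982363184817368695663/50422862873961703125000) * ((t - (5/16)) ^ 5 * ((3/8) - t) ^ 0) := by positivity
  linarith

theorem piece7 {t X1 X2 X3 X4 X5 Y : ℝ} (ha : (3/8) ≤ t) (hb : t ≤ (7/16))
    (h1 : X1 ^ 2 = (2249/12544) + (-(5/28)) * t)
    (h2 : X2 ^ 2 = (43873/200704) + (79/896) * t + (-(1/8)) * t ^ 2)
    (h3 : X3 ^ 2 = (79356953/822083584) + (503959/1835008) * t + (621/4096) * t ^ 2 + (-(21/256)) * t ^ 3)
    (h4 : X4 ^ 2 = (1902996673/52613349376) + (6220015/58720256) * t + (339933/1048576) * t ^ 2 + (3241/16384) * t ^ 3 + (-(49/1024)) * t ^ 4)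
    (h5 : X5 ^ 2 = (2875822812913/53876069761024) + (2310401851/120259084288) * t + (11619823/134217728) * t ^ 2 + (5814795/16777216) * t ^ 3 + (60319/262144) * t ^ 4 + (-(343/16384)) * t ^ 5)
    (hY : Y * ((305/256) - (7/8) * t) = 1) :
    (64/225) * X1 + (512/3375) * X2 + (4096/50625) * X3 + (32768/759375) * X4 + (262144/11390625) * X5 + (117649/501187500) + (4440734407/571536000000) * Y ≤ (192/805) := by
  have c1 : 2 * (327/1000) * X1 ≤ ((2249/12544) + (-(5/28)) * t) + (327/1000) ^ 2 := by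
    rw [← h1]
    nlinarith [sq_nonneg (X1 - (327/1000))]
  have c2 : 2 * (121/250) * X2 ≤ ((43873/200704) + (79/896) * t + (-(1/8)) * t ^ 2) + (121/250) ^ 2 := by
    rw [← h2]
    nlinarith [sq_nonneg (X2 - (121/250))]
  have c3 : 2 * (477/1000) * X3 ≤ ((79356953/822083584) + (503959/1835008) * t + (621/4096) * t ^ 2 + (-(21/256)) * t ^ 3) + (477/1000) ^ 2 := by
    rw [← h3]
    nlinarith [sq_nonneg (X3 - (477/1000))]
  have c4 : 2 * (19/50) * X4 ≤ ((1902996673/52613349376) + (6220015/58720256) * t + (339933/1048576) * t ^ 2 + (3241/16384) * t ^ 3 + (-(49/1024)) * t ^ 4) + (19/50) ^ 2 := by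
    rw [← h4]
    nlinarith [sq_nonneg (X4 - (19/50))]
  have c5 : 2 * (81/250) * X5 ≤ ((2875822812913/53876069761024) + (2310401851/120259084288) * t + (11619823/134217728) * t ^ 2 + (5814795/16777216) * t ^ 3 + (60319/262144) * t ^ 4 + (-(343/16384)) * t ^ 5) + (81/250) ^ 2 := by
    rw [← h5]
    nlinarith [sq_nonneg (X5 - (81/250))]
  have hD : 0 < ((305/256) - (7/8) * t) := by linarith
  have hu : 0 ≤ t - (3/8) := by linarith
  have hv : 0 ≤ (7/16) - t := by linarith
  have cY : Y ≤ (10496/15249) + (57344/45747) * t := by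
    refine le_of_mul_le_mul_right ?_ hD
    rw [hY]
    have e : ((10496/15249) + (57344/45747) * t) * ((305/256) - (7/8) * t) - 1 = (50176/45747) * ((t - (3/8)) * ((7/16) - t)) := by ring
    have e2 := mul_nonneg hu hv
    linarith
  have hbern : 0 ≤ (902977152175209664330213/8160532515346148437500) * ((t - (3/8)) ^ 0 * ((7/16) - t) ^ 5) + (585098111939192821067209/664932279028204687500) * ((t - (3/8)) ^ 1 * ((7/16) - t) ^ 4) + (20279443356830944709896943/8976585766880763281250) * ((t - (3/8)) ^ 2 * ((7/16) - t) ^ 3) + (23323620961785102137204243/8976585766880763281250) * ((t - (3/8)) ^ 3 * ((7/16) - t) ^ 2) + (1309184451710916726066397/944903764934817187500) * ((t - (3/8)) ^ 4 * ((7/16) - t) ^ 1) + (1913485935974714831214911/6905065974523664062500) * ((t - (3/8)) ^ 5 * ((7/16) - t) ^ 0) := by positivity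
  linarith

theorem piece8 {t X1 X2 X3 X4 X5 Y : ℝ} (ha : (7/16) ≤ t) (hb : t ≤ (1/2))
    (h1 : X1 ^ 2 = (2249/12544) + (-(5/28)) * t)
    (h2 : X2 ^ 2 = (43873/200704) + (79/896) * t + (-(1/8)) * t ^ 2)
    (h3 : X3 ^ 2 = (79356953/822083584) + (503959/1835008) * t + (621/4096) * t ^ 2 + (-(21/256)) * t ^ 3)
    (h4 : X4 ^ 2 = (1902996673/52613349376) + (6220015/58720256) * t + (339933/1048576) * t ^ 2 + (3241/16384) * t ^ 3 + (-(49/1024)) * t ^ 4)
    (h5 : X5 ^ 2 = (2875822812913/53876069761024) + (2310401851/120259084288) * t + (11619823/134217728) * t ^ 2 + (5814795/16777216) * t ^ 3 + (60319/262144) * t ^ 4 + (-(343/16384)) * t ^ 5)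
    (hY : Y * ((305/256) - (7/8) * t) = 1) :
    (64/225) * X1 + (512/3375) * X2 + (4096/50625) * X3 + (32768/759375) * X4 + (262144/11390625) * X5 + (117649/501187500) + (4440734407/571536000000) * Y ≤ (192/805) := by
  have c1 : 2 * (309/1000) * X1 ≤ ((2249/12544) + (-(5/28)) * t) + (309/1000) ^ 2 := by
    rw [← h1]
    nlinarith [sq_nonneg (X1 - (309/1000))]
  have c2 : 2 * (241/500) * X2 ≤ ((43873/200704) + (79/896) * t + (-(1/8)) * t ^ 2) + (241/500) ^ 2 := by
    rw [← h2]
    nlinarith [sq_nonneg (X2 - (241/500))]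
  have c3 : 2 * (1/2) * X3 ≤ ((79356953/822083584) + (503959/1835008) * t + (621/4096) * t ^ 2 + (-(21/256)) * t ^ 3) + (1/2) ^ 2 := by
    rw [← h3]
    nlinarith [sq_nonneg (X3 - (1/2))]
  have c4 : 2 * (209/500) * X4 ≤ ((1902996673/52613349376) + (6220015/58720256) * t + (339933/1048576) * t ^ 2 + (3241/16384) * t ^ 3 + (-(49/1024)) * t ^ 4) + (209/500) ^ 2 := by
    rw [← h4]
    nlinarith [sq_nonneg (X4 - (209/500))]
  have c5 : 2 * (357/1000) * X5 ≤ ((2875822812913/53876069761024) + (2310401851/120259084288) * t + (11619823/134217728) * t ^ 2 + (5814795/16777216) * t ^ 3 + (60319/262144) * t ^ 4 + (-(343/16384)) * t ^ 5) + (357/1000) ^ 2 := by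
    rw [← h5]
    nlinarith [sq_nonneg (X5 - (357/1000))]
  have hD : 0 < ((305/256) - (7/8) * t) := by linarith
  have hu : 0 ≤ t - (7/16) := by linarith
  have hv : 0 ≤ (1/2) - t := by linarith
  have cY : Y ≤ (24320/39951) + (57344/39951) * t := by
    refine le_of_mul_le_mul_right ?_ hD
    rw [hY]
    have e : ((24320/39951) + (57344/39951) * t) * ((305/256) - (7/8) * t) - 1 = (50176/39951) * ((t - (7/16)) * ((1/2) - t)) := by ring
    have e2 := mul_nonneg hu hv
    linarith
  have hbern : 0 ≤ (2474415377052256131364513/8916029723226076171875) * ((t - (7/16)) ^ 0 * ((1/2) - t) ^ 5) + (60332862553183325254131919/31287158846956958203125) * ((t - (7/16)) ^ 1 * ((1/2) - t) ^ 4) + (549314855446500775758650806/114719582438842180078125) * ((t - (7/16)) ^ 2 * ((1/2) - t) ^ 3) + (1915041105698471959827482618/344158747316526540234375) * ((t - (7/16)) ^ 3 * ((1/2) - t) ^ 2) + (1063313185760218535924761409/344158747316526540234375) * ((t - (7/16)) ^ 4 * ((1/2) - t) ^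 1) + (380113040175282254991750503/573597912194210900390625) * ((t - (7/16)) ^ 5 * ((1/2) - t) ^ 0) := by positivity
  linarith

theorem piece9 {t X1 X2 X3 X4 X5 Y : ℝ} (ha : (1/2) ≤ t) (hb : t ≤ (5/8))
    (h1 : X1 ^ 2 = (2249/12544) + (-(5/28)) * t)
    (h2 : X2 ^ 2 = (43873/200704) + (79/896) * t + (-(1/8)) * t ^ 2)
    (h3 : X3 ^ 2 = (79356953/822083584) + (503959/1835008) * t + (621/4096) * t ^ 2 + (-(21/256)) * t ^ 3)
    (h4 : X4 ^ 2 = (1902996673/52613349376) + (6220015/58720256) * t + (339933/1048576) * t ^ 2 + (3241/16384) * t ^ 3 + (-(49/1024)) * t ^ 4)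
    (h5 : X5 ^ 2 = (2875822812913/53876069761024) + (2310401851/120259084288) * t + (11619823/134217728) * t ^ 2 + (5814795/16777216) * t ^ 3 + (60319/262144) * t ^ 4 + (-(343/16384)) * t ^ 5)
    (hY : Y * ((305/256) - (7/8) * t) = 1) :
    (64/225) * X1 + (512/3375) * X2 + (4096/50625) * X3 + (32768/759375) * X4 + (262144/11390625) * X5 + (117649/501187500) + (4440734407/571536000000) * Y ≤ (192/805) := by
  have c1 : 2 * (281/1000) * X1 ≤ ((2249/12544) + (-(5/28)) * t) + (281/1000) ^ 2 := by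
    rw [← h1]
    nlinarith [sq_nonneg (X1 - (281/1000))]
  have c2 : 2 * (239/500) * X2 ≤ ((43873/200704) + (79/896) * t + (-(1/8)) * t ^ 2) + (239/500) ^ 2 := by
    rw [← h2]
    nlinarith [sq_nonneg (X2 - (239/500))]
  have c3 : 2 * (533/1000) * X3 ≤ ((79356953/822083584) + (503959/1835008) * t + (621/4096) * t ^ 2 + (-(21/256)) * t ^ 3) + (533/1000) ^ 2 := by
    rw [← h3]
    nlinarith [sq_nonneg (X3 - (533/1000))]
  have c4 : 2 * (239/500) * X4 ≤ ((1902996673/52613349376) + (6220015/58720256) * t + (339933/1048576) * t ^ 2 + (3241/16384) * t ^ 3 + (-(49/1024)) * t ^ 4) + (239/500) ^ 2 := by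
    rw [← h4]
    nlinarith [sq_nonneg (X4 - (239/500))]
  have c5 : 2 * (209/500) * X5 ≤ ((2875822812913/53876069761024) + (2310401851/120259084288) * t + (11619823/134217728) * t ^ 2 + (5814795/16777216) * t ^ 3 + (60319/262144) * t ^ 4 + (-(343/16384)) * t ^ 5) + (209/500) ^ 2 := by
    rw [← h5]
    nlinarith [sq_nonneg (X5 - (209/500))]
  have hD : 0 < ((305/256) - (7/8) * t) := by linarith
  have hu : 0 ≤ t - (1/2) := by linarith
  have hv : 0 ≤ (5/8) - t := by linarith
  have cY : Y ≤ (13568/31845) + (57344/31845) * t := by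
    refine le_of_mul_le_mul_right ?_ hD
    rw [hY]
    have e : ((13568/31845) + (57344/31845) * t) * ((305/256) - (7/8) * t) - 1 = (50176/31845) * ((t - (1/2)) * ((5/8) - t)) := by ring
    have e2 := mul_nonneg hu hv
    linarith
  have hbern : 0 ≤ (1814223155053756589324254243/148284747627370979625000000) * ((t - (1/2)) ^ 0 * ((5/8) - t) ^ 5) + (11442993009274994097840752369/88970848576422587775000000) * ((t - (1/2)) ^ 1 * ((5/8) - t) ^ 4) + (16700923103998896056931742009/44485424288211293887500000) * ((t - (1/2)) ^ 2 * ((5/8) - t) ^ 3) + (49328514845740748573926181/103695627711448237500000) * ((t - (1/2)) ^ 3 * ((5/8) - t) ^ 2) + (1905349977370831585846486253/6843911428955583675000000) * ((t - (1/2)) ^ 4 * ((5/8) - t) ^ 1) + (142308868787718662981039953/2304944263637890875000000) * ((t - (1/2)) ^ 5 * ((5/8) - t) ^ 0) := by positivity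
  linarith

theorem piece10 {t X1 X2 X3 X4 X5 Y : ℝ} (ha : (5/8) ≤ t) (hb : t ≤ (3/4))
    (h1 : X1 ^ 2 = (2249/12544) + (-(5/28)) * t)
    (h2 : X2 ^ 2 = (43873/200704) + (79/896) * t + (-(1/8)) * t ^ 2)
    (h3 : X3 ^ 2 = (79356953/822083584) + (503959/1835008) * t + (621/4096) * t ^ 2 + (-(21/256)) * t ^ 3)
    (h4 : X4 ^ 2 = (1902996673/52613349376) + (6220015/58720256) * t + (339933/1048576) * t ^ 2 + (3241/16384) * t ^ 3 + (-(49/1024)) * t ^ 4)
    (h5 : X5 ^ 2 = (2875822812913/53876069761024) + (2310401851/120259084288) * t + (11619823/134217728) * t ^ 2 + (5814795/16777216) * t ^ 3 + (60319/262144) * t ^ 4 + (-(343/16384)) * t ^ 5)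
    (hY : Y * ((305/256) - (7/8) * t) = 1) :
    (64/225) * X1 + (512/3375) * X2 + (4096/50625) * X3 + (32768/759375) * X4 + (262144/11390625) * X5 + (117649/501187500) + (4440734407/571536000000) * Y ≤ (192/805) := by
  have c1 : 2 * (119/500) * X1 ≤ ((2249/12544) + (-(5/28)) * t) + (119/500) ^ 2 := by
    rw [← h1]
    nlinarith [sq_nonneg (X1 - (119/500))]
  have c2 : 2 * (469/1000) * X2 ≤ ((43873/200704) + (79/896) * t + (-(1/8)) * t ^ 2) + (469/1000) ^ 2 := by
    rw [← h2]
    nlinarith [sq_nonneg (X2 - (469/1000))]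
  have c3 : 2 * (23/40) * X3 ≤ ((79356953/822083584) + (503959/1835008) * t + (621/4096) * t ^ 2 + (-(21/256)) * t ^ 3) + (23/40) ^ 2 := by
    rw [← h3]
    nlinarith [sq_nonneg (X3 - (23/40))]
  have c4 : 2 * (281/500) * X4 ≤ ((1902996673/52613349376) + (6220015/58720256) * t + (339933/1048576) * t ^ 2 + (3241/16384) * t ^ 3 + (-(49/1024)) * t ^ 4) + (281/500) ^ 2 := by
    rw [← h4]
    nlinarith [sq_nonneg (X4 - (281/500))]
  have c5 : 2 * (259/500) * X5 ≤ ((2875822812913/53876069761024) + (2310401851/120259084288) * t + (11619823/134217728) * t ^ 2 + (5814795/16777216) * t ^ 3 + (60319/262144) * t ^ 4 + (-(343/16384)) * t ^ 5) + (259/500) ^ 2 := by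
    rw [← h5]
    nlinarith [sq_nonneg (X5 - (259/500))]
  have hD : 0 < ((305/256) - (7/8) * t) := by linarith
  have hu : 0 ≤ t - (5/8) := by linarith
  have hv : 0 ≤ (3/4) - t := by linarith
  have cY : Y ≤ (-(256/7535)) + (57344/22605) * t := by
    refine le_of_mul_le_mul_right ?_ hD
    rw [hY]
    have e : ((-(256/7535)) + (57344/22605) * t) * ((305/256) - (7/8) * t) - 1 = (50176/22605) * ((t - (5/8)) * ((3/4) - t)) := by ring
    have e2 := mul_nonneg hu hv
    linarith
  have hbern : 0 ≤ (16799903815444350723883091/280934583805519875000000) * ((t - (5/8)) ^ 0 * ((3/4) - t) ^ 5) + (292065957777971697667761577/699782508751931325000000) * ((t - (5/8)) ^ 1 * ((3/4) - t) ^ 4) + (1355432942772506160304390409/1282934599378540762500000) * ((t - (5/8)) ^ 2 * ((3/4) - t) ^ 3) + (4858392230021991234201965107/3848803798135622287500000) * ((t - (5/8)) ^ 3 * ((3/4) - t) ^ 2) + (5584979123792955671323958987/7697607596271244575000000) * ((t - (5/8)) ^ 4 * ((3/4) - t)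 ^ 1) + (231182912814962576581664921/1425482888198378625000000) * ((t - (5/8)) ^ 5 * ((3/4) - t) ^ 0) := by positivity
  linarith

theorem piece11 {t X1 X2 X3 X4 X5 Y : ℝ} (ha : (3/4) ≤ t) (hb : t ≤ 1)
    (h1 : X1 ^ 2 = (2249/12544) + (-(5/28)) * t)
    (h2 : X2 ^ 2 = (43873/200704) + (79/896) * t + (-(1/8)) * t ^ 2)
    (h3 : X3 ^ 2 = (79356953/822083584) + (503959/1835008) * t + (621/4096) * t ^ 2 + (-(21/256)) * t ^ 3)
    (h4 : X4 ^ 2 = (1902996673/52613349376) + (6220015/58720256) * t + (339933/1048576) * t ^ 2 + (3241/16384) * t ^ 3 + (-(49/1024)) * t ^ 4)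
    (h5 : X5 ^ 2 = (2875822812913/53876069761024) + (2310401851/120259084288) * t + (11619823/134217728) * t ^ 2 + (5814795/16777216) * t ^ 3 + (60319/262144) * t ^ 4 + (-(343/16384)) * t ^ 5)
    (hY : Y * ((305/256) - (7/8) * t) = 1) :
    (64/225) * X1 + (512/3375) * X2 + (4096/50625) * X3 + (32768/759375) * X4 + (262144/11390625) * X5 + (117649/501187500) + (4440734407/571536000000) * Y ≤ (192/805) := by
  have c1 : 2 * (19/125) * X1 ≤ ((2249/12544) + (-(5/28)) * t) + (19/125) ^ 2 := by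
    rw [← h1]
    nlinarith [sq_nonneg (X1 - (19/125))]
  have c2 : 2 * (447/1000) * X2 ≤ ((43873/200704) + (79/896) * t + (-(1/8)) * t ^ 2) + (447/1000) ^ 2 := by
    rw [← h2]
    nlinarith [sq_nonneg (X2 - (447/1000))]
  have c3 : 2 * (631/1000) * X3 ≤ ((79356953/822083584) + (503959/1835008) * t + (621/4096) * t ^ 2 + (-(21/256)) * t ^ 3) + (631/1000) ^ 2 := by
    rw [← h3]
    nlinarith [sq_nonneg (X3 - (631/1000))]
  have c4 : 2 * (347/500) * X4 ≤ ((1902996673/52613349376) + (6220015/58720256) * t + (339933/1048576) * t ^ 2 + (3241/16384) * t ^ 3 + (-(49/1024)) * t ^ 4) + (347/500) ^ 2 := by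
    rw [← h4]
    nlinarith [sq_nonneg (X4 - (347/500))]
  have c5 : 2 * (351/500) * X5 ≤ ((2875822812913/53876069761024) + (2310401851/120259084288) * t + (11619823/134217728) * t ^ 2 + (5814795/16777216) * t ^ 3 + (60319/262144) * t ^ 4 + (-(343/16384)) * t ^ 5) + (351/500) ^ 2 := by
    rw [← h5]
    nlinarith [sq_nonneg (X5 - (351/500))]
  have hD : 0 < ((305/256) - (7/8) * t) := by linarith
  have hu : 0 ≤ t - (3/4) := by linarith
  have hv : 0 ≤ 1 - t := by linarith
  have cY : Y ≤ (-(7424/3699)) + (57344/11097) * t := by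
    refine le_of_mul_le_mul_right ?_ hD
    rw [hY]
    have e : ((-(7424/3699)) + (57344/11097) * t) * ((305/256) - (7/8) * t) - 1 = (50176/11097) * ((t - (3/4)) * (1 - t)) := by ring
    have e2 := mul_nonneg hu hv
    linarith
  have hbern : 0 ≤ (31071046945641424589850648073/21990465759521408292000000000) * ((t - (3/4)) ^ 0 * (1 - t) ^ 5) + (3894804380929652678801906843/146370770507115554400000000) * ((t - (3/4)) ^ 1 * (1 - t) ^ 4) + (4200525448527487936290090826333/46179978094994957413200000000) * ((t - (3/4)) ^ 2 * (1 - t) ^ 3) + (217507818249637344418270993879/1710369559073887311600000000) * ((t - (3/4)) ^ 3 * (1 - t) ^ 2) + (7465317540988359546918102043133/92359956189989914826400000000) * ((t - (3/4)) ^ 4 * (1 - t) ^ 1) + (65469152547939887238881471909/3370801320802551636000000000) * ((t - (3/4)) ^ 5 * (1 - t) ^ 0) := by positivity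
  linarith

theorem num_ineq {t X1 X2 X3 X4 X5 Y : ℝ} (ha : -1 ≤ t) (hb : t ≤ 1)
    (h1 : X1 ^ 2 = (2249/12544) + (-(5/28)) * t)
    (h2 : X2 ^ 2 = (43873/200704) + (79/896) * t + (-(1/8)) * t ^ 2)
    (h3 : X3 ^ 2 = (79356953/822083584) + (503959/1835008) * t + (621/4096) * t ^ 2 + (-(21/256)) * t ^ 3)
    (h4 : X4 ^ 2 = (1902996673/52613349376) + (6220015/58720256) * t + (339933/1048576) * t ^ 2 + (3241/16384) * t ^ 3 + (-(49/1024)) * t ^ 4)
    (h5 : X5 ^ 2 = (2875822812913/53876069761024) + (2310401851/120259084288) * t + (11619823/134217728) * t ^ 2 + (5814795/16777216) * t ^ 3 + (60319/262144) * t ^ 4 + (-(343/16384)) * t ^ 5)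
    (hY : Y * ((305/256) - (7/8) * t) = 1) :
    (64/225) * X1 + (512/3375) * X2 + (4096/50625) * X3 + (32768/759375) * X4 + (262144/11390625) * X5 + (117649/501187500) + (4440734407/571536000000) * Y ≤ (192/805) := by
  rcases le_or_gt t (-(1/2)) with k0 | k0
  · exact piece0 (by linarith) k0 h1 h2 h3 h4 h5 hY
  rcases le_or_gt t (-(1/4)) with k1 | k1
  · exact piece1 (by linarith) k1 h1 h2 h3 h4 h5 hY
  rcases le_or_gt t 0 with k2 | k2
  · exact piece2 (by linarith) k2 h1 h2 h3 h4 h5 hY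
  rcases le_or_gt t (1/8) with k3 | k3
  · exact piece3 (by linarith) k3 h1 h2 h3 h4 h5 hY
  rcases le_or_gt t (1/4) with k4 | k4
  · exact piece4 (by linarith) k4 h1 h2 h3 h4 h5 hY
  rcases le_or_gt t (5/16) with k5 | k5
  · exact piece5 (by linarith) k5 h1 h2 h3 h4 h5 hY
  rcases le_or_gt t (3/8) with k6 | k6
  · exact piece6 (by linarith) k6 h1 h2 h3 h4 h5 hY
  rcases le_or_gt t (7/16) with k7 | k7
  · exact piece7 (by linarith) k7 h1 h2 h3 h4 h5 hY
  rcases le_or_gt t (1/2) with k8 | k8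
  · exact piece8 (by linarith) k8 h1 h2 h3 h4 h5 hY
  rcases le_or_gt t (5/8) with k9 | k9
  · exact piece9 (by linarith) k9 h1 h2 h3 h4 h5 hY
  rcases le_or_gt t (3/4) with k10 | k10
  · exact piece10 (by linarith) k10 h1 h2 h3 h4 h5 hY
  exact piece11 (by linarith) (by linarith) h1 h2 h3 h4 h5 hY

theorem kernel_bound {ζ : ℂ} (hζ : ‖ζ‖ = 1) (N : ℕ) :
    ∑ m ∈ range N, ((8/15) : ℝ) ^ (m + 1) * ‖kf (7/16) (1/7) ζ m‖ ≤ 1 / (1 + (7/16)) := by
  have hre : |ζ.re| ≤ 1 := by
    have := Complex.abs_re_le_norm ζ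
    rwa [hζ] at this
  have hre2 := abs_le.mp hre
  have hext : ∑ m ∈ range N, ((8/15) : ℝ) ^ (m + 1) * ‖kf (7/16) (1/7) ζ m‖ ≤
      ∑ m ∈ range (6 + N), ((8/15) : ℝ) ^ (m + 1) * ‖kf (7/16) (1/7) ζ m‖ := by
    refine Finset.sum_le_sum_of_subset_of_nonneg ?_ (fun _ _ _ => by positivity)
    intro k hk
    rw [Finset.mem_range] at hk ⊢
    omega
  refine hext.trans ?_
  rw [Finset.sum_range_add]
  have ht := tail_bound (l := (7/16)) (η := (1/7)) (r := (8/15)) (by norm_num) (by norm_num)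
    (by norm_num) (by norm_num) (by norm_num) (by norm_num) 6 (by norm_num) hζ N
  have hD : 0 < (305/256) - (7/8) * ζ.re := by linarith
  have hY : (1 + ((7/16) : ℝ) ^ 2 - 2 * (7/16) * ζ.re)⁻¹ * ((305/256) - (7/8) * ζ.re) = 1 := by
    rw [show (1 + ((7/16) : ℝ) ^ 2 - 2 * (7/16) * ζ.re) = (305/256) - (7/8) * ζ.re by ring]
    exact inv_mul_cancel₀ hD.ne'
  have h0 : ‖kf (7/16) (1/7) ζ 0‖ ^ 2 = (36/49) := by
    rw [kf_norm_sq hζ]
    norm_num [PR]
  have h1 : ‖kf (7/16) (1/7) ζ 1‖ ^ 2 = (2249/12544) + (-(5/28)) * ζ.re := by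
    rw [kf_norm_sq hζ]
    simp only [PR]
    push_cast
    ring
  have h2 : ‖kf (7/16) (1/7) ζ 2‖ ^ 2 = (43873/200704) + (79/896) * ζ.re + (-(1/8)) * ζ.re ^ 2 := by
    rw [kf_norm_sq hζ]
    simp only [PR]
    push_cast
    ring
  have h3 : ‖kf (7/16) (1/7) ζ 3‖ ^ 2 = (79356953/822083584) + (503959/1835008) * ζ.re + (621/4096) * ζ.re ^ 2 + (-(21/256)) * ζ.re ^ 3 := by
    rw [kf_norm_sq hζ]
    simp only [PR]
    push_cast
    ring
  have h4 : ‖kf (7/16) (1/7) ζ 4‖ ^ 2 = (1902996673/52613349376) + (6220015/58720256) * ζ.re + (339933/1048576) * ζ.re ^ 2 + (3241/16384) * ζ.re ^ 3 + (-(49/1024)) * ζ.re ^ 4 := by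
    rw [kf_norm_sq hζ]
    simp only [PR]
    push_cast
    ring
  have h5 : ‖kf (7/16) (1/7) ζ 5‖ ^ 2 = (2875822812913/53876069761024) + (2310401851/120259084288) * ζ.re + (11619823/134217728) * ζ.re ^ 2 + (5814795/16777216) * ζ.re ^ 3 + (60319/262144) * ζ.re ^ 4 + (-(343/16384)) * ζ.re ^ 5 := by
    rw [kf_norm_sq hζ]
    simp only [PR]
    push_cast
    ring
  have hX0 : ‖kf (7/16) (1/7) ζ 0‖ = (6/7) := by
    have h := norm_nonneg (kf (7/16) (1/7) ζ 0)
    nlinarith
  have hnum := num_ineq hre2.1 hre2.2 h1 h2 h3 h4 h5 hY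
  simp only [Finset.sum_range_succ, Finset.sum_range_zero, zero_add]
  rw [hX0]
  norm_num at ht hnum ⊢
  linarith

end Pool.Agent.Helper610.Bohr.NumA
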