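import Pool.Agent.Helper610.Bohr.Reg

open Metric Complex Finset

namespace Pool.Agent.Helper610.Bohr

theorem re_quot_nonneg {l : ℝ} (h0 : 0 ≤ l) (_h1 : l < 1) {g z : ℂ} (hg : ‖g‖ ≤ 1)
    (_hz : ‖z‖ < 1) : 0 ≤ ((1 - (l : ℂ) * z) * (1 - g) / (1 - (l : ℂ) * (z * g))).re := by
  have hg2 : g.re ^ 2 + g.im ^ 2 ≤ 1 := by
    have h2 : Complex.normSq g ≤ 1 := by
      rw [Complex.normSq_eq_norm_sq]
      have := norm_nonneg g
      nlinarith
    rw [Complex.normSq_apply] at h2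
    nlinarith
  rw [Complex.div_re, ← add_div]
  refine div_nonneg ?_ (Complex.normSq_nonneg _)
  simp only [Complex.sub_re, Complex.sub_im, Complex.mul_re, Complex.mul_im, Complex.ofReal_re,
    Complex.ofReal_im, Complex.one_re, Complex.one_im]
  set a := g.re
  set b := g.im
  set x := z.re
  set y := z.im
  have ha : a ≤ 1 := by nlinarith [sq_nonneg b, sq_nonneg (a - 1)]
  have e : ∀ S : ℝ, S = (1 - a) * (1 - l ^ 2 * (x ^ 2 + y ^ 2)) +
      (1 - (a ^ 2 + b ^ 2)) * (l ^ 2 * (x ^ 2 + y ^ 2) - l * x) → 0 ≤ S := by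
    intro S hS
    rw [hS]
    by_cases hc : 0 ≤ l ^ 2 * (x ^ 2 + y ^ 2) - l * x
    · have h2 : 1 - (a ^ 2 + b ^ 2) ≥ 0 := by linarith
      have h3 : l ^ 2 * (x ^ 2 + y ^ 2) ≤ 1 := by
        have hz2 : x ^ 2 + y ^ 2 < 1 := by
          have h4 : Complex.normSq z < 1 := by
            rw [Complex.normSq_eq_norm_sq]
            have := norm_nonneg z
            nlinarith
          rw [Complex.normSq_apply] at h4
          nlinarith
        have : 0 ≤ x ^ 2 + y ^ 2 := by positivity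
        nlinarith
      have h4 := mul_nonneg h2 hc
      have h5 := mul_nonneg (sub_nonneg.mpr ha) (sub_nonneg.mpr h3)
      linarith
    · push Not at hc
      have h2 : 1 - (a ^ 2 + b ^ 2) ≤ 2 * (1 - a) := by nlinarith [sq_nonneg (a - 1), sq_nonneg b]
      have h3 : (1 - (a ^ 2 + b ^ 2)) * (l ^ 2 * (x ^ 2 + y ^ 2) - l * x) ≥
          2 * (1 - a) * (l ^ 2 * (x ^ 2 + y ^ 2) - l * x) :=
        mul_le_mul_of_nonpos_right h2 hc.le
      have h4 : 0 ≤ (1 - a) * ((1 - l * x) ^ 2 + (l * y) ^ 2) :=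
        mul_nonneg (sub_nonneg.mpr ha) (by positivity)
      nlinarith
  apply e
  ring

theorem conv_geom (l : ℝ) (n : ℕ) :
    conv (fun n => (l : ℂ) ^ n) (fun n => (l : ℂ) ^ n) n = ((n : ℂ) + 1) * (l : ℂ) ^ n := by
  unfold conv
  rw [Finset.sum_congr rfl (g := fun _ => (l : ℂ) ^ n) (fun kl hkl => by
    rw [HasAntidiagonal.mem_antidiagonal] at hkl
    rw [← pow_add, hkl])]
  simp

/-- The kernel coefficients (functions `z/(1-lz) - η z (1+ζz)/((1-ζz)(1-lz)²)`). -/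
noncomputable def kf (l η : ℝ) (ζ : ℂ) (m : ℕ) : ℂ :=
  (l : ℂ) ^ m - (η : ℂ) * ∑ k ∈ range (m + 1), (((m - k : ℕ) : ℂ) + 1) * (l : ℂ) ^ (m - k) *
    (if k = 0 then 1 else 2 * ζ ^ k)

/-- The coefficient array used in the convexity bound. -/
noncomputable def kap (l η : ℝ) (m k : ℕ) : ℂ :=
  (if k = 0 then (l : ℂ) ^ m else 0) -
    (η : ℂ) * (if k ≤ m then (((m - k : ℕ) : ℂ) + 1) * (l : ℂ) ^ (m - k) else 0)

theorem kap_sum (l η : ℝ) {m N : ℕ} (hm : m < N) (x : ℕ → ℂ) (hx : x 0 = 1) :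
    ∑ k ∈ range N, kap l η m k * x k =
      (l : ℂ) ^ m - (η : ℂ) * ∑ k ∈ range (m + 1), (((m - k : ℕ) : ℂ) + 1) * (l : ℂ) ^ (m - k) *
        x k := by
  unfold kap
  simp only [sub_mul, Finset.sum_sub_distrib]
  congr 1
  · rw [Finset.sum_eq_single 0]
    · simp [hx]
    · intro b _ hb
      simp [hb]
    · intro h
      exact absurd (Finset.mem_range.mpr (by omega)) h
  · rw [Finset.mul_sum, ← Finset.sum_subset (s₁ := range (m + 1)) (s₂ := range N)]
    · refine Finset.sum_congr rfl (fun k hk => ?_)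
      rw [Finset.mem_range] at hk
      rw [if_pos (by omega)]
      ring
    · intro k hk
      rw [Finset.mem_range] at hk ⊢
      omega
    · intro k _ hk
      rw [Finset.mem_range, not_lt] at hk
      rw [if_neg (by omega)]
      ring

/-- The function of nonnegative real part attached to `f`. -/
noncomputable def Qf (l : ℝ) (f : ℂ → ℂ) (z : ℂ) : ℂ :=
  (1 - (l : ℂ) * z) - (1 - (l : ℂ) * z) ^ 2 * Cf l f z

theorem Qf_diff {l : ℝ} (h0 : 0 ≤ l) (h1 : l < 1) {f : ℂ → ℂ} (hf : InClass l f) :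
    DifferentiableOn ℂ (Qf l f) (ball 0 1) := by
  have h2 := Cf_diff h0 h1 hf
  unfold Qf
  fun_prop

theorem Qf_re {l : ℝ} (h0 : 0 ≤ l) (h1 : l < 1) {f : ℂ → ℂ} (hf : InClass l f) {z : ℂ}
    (hz : ‖z‖ < 1) : 0 ≤ (Qf l f z).re := by
  have h2 := re_quot_nonneg h0 h1 (gf_le h0 h1 hf hz) hz
  have h3 := gden_ne h0 h1 hf hz
  have e : Qf l f z = (1 - (l : ℂ) * z) * (1 - gf l f z) / (1 - (l : ℂ) * (z * gf l f z)) := by
    unfold Qf Cf
    rw [eq_div_iff h3, sub_mul, mul_assoc, div_mul_cancel₀ _ h3]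
    ring
  rw [e]
  exact h2

theorem cc_eq {l : ℝ} (h0 : 0 ≤ l) (h1 : l < 1) {f : ℂ → ℂ} (hf : InClass l f) (m : ℕ) :
    cc l f (m + 1) = (l : ℂ) ^ m - ∑ k ∈ range (m + 1), (((m - k : ℕ) : ℂ) + 1) *
      (l : ℂ) ^ (m - k) * coeff (Qf l f) k := by
  have hq := PS.of_diff (Qf_diff h0 h1 hf)
  have hgeo := PS.geom l h0 h1
  have h2 : PS (Cf l f) (fun n => (l : ℂ) ^ n - conv (coeff (Qf l f))
      (conv (fun n => (l : ℂ) ^ n) (fun n => (l : ℂ) ^ n)) n) := by
    refine (hgeo.sub (hq.mul (hgeo.mul hgeo))).congr (fun z hz => ?_)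
    have h3 : 1 - (l : ℂ) * z ≠ 0 := one_sub_ne h0 h1 hz
    simp only [Qf]
    field_simp
    ring
  have h4 := congrFun ((Cf_ps h0 h1 hf).unique h2) m
  rw [h4]
  congr 1
  unfold conv
  rw [Finset.Nat.sum_antidiagonal_eq_sum_range_succ (fun i j => coeff (Qf l f) i *
    ∑ kl ∈ antidiagonal j, (l : ℂ) ^ kl.1 * (l : ℂ) ^ kl.2) m]
  refine Finset.sum_congr rfl (fun k _ => ?_)
  have h5 := conv_geom l (m - k)
  unfold conv at h5
  rw [h5]
  ring

theorem Qf_coeff_zero {l : ℝ} (h0 : 0 ≤ l) (h1 : l < 1) {f : ℂ → ℂ} (hf : InClass l f) :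
    coeff (Qf l f) 0 = 1 - cc l f 1 := by
  have h := cc_eq h0 h1 hf 0
  simp at h
  rw [h]
  ring

theorem coeff_zero_of {Q : ℂ → ℂ} {q : ℕ → ℂ} (hQ : PS Q q)
    (hd : DifferentiableOn ℂ Q (ball 0 1)) (hre : ∀ z : ℂ, ‖z‖ < 1 → 0 ≤ (Q z).re) (hq0 : q 0 = 0)
    (k : ℕ) : q k = 0 := by
  by_cases hk : k = 0
  · rw [hk, hq0]
  have key : ∀ t : ℝ, 0 < t → t * ‖q k‖ ≤ 2 := by
    intro t ht
    have h1 : PS (fun z => 1 + (t : ℂ) * Q z)
        (fun n => (if n = 0 then (1 : ℂ) else 0) + (t : ℂ) * q n) := (PS.const 1).add (hQ.const_mul t)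
    have h2 := herglotz_bound h1 (by fun_prop) (fun z hz => by
      have := hre z hz
      simp only [Complex.add_re, Complex.one_re, Complex.mul_re, Complex.ofReal_re,
        Complex.ofReal_im, zero_mul, sub_zero]
      positivity) (by simp [hq0]) 1 (k + 1) (fun _ => 1) (fun _ => zero_le_one)
      (fun _ j => if j = k then 1 else 0) 2 (fun ζ hζ => by
        rw [Finset.sum_range_one, one_mul, Finset.sum_eq_single k]
        · simp [hk, hζ]
        · intro b _ hb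
          simp [hb]
        · intro h
          exact absurd (Finset.mem_range.mpr (by omega)) h)
    rw [Finset.sum_range_one, one_mul, Finset.sum_eq_single k] at h2
    · simp only [if_true, one_mul, if_neg hk, zero_add] at h2
      rwa [norm_mul, Complex.norm_real, Real.norm_eq_abs, abs_of_pos ht] at h2
    · intro b _ hb
      simp [hb]
    · intro h
      exact absurd (Finset.mem_range.mpr (by omega)) h
  by_contra hne
  have hpos : 0 < ‖q k‖ := norm_pos_iff.mpr hne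
  have := key (3 / ‖q k‖) (by positivity)
  rw [div_mul_cancel₀ _ hpos.ne'] at this
  norm_num at this

/-- Region where the first coefficient is close to extremal. -/
theorem region_ii {l r η₁ : ℝ} (h0 : 0 ≤ l) (h1 : l < 1) (hr : r = 1 / (1 + 2 * l)) (hη₁ : 0 < η₁)
    (hK : ∀ ζ : ℂ, ‖ζ‖ = 1 → ∀ N, ∑ m ∈ range N, r ^ (m + 1) * ‖kf l η₁ ζ m‖ ≤ 1 / (1 + l))
    {f : ℂ → ℂ} (hf : InClass l f) {η : ℝ} (hη0 : 0 ≤ η) (hη : η ≤ η₁)
    (hc : cc l f 1 = ((1 - η : ℝ) : ℂ)) (N : ℕ) :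
    ∑ n ∈ range N, ‖coeff f (n + 1)‖ * r ^ (n + 1) ≤ 1 - l := by
  have hr0 : 0 < r := by rw [hr]; positivity
  have hq0 : coeff (Qf l f) 0 = (η : ℂ) := by
    rw [Qf_coeff_zero h0 h1 hf, hc]; push_cast; ring
  have hq := PS.of_diff (Qf_diff h0 h1 hf)
  -- the geometric part
  have hgeo : ∑ m ∈ range N, r ^ (m + 1) * l ^ m ≤ 1 / (1 + l) := by
    have h2 : ∀ m, r ^ (m + 1) * l ^ m = r * (l * r) ^ m := by
      intro m; rw [mul_pow]; ring
    simp only [h2]
    rw [← Finset.mul_sum]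
    have hlr : l * r < 1 := by
      rw [hr, mul_one_div, div_lt_one (by positivity)]; linarith
    have hlr0 : 0 ≤ l * r := by positivity
    have h3 : ∑ i ∈ range N, (l * r) ^ i ≤ (1 - l * r)⁻¹ := by
      rw [← tsum_geometric_of_lt_one hlr0 hlr]
      exact (summable_geometric_of_lt_one hlr0 hlr).sum_le_tsum _ (fun _ _ => by positivity)
    refine (mul_le_mul_of_nonneg_left h3 hr0.le).trans (le_of_eq ?_)
    have h4 : 1 - l * r = (1 + l) * r := by
      rw [hr]; field_simp; ring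
    rw [h4]
    field_simp
  have hmain : ∑ m ∈ range N, r ^ (m + 1) * ‖cc l f (m + 1)‖ ≤ 1 / (1 + l) := by
    rcases eq_or_lt_of_le hη0 with hz | hpos
    · have hall : ∀ k, coeff (Qf l f) k = 0 := coeff_zero_of hq (Qf_diff h0 h1 hf)
        (fun z hz => Qf_re h0 h1 hf hz) (by rw [hq0, ← hz]; simp)
      refine le_trans (le_of_eq ?_) hgeo
      refine Finset.sum_congr rfl (fun m _ => ?_)
      rw [cc_eq h0 h1 hf]
      simp [hall, abs_of_nonneg h0]
    · have hP := hq.const_mul ((η : ℂ)⁻¹)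
      have hηC : (η : ℂ) ≠ 0 := by exact_mod_cast hpos.ne'
      have hp0 : (η : ℂ)⁻¹ * coeff (Qf l f) 0 = 1 := by
        rw [hq0]; exact inv_mul_cancel₀ hηC
      have hQd := Qf_diff h0 h1 hf
      have hb := herglotz_bound hP (by fun_prop) (fun z hz => by
        have h2 := Qf_re h0 h1 hf hz
        have e : (η : ℂ)⁻¹ = ((η⁻¹ : ℝ) : ℂ) := by push_cast; ring
        rw [e, Complex.re_ofReal_mul]
        positivity) hp0 N N (fun m => r ^ (m + 1)) (fun m => by positivity) (kap l η₁)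
        (1 / (1 + l)) (fun ζ hζ => by
          refine le_trans (le_of_eq ?_) (hK ζ hζ N)
          refine Finset.sum_congr rfl (fun m hm => ?_)
          rw [Finset.mem_range] at hm
          rw [kap_sum l η₁ hm (fun k => if k = 0 then (1 : ℂ) else 2 * ζ ^ k) (by simp)]
          rfl)
      set s : ℝ := η / η₁ with hs
      have hs0 : 0 ≤ s := by positivity
      have hs1 : s ≤ 1 := by rw [hs, div_le_one hη₁]; exact hη
      have hterm : ∀ m ∈ range N, r ^ (m + 1) * ‖cc l f (m + 1)‖ ≤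
          (1 - s) * (r ^ (m + 1) * l ^ m) + s * (r ^ (m + 1) *
          ‖∑ k ∈ range N, kap l η₁ m k * ((η : ℂ)⁻¹ * coeff (Qf l f) k)‖) := by
        intro m hm
        rw [Finset.mem_range] at hm
        rw [kap_sum l η₁ hm (fun k => (η : ℂ)⁻¹ * coeff (Qf l f) k) hp0, cc_eq h0 h1 hf]
        have e1 : (l : ℂ) ^ m - ∑ k ∈ range (m + 1), (((m - k : ℕ) : ℂ) + 1) *
            (l : ℂ) ^ (m - k) * coeff (Qf l f) k =
            ((1 - s : ℝ) : ℂ) * (l : ℂ) ^ m + ((s : ℝ) : ℂ) * ((l : ℂ) ^ m - (η₁ : ℂ) *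
              ∑ k ∈ range (m + 1), (((m - k : ℕ) : ℂ) + 1) *
            (l : ℂ) ^ (m - k) * ((η : ℂ)⁻¹ * coeff (Qf l f) k)) := by
          have h5 : ∑ k ∈ range (m + 1), (((m - k : ℕ) : ℂ) + 1) *
            (l : ℂ) ^ (m - k) * ((η : ℂ)⁻¹ * coeff (Qf l f) k) = (η : ℂ)⁻¹ *
            ∑ k ∈ range (m + 1), (((m - k : ℕ) : ℂ) + 1) * (l : ℂ) ^ (m - k) *
              coeff (Qf l f) k := by
            rw [Finset.mul_sum]
            refine Finset.sum_congr rfl (fun k _ => ?_)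
            ring
          rw [h5, hs]
          have h6 : (η₁ : ℂ) ≠ 0 := by exact_mod_cast hη₁.ne'
          push_cast
          field_simp
          ring
        rw [e1]
        have h7 : ‖((1 - s : ℝ) : ℂ) * (l : ℂ) ^ m‖ = (1 - s) * l ^ m := by
          rw [norm_mul, Complex.norm_real, Real.norm_eq_abs, abs_of_nonneg (by linarith), norm_pow,
            Complex.norm_real, Real.norm_eq_abs, abs_of_nonneg h0]
        have h8 := norm_add_le (((1 - s : ℝ) : ℂ) * (l : ℂ) ^ m) (((s : ℝ) : ℂ) *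
          ((l : ℂ) ^ m - (η₁ : ℂ) * ∑ k ∈ range (m + 1), (((m - k : ℕ) : ℂ) + 1) *
            (l : ℂ) ^ (m - k) * ((η : ℂ)⁻¹ * coeff (Qf l f) k)))
        rw [h7, norm_mul, Complex.norm_real, Real.norm_eq_abs, abs_of_nonneg hs0] at h8
        have h9 := mul_le_mul_of_nonneg_left h8 (pow_nonneg hr0.le (m + 1))
        linarith
      refine (Finset.sum_le_sum hterm).trans ?_
      rw [Finset.sum_add_distrib, ← Finset.mul_sum, ← Finset.mul_sum]
      have h10 := mul_le_mul_of_nonneg_left hgeo (sub_nonneg.mpr hs1)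
      have h11 := mul_le_mul_of_nonneg_left hb hs0
      linarith
  have e : ∑ n ∈ range N, ‖coeff f (n + 1)‖ * r ^ (n + 1) =
      (1 - l ^ 2) * ∑ m ∈ range N, r ^ (m + 1) * ‖cc l f (m + 1)‖ := by
    rw [Finset.mul_sum]
    refine Finset.sum_congr rfl (fun m _ => ?_)
    rw [norm_cc h0 h1]
    have : (1 : ℝ) - l ^ 2 ≠ 0 := by nlinarith
    field_simp
  rw [e]
  have h12 : 0 < 1 - l ^ 2 := by nlinarith
  have h13 := mul_le_mul_of_nonneg_left hmain h12.le
  refine h13.trans (le_of_eq ?_)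
  have : (1 : ℝ) + l ≠ 0 := by positivity
  field_simp
  ring

/-- Region where the first coefficient is bounded away from extremal. -/
theorem region_i {l r β₁ κ : ℝ} (h0 : 0 ≤ l) (h1 : l < 1) (hr0 : 0 < r) (hr1 : r < 1) (hκ : 0 < κ)
    (hnum : ∀ x y : ℝ, 0 ≤ x → x ≤ (1 - l ^ 2) * β₁ → 0 ≤ y → y ≤ 1 - l ^ 2 - x ^ 2 / (1 + l) →
      x * r + y * r ^ 2 + κ / 2 * (1 - l ^ 2 - x ^ 2 - y ^ 2) + r ^ 6 / (1 - r ^ 2) / (2 * κ) ≤ 1 - l)
    {f : ℂ → ℂ} (hf : InClass l f) (hc : ‖cc l f 1‖ ≤ β₁) (N : ℕ) :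
    ∑ n ∈ range N, ‖coeff f (n + 1)‖ * r ^ (n + 1) ≤ 1 - l := by
  have hA : 0 < 1 - l ^ 2 := by nlinarith
  have hx : ‖coeff f 1‖ = (1 - l ^ 2) * ‖cc l f 1‖ := by
    have := norm_cc h0 h1 (f := f) (n := 0)
    rw [this]; field_simp
  have hy : ‖coeff f 2‖ = (1 - l ^ 2) * ‖cc l f 2‖ := by
    have := norm_cc h0 h1 (f := f) (n := 1)
    rw [this]; field_simp
  obtain ⟨hc2, _⟩ := norm_c1 h0 h1 hf
  have hy2 : ‖coeff f 2‖ ≤ 1 - l ^ 2 - ‖coeff f 1‖ ^ 2 / (1 + l) := by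
    rw [hx, hy]
    have h2 := mul_le_mul_of_nonneg_left hc2 hA.le
    refine h2.trans (le_of_eq ?_)
    have : (1 : ℝ) + l ≠ 0 := by positivity
    field_simp
    ring
  have hnum' := hnum ‖coeff f 1‖ ‖coeff f 2‖ (norm_nonneg _)
    (by rw [hx]; exact mul_le_mul_of_nonneg_left hc hA.le) (norm_nonneg _) hy2
  -- it suffices to treat N + 2
  have hext : ∑ n ∈ range N, ‖coeff f (n + 1)‖ * r ^ (n + 1) ≤
      ∑ n ∈ range (N + 2), ‖coeff f (n + 1)‖ * r ^ (n + 1) := by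
    refine Finset.sum_le_sum_of_subset_of_nonneg ?_ (fun _ _ _ => by positivity)
    intro k hk
    rw [Finset.mem_range] at hk ⊢
    omega
  refine hext.trans (le_trans ?_ hnum')
  rw [Finset.sum_range_succ', Finset.sum_range_succ']
  have hP := hf.ps.sum_sq_le_one hf.1 (fun z hz => (hf.2.1 z (by simpa using hz)).le) (N + 3)
  rw [Finset.sum_range_succ', Finset.sum_range_succ', Finset.sum_range_succ', coeff_zero_eq hf] at hP
  simp only [Complex.norm_real, Real.norm_eq_abs, sq_abs, zero_add] at hP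
  have hterm : ∀ n ∈ range N, ‖coeff f (n + 1 + 1 + 1)‖ * r ^ (n + 1 + 1 + 1) ≤
      κ / 2 * ‖coeff f (n + 1 + 1 + 1)‖ ^ 2 + r ^ 6 * (r ^ 2) ^ n / (2 * κ) := by
    intro n _
    have h3 : r ^ 6 * (r ^ 2) ^ n = (r ^ (n + 1 + 1 + 1)) ^ 2 := by
      rw [← pow_mul, ← pow_mul, ← pow_add]; congr 1; ring
    rw [h3]
    set X := ‖coeff f (n + 1 + 1 + 1)‖
    set R := r ^ (n + 1 + 1 + 1)
    have h4 : κ / 2 * X ^ 2 + R ^ 2 / (2 * κ) - X * R = (κ * X - R) ^ 2 / (2 * κ) := by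
      field_simp; ring
    have h5 : 0 ≤ (κ * X - R) ^ 2 / (2 * κ) := by positivity
    linarith
  have hsum := Finset.sum_le_sum hterm
  rw [Finset.sum_add_distrib, ← Finset.mul_sum] at hsum
  have hgeo : ∑ n ∈ range N, r ^ 6 * (r ^ 2) ^ n / (2 * κ) ≤ r ^ 6 / (1 - r ^ 2) / (2 * κ) := by
    have hr2 : r ^ 2 < 1 := by nlinarith
    have h3 : ∑ i ∈ range N, (r ^ 2) ^ i ≤ (1 - r ^ 2)⁻¹ := by
      rw [← tsum_geometric_of_lt_one (by positivity) hr2]
      exact (summable_geometric_of_lt_one (by positivity) hr2).sum_le_tsum _ (fun _ _ => by positivity)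
    rw [← Finset.sum_div, ← Finset.mul_sum, div_eq_mul_inv (r ^ 6) (1 - r ^ 2)]
    gcongr
  simp only [zero_add, pow_one] at *
  nlinarith [mul_le_mul_of_nonneg_left hP (by positivity : (0:ℝ) ≤ κ / 2)]

end Pool.Agent.Helper610.Bohr
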