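import Pool.Agent.Helper610.Bohr.Cls

open Metric Complex Finset

namespace Pool.Agent.Helper610.Bohr

/-! ### The extremal function and the upper bound -/

theorem PS.geom (l : ℝ) (h0 : 0 ≤ l) (h1 : l < 1) : PS (fun z => (1 - (l : ℂ) * z)⁻¹)
    (fun n => (l : ℂ) ^ n) := by
  intro z hz
  have h2 : ‖(l : ℂ) * z‖ < 1 := by
    rw [norm_mul, Complex.norm_real, Real.norm_eq_abs, abs_of_nonneg h0]
    have := norm_nonneg z
    nlinarith
  refine (hasSum_geometric_of_norm_lt_one h2).congr_fun (fun n => ?_)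
  rw [mul_pow]

theorem ext_inClass {l : ℝ} (h0 : 0 ≤ l) (h1 : l < 1) :
    InClass l (fun z => ((l : ℂ) - z) / (1 - (l : ℂ) * z)) := by
  refine ⟨?_, ?_, ?_⟩
  · refine DifferentiableOn.div (by fun_prop) (by fun_prop) (fun z hz => ?_)
    exact one_sub_ne h0 h1 (by simpa using hz)
  · intro z hz
    exact moebius_lt h0 h1 (by simpa using hz)
  · simp

theorem ext_coeff {l : ℝ} (h0 : 0 ≤ l) (h1 : l < 1) (n : ℕ) :
    coeff (fun z => ((l : ℂ) - z) / (1 - (l : ℂ) * z)) (n + 1) = - (1 - (l : ℂ) ^ 2) * (l : ℂ) ^ n := by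
  have h := PS.geom l h0 h1
  have h2 : PS (fun z => (l : ℂ) * (1 - (l : ℂ) * z)⁻¹ - z * (1 - (l : ℂ) * z)⁻¹)
      (fun n => (l : ℂ) * (l : ℂ) ^ n - shiftSeq (fun n => (l : ℂ) ^ n) n) :=
    (h.const_mul l).sub h.shift
  have h3 : PS (fun z => ((l : ℂ) - z) / (1 - (l : ℂ) * z))
      (fun n => (l : ℂ) * (l : ℂ) ^ n - shiftSeq (fun n => (l : ℂ) ^ n) n) := by
    refine h2.congr (fun z _ => ?_)
    rw [div_eq_mul_inv]; ring
  have h4 := congrFun ((ext_inClass h0 h1).ps.unique h3) (n + 1)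
  rw [h4]
  simp only [shiftSeq]
  ring

theorem B_le {l : ℝ} (h0 : 0 < l) (h1 : l < 1) : B l ≤ 1 / (1 + 2 * l) := by
  by_contra hcon
  push Not at hcon
  obtain ⟨r, hr1, hr2⟩ := exists_between hcon
  have hr0 : 0 < r := lt_trans (by positivity) hr1
  have hrlt : r < 1 := by
    refine hr2.trans_le (csSup_le ⟨0, zero_mem h1.le⟩ (fun x hx => hx.2.1.le))
  have hg := good_of_lt h1.le hr0.le hr2
  have h2 := (good_iff hr0.le hrlt).mpr hg _ (ext_inClass h0.le h1)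
  unfold majorant at h2
  have e : (fun n : ℕ => ‖coeff (fun z => ((l : ℂ) - z) / (1 - (l : ℂ) * z)) (n + 1)‖ * r ^ (n + 1)) =
      (fun n : ℕ => (1 - l ^ 2) * r * (l * r) ^ n) := by
    funext n
    rw [ext_coeff h0.le h1, norm_mul, norm_neg, norm_pow, Complex.norm_real, Real.norm_eq_abs,
      abs_of_pos h0]
    have h3 : ‖(1 : ℂ) - (l : ℂ) ^ 2‖ = 1 - l ^ 2 := by
      have : (1 : ℂ) - (l : ℂ) ^ 2 = ((1 - l ^ 2 : ℝ) : ℂ) := by push_cast; ring
      rw [this, Complex.norm_real, Real.norm_eq_abs, abs_of_pos]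
      nlinarith
    rw [h3, pow_succ, mul_pow]
    ring
  have hlr : l * r < 1 := by nlinarith
  have hlr0 : 0 ≤ l * r := by positivity
  rw [e, tsum_mul_left, tsum_geometric_of_lt_one hlr0 hlr] at h2
  have h5 : (1 - l ^ 2) * r * (1 - l * r)⁻¹ ≤ 1 - l := by linarith
  rw [← div_eq_mul_inv, div_le_iff₀ (by linarith)] at h5
  rw [div_lt_iff₀ (by linarith)] at hr1
  nlinarith

/-! ### Rotations -/

theorem rot_ps {f : ℂ → ℂ} {a : ℕ → ℂ} (hf : PS f a) {u : ℂ} (hu : ‖u‖ = 1) :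
    PS (fun z => f (u * z)) (fun n => a n * u ^ n) := by
  intro z hz
  have h2 : ‖u * z‖ < 1 := by rwa [norm_mul, hu, one_mul]
  refine (hf _ h2).congr_fun (fun n => ?_)
  rw [mul_pow]
  ring

theorem rot_inClass {l : ℝ} {f : ℂ → ℂ} (hf : InClass l f) {u : ℂ} (hu : ‖u‖ = 1) :
    InClass l (fun z => f (u * z)) := by
  have hball : ∀ z : ℂ, z ∈ ball (0 : ℂ) 1 → u * z ∈ ball (0 : ℂ) 1 := by
    intro z hz
    rw [mem_ball_zero_iff] at hz ⊢
    rwa [norm_mul, hu, one_mul]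
  refine ⟨?_, fun z hz => hf.2.1 _ (hball z hz), by simpa using hf.2.2⟩
  exact DifferentiableOn.comp (t := ball 0 1) hf.1 (by fun_prop) hball

theorem rot_coeff {l : ℝ} {f : ℂ → ℂ} (hf : InClass l f) {u : ℂ} (hu : ‖u‖ = 1) (n : ℕ) :
    coeff (fun z => f (u * z)) n = coeff f n * u ^ n :=
  congrFun ((rot_inClass hf hu).ps.unique (rot_ps hf.ps hu)) n

/-- Reduction to functions whose first coefficient of `c` is a nonnegative real. -/
theorem good_of_real {l r : ℝ} (h : ∀ f, InClass l f → (∃ β : ℝ, 0 ≤ β ∧ cc l f 1 = (β : ℂ)) →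
    ∀ N, ∑ n ∈ range N, ‖coeff f (n + 1)‖ * r ^ (n + 1) ≤ 1 - l) : Good l r := by
  intro f hf N
  obtain ⟨u, hu, hu2⟩ : ∃ u : ℂ, ‖u‖ = 1 ∧ cc l f 1 * u = (‖cc l f 1‖ : ℂ) := by
    by_cases h0 : cc l f 1 = 0
    · exact ⟨1, by simp, by simp [h0]⟩
    · have hn : (‖cc l f 1‖ : ℂ) ≠ 0 := by
        exact_mod_cast (norm_ne_zero_iff.mpr h0)
      refine ⟨(starRingEnd ℂ) (cc l f 1) / (‖cc l f 1‖ : ℂ), ?_, ?_⟩
      · rw [norm_div, RCLike.norm_conj, Complex.norm_real, norm_norm, div_self]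
        exact norm_ne_zero_iff.mpr h0
      · rw [← mul_div_assoc, Complex.mul_conj, Complex.normSq_eq_norm_sq]
        field_simp
        push_cast
        ring
  have hf' := rot_inClass hf hu
  have h2 := h _ hf' ⟨‖cc l f 1‖, norm_nonneg _, by
    rw [← hu2]
    simp only [cc, if_neg one_ne_zero]
    rw [rot_coeff hf hu]
    ring⟩ N
  refine le_trans (le_of_eq ?_) h2
  refine Finset.sum_congr rfl (fun n _ => ?_)
  rw [rot_coeff hf hu, norm_mul, norm_pow, hu, one_pow, mul_one]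

/-! ### The functions `g` and `C` -/

/-- `g = ω/z`. -/
noncomputable def gf (l : ℝ) (f : ℂ → ℂ) : ℂ → ℂ := dslope (om l f) 0

theorem gf_diff {l : ℝ} (h0 : 0 ≤ l) (h1 : l < 1) {f : ℂ → ℂ} (hf : InClass l f) :
    DifferentiableOn ℂ (gf l f) (ball 0 1) :=
  (differentiableOn_dslope (ball_mem_nhds 0 one_pos)).mpr (om_diff h0 h1 hf)

theorem gf_le {l : ℝ} (h0 : 0 ≤ l) (h1 : l < 1) {f : ℂ → ℂ} (hf : InClass l f) {z : ℂ}
    (hz : ‖z‖ < 1) : ‖gf l f z‖ ≤ 1 := by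
  have h := norm_dslope_le_div_of_mapsTo_ball (f := om l f) (c := 0) (R₁ := 1) (R₂ := 1) (z := z)
    (om_diff h0 h1 hf) (fun w hw => by
      rw [om_zero hf, mem_closedBall_zero_iff]
      exact (om_lt h0 h1 hf (by simpa using hw)).le) (by simpa using hz)
  simpa [gf] using h

theorem mul_gf {l : ℝ} {f : ℂ → ℂ} (hf : InClass l f) (z : ℂ) : z * gf l f z = om l f z := by
  have h := sub_smul_dslope (om l f) 0 z
  rw [om_zero hf] at h
  simpa [gf] using h

theorem gden_ne {l : ℝ} (h0 : 0 ≤ l) (h1 : l < 1) {f : ℂ → ℂ} (hf : InClass l f) {z : ℂ}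
    (hz : ‖z‖ < 1) : 1 - (l : ℂ) * (z * gf l f z) ≠ 0 := by
  rw [mul_gf hf]
  exact one_sub_ne h0 h1 (om_lt h0 h1 hf hz)

/-- `C = c/z`. -/
noncomputable def Cf (l : ℝ) (f : ℂ → ℂ) (z : ℂ) : ℂ := gf l f z / (1 - (l : ℂ) * (z * gf l f z))

theorem Cf_diff {l : ℝ} (h0 : 0 ≤ l) (h1 : l < 1) {f : ℂ → ℂ} (hf : InClass l f) :
    DifferentiableOn ℂ (Cf l f) (ball 0 1) := by
  have h2 := gf_diff h0 h1 hf
  unfold Cf
  refine DifferentiableOn.div h2 (by fun_prop) (fun z hz => ?_)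
  exact gden_ne h0 h1 hf (by simpa using hz)

theorem Cf_ps {l : ℝ} (h0 : 0 ≤ l) (h1 : l < 1) {f : ℂ → ℂ} (hf : InClass l f) :
    PS (Cf l f) (fun n => cc l f (n + 1)) := by
  have h2 := PS.of_diff (Cf_diff h0 h1 hf)
  have h3 : PS (fun z => z * Cf l f z) (cc l f) := by
    refine (cf_ps hf).congr (fun z hz => ?_)
    rw [cf_eq h0 h1 hf hz, Cf, ← mul_div_assoc, mul_gf hf]
  have h4 := h2.shift.unique h3
  have h5 : (fun n => cc l f (n + 1)) = coeff (Cf l f) := by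
    funext n
    rw [← h4]
    rfl
  rw [h5]
  exact h2

theorem alg3 {l z g D : ℂ} (hD : D ≠ 0) (h : D = 1 - l * (z * g)) :
    g / D = g + l * (z * (g * (g / D))) := by
  have h2 : g = (g + l * (z * (g * (g / D)))) * D := by
    have : (g + l * (z * (g * (g / D)))) * D = g * (D + l * (z * g)) := by
      field_simp
    rw [this, h]
    ring
  exact (div_eq_iff hD).mpr h2

theorem norm_c1 {l : ℝ} (h0 : 0 ≤ l) (h1 : l < 1) {f : ℂ → ℂ} (hf : InClass l f) :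
    ‖cc l f 2‖ ≤ 1 - (1 - l) * ‖cc l f 1‖ ^ 2 ∧ ‖cc l f 1‖ ≤ 1 := by
  have hg := PS.of_diff (gf_diff h0 h1 hf)
  set b := coeff (gf l f) with hb
  have hC := Cf_ps h0 h1 hf
  -- C = g + l z g C
  have h2 : PS (Cf l f) (fun n => b n + (l : ℂ) * shiftSeq (conv b (fun n => cc l f (n + 1))) n) := by
    refine (hg.add (((hg.mul hC).shift).const_mul (l : ℂ))).congr (fun z hz => ?_)
    have h3 := gden_ne h0 h1 hf hz
    exact alg3 h3 rfl
  have h4 := hC.unique h2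
  have e0 := congrFun h4 0
  have e1 := congrFun h4 1
  simp only [shiftSeq, mul_zero, add_zero, zero_add] at e0 e1
  have e2 : conv b (fun n => cc l f (n + 1)) 0 = b 0 * cc l f 1 := by
    simp [conv]
  rw [e2, e0] at e1
  have hn := hg.norm_one_le (gf_diff h0 h1 hf) (fun z hz => gf_le h0 h1 hf hz)
  have hz0 : ‖b 0‖ ≤ 1 := by
    have h5 := hg.sum_sq_le_one (gf_diff h0 h1 hf) (fun z hz => gf_le h0 h1 hf hz) 1
    simp only [Finset.sum_range_one] at h5
    have := norm_nonneg (b 0)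
    nlinarith
  constructor
  · rw [e1, e0]
    refine (norm_add_le _ _).trans ?_
    rw [norm_mul, norm_mul, Complex.norm_real, Real.norm_eq_abs, abs_of_nonneg h0]
    nlinarith
  · rw [e0]; exact hz0

end Pool.Agent.Helper610.Bohr
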