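import Pool.Agent.Helper610.Bohr.Red

open Metric Complex Finset

namespace Pool.Agent.Helper610.Bohr

/-- Coefficients of `1/((1-ζz)(1-lz)²)`. -/
noncomputable def Sm (l : ℝ) (ζ : ℂ) (m : ℕ) : ℂ :=
  ∑ k ∈ range (m + 1), (((m - k : ℕ) : ℂ) + 1) * (l : ℂ) ^ (m - k) * ζ ^ k

theorem Sm_succ (l : ℝ) (ζ : ℂ) (m : ℕ) :
    Sm l ζ (m + 1) = ζ * Sm l ζ m + ((m : ℂ) + 2) * (l : ℂ) ^ (m + 1) := by
  unfold Sm
  rw [Finset.sum_range_succ', Finset.mul_sum]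
  congr 1
  · refine Finset.sum_congr rfl (fun k _ => ?_)
    rw [Nat.add_sub_add_right, pow_succ]
    ring
  · rw [Nat.sub_zero, pow_zero, mul_one]
    push_cast
    ring

theorem Sm_mul (l : ℝ) (ζ : ℂ) (m : ℕ) :
    Sm l ζ m * (ζ - (l : ℂ)) ^ 2 = ζ ^ (m + 2) - ((m : ℂ) + 2) * (l : ℂ) ^ (m + 1) * ζ +
      ((m : ℂ) + 1) * (l : ℂ) ^ (m + 2) := by
  induction m with
  | zero => simp [Sm]; ring
  | succ m ih =>
    rw [Sm_succ, add_mul, mul_assoc, ih]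
    push_cast
    ring

theorem kf_eq (l η : ℝ) (ζ : ℂ) (m : ℕ) :
    kf l η ζ m = (l : ℂ) ^ m - (η : ℂ) * (2 * Sm l ζ m - ((m : ℂ) + 1) * (l : ℂ) ^ m) := by
  unfold kf Sm
  congr 2
  rw [Finset.sum_range_succ', Finset.sum_range_succ', mul_add, Finset.mul_sum]
  simp only [Nat.succ_ne_zero, if_false, if_true, Nat.sub_zero, pow_zero, mul_one]
  have : ∑ k ∈ range m, (((m - (k + 1) : ℕ) : ℂ) + 1) * (l : ℂ) ^ (m - (k + 1)) * (2 * ζ ^ (k + 1)) =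
      ∑ i ∈ range m, 2 * ((((m - (i + 1) : ℕ) : ℂ) + 1) * (l : ℂ) ^ (m - (i + 1)) * ζ ^ (i + 1)) :=
    Finset.sum_congr rfl (fun k _ => by ring)
  rw [this]
  ring

theorem norm_sub_sq (l : ℝ) {ζ : ℂ} (hζ : ‖ζ‖ = 1) :
    ‖ζ - (l : ℂ)‖ ^ 2 = 1 + l ^ 2 - 2 * l * ζ.re := by
  have h2 : ζ.re ^ 2 + ζ.im ^ 2 = 1 := by
    have : Complex.normSq ζ = 1 := by rw [Complex.normSq_eq_norm_sq, hζ]; norm_num
    rw [Complex.normSq_apply] at this
    nlinarith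
  rw [← Complex.normSq_eq_norm_sq, Complex.normSq_apply]
  simp only [Complex.sub_re, Complex.sub_im, Complex.ofReal_re, Complex.ofReal_im]
  nlinarith

theorem Sm_norm {l : ℝ} (h0 : 0 ≤ l) (h1 : l < 1) {ζ : ℂ} (hζ : ‖ζ‖ = 1) (m : ℕ) :
    ‖Sm l ζ m‖ ≤ (1 + ((m : ℝ) + 2) * l ^ (m + 1) + ((m : ℝ) + 1) * l ^ (m + 2)) /
      (1 + l ^ 2 - 2 * l * ζ.re) := by
  have hD : 0 < 1 + l ^ 2 - 2 * l * ζ.re := by
    have h2 : ζ.re ≤ 1 := by
      have := Complex.re_le_norm ζ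
      rwa [hζ] at this
    nlinarith
  rw [le_div_iff₀ hD, ← norm_sub_sq l hζ, ← norm_pow, ← norm_mul, Sm_mul]
  refine (norm_add_le _ _).trans ?_
  have e1 : ‖((m : ℂ) + 1) * (l : ℂ) ^ (m + 2)‖ = ((m : ℝ) + 1) * l ^ (m + 2) := by
    rw [norm_mul, norm_pow, Complex.norm_real, Real.norm_eq_abs, abs_of_nonneg h0]
    congr 1
    have : (m : ℂ) + 1 = ((m + 1 : ℕ) : ℂ) := by push_cast; ring
    rw [this, Complex.norm_natCast]
    push_cast; ring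
  have e2 : ‖((m : ℂ) + 2) * (l : ℂ) ^ (m + 1) * ζ‖ = ((m : ℝ) + 2) * l ^ (m + 1) := by
    rw [norm_mul, norm_mul, norm_pow, Complex.norm_real, Real.norm_eq_abs, abs_of_nonneg h0, hζ,
      mul_one]
    congr 1
    have : (m : ℂ) + 2 = ((m + 2 : ℕ) : ℂ) := by push_cast; ring
    rw [this, Complex.norm_natCast]
    push_cast; ring
  have e3 : ‖ζ ^ (m + 2)‖ = 1 := by rw [norm_pow, hζ, one_pow]
  have h3 := norm_sub_le (ζ ^ (m + 2)) (((m : ℂ) + 2) * (l : ℂ) ^ (m + 1) * ζ)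
  rw [e1]
  rw [e2, e3] at h3
  linarith

theorem pow_mul_dec {l : ℝ} (h0 : 0 ≤ l) (h1 : l ≤ 1 / 2) (M : ℕ) (j : ℕ) :
    ((M + j : ℕ) + 2 : ℝ) * l ^ (M + j + 1) ≤ ((M : ℝ) + 2) * l ^ (M + 1) := by
  induction j with
  | zero => simp
  | succ j ih =>
    refine le_trans ?_ ih
    have e : l ^ (M + (j + 1) + 1) = l ^ (M + j + 1) * l := by ring
    rw [e]
    have h2 : 0 ≤ l ^ (M + j + 1) := by positivity
    push_cast
    have h3 : ((M : ℝ) + (j + 1) + 2) * l ≤ (M : ℝ) + j + 2 := by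
      have : (0 : ℝ) ≤ M := Nat.cast_nonneg M
      have : (0 : ℝ) ≤ j := Nat.cast_nonneg j
      nlinarith
    nlinarith

theorem pow_mul_dec' {l : ℝ} (h0 : 0 ≤ l) (h1 : l ≤ 1 / 2) (M : ℕ) (j : ℕ) :
    ((M + j : ℕ) + 1 : ℝ) * l ^ (M + j + 2) ≤ ((M : ℝ) + 1) * l ^ (M + 2) := by
  induction j with
  | zero => simp
  | succ j ih =>
    refine le_trans ?_ ih
    have e : l ^ (M + (j + 1) + 2) = l ^ (M + j + 2) * l := by ring
    rw [e]
    have h2 : 0 ≤ l ^ (M + j + 2) := by positivity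
    push_cast
    have h3 : ((M : ℝ) + (j + 1) + 1) * l ≤ (M : ℝ) + j + 1 := by
      have : (0 : ℝ) ≤ M := Nat.cast_nonneg M
      have : (0 : ℝ) ≤ j := Nat.cast_nonneg j
      nlinarith
    nlinarith

theorem head_dec {l η : ℝ} (h0 : 0 ≤ l) (h1 : l * (2 + 2 * η / (1 + η * 2)) ≤ 1) (hη : 0 ≤ η)
    (M : ℕ) (hM : 1 ≤ M) (j : ℕ) :
    l ^ (M + j) * (1 + η * (((M + j : ℕ) : ℝ) + 1)) ≤
      l ^ M * (1 + η * ((M : ℝ) + 1)) * (1 / 2) ^ j := by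
  induction j with
  | zero => simp
  | succ j ih =>
    have e : l ^ (M + (j + 1)) = l ^ (M + j) * l := by ring
    rw [e]
    have h2 : 0 ≤ l ^ (M + j) := by positivity
    push_cast at ih ⊢
    have hMr : (1 : ℝ) ≤ M := by exact_mod_cast hM
    have hj : (0 : ℝ) ≤ j := Nat.cast_nonneg j
    set x : ℝ := (M : ℝ) + j + 1 with hx
    have hx2 : 2 ≤ x := by rw [hx]; linarith
    have h3 : l * (1 + η * (x + 1)) ≤ (1 / 2) * (1 + η * x) := by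
      have hd : 0 < 1 + η * 2 := by positivity
      have h4 : l * (2 * (1 + η * 2) + 2 * η) ≤ 1 + η * 2 := by
        have h5 := mul_le_mul_of_nonneg_right h1 hd.le
        have h6 : l * (2 + 2 * η / (1 + η * 2)) * (1 + η * 2) = l * (2 * (1 + η * 2) + 2 * η) := by
          field_simp
        linarith
      have h7 : l ≤ 1 / 2 := by
        by_contra hcon
        push Not at hcon
        nlinarith
      nlinarith [mul_nonneg hη (sub_nonneg.mpr hx2)]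
    have h8 : l ^ (M + j) * l * (1 + η * (x + 1)) ≤ l ^ (M + j) * ((1 / 2) * (1 + η * x)) := by
      rw [mul_assoc]
      exact mul_le_mul_of_nonneg_left h3 h2
    have e2 : (M : ℝ) + (j + 1) + 1 = x + 1 := by rw [hx]; ring
    rw [e2, pow_succ]
    nlinarith

/-- Bound for the tail of the kernel sum. -/
theorem tail_bound {l η r : ℝ} (h0 : 0 ≤ l) (h1 : l ≤ 1 / 2)
    (h1' : l * (2 + 2 * η / (1 + η * 2)) ≤ 1) (hη : 0 ≤ η) (hr0 : 0 < r) (hr1 : r < 1)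
    (M : ℕ) (hM : 1 ≤ M) {ζ : ℂ} (hζ : ‖ζ‖ = 1) (N : ℕ) :
    ∑ j ∈ range N, r ^ (M + j + 1) * ‖kf l η ζ (M + j)‖ ≤
      r ^ (M + 1) * (l ^ M * (1 + η * ((M : ℝ) + 1))) / (1 - r / 2) +
      2 * η * (1 + ((M : ℝ) + 2) * l ^ (M + 1) + ((M : ℝ) + 1) * l ^ (M + 2)) * r ^ (M + 1) /
        (1 - r) * (1 + l ^ 2 - 2 * l * ζ.re)⁻¹ := by
  have hD : 0 < 1 + l ^ 2 - 2 * l * ζ.re := by
    have h2 : ζ.re ≤ 1 := by
      have := Complex.re_le_norm ζ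
      rwa [hζ] at this
    nlinarith
  set D := 1 + l ^ 2 - 2 * l * ζ.re with hDdef
  set H := l ^ M * (1 + η * ((M : ℝ) + 1)) with hH
  set E := 1 + ((M : ℝ) + 2) * l ^ (M + 1) + ((M : ℝ) + 1) * l ^ (M + 2) with hE
  have hH0 : 0 ≤ H := by positivity
  have hE0 : 0 ≤ E := by positivity
  have hterm : ∀ j ∈ range N, r ^ (M + j + 1) * ‖kf l η ζ (M + j)‖ ≤
      r ^ (M + 1) * H * (r / 2) ^ j + 2 * η * E * r ^ (M + 1) * D⁻¹ * r ^ j := by
    intro j _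
    rw [kf_eq]
    have h2 : ‖(l : ℂ) ^ (M + j) - (η : ℂ) * (2 * Sm l ζ (M + j) -
        (((M + j : ℕ) : ℂ) + 1) * (l : ℂ) ^ (M + j))‖ ≤
        l ^ (M + j) * (1 + η * (((M + j : ℕ) : ℝ) + 1)) + 2 * η * ‖Sm l ζ (M + j)‖ := by
      have e : (l : ℂ) ^ (M + j) - (η : ℂ) * (2 * Sm l ζ (M + j) -
        (((M + j : ℕ) : ℂ) + 1) * (l : ℂ) ^ (M + j)) =
          ((l ^ (M + j) * (1 + η * (((M + j : ℕ) : ℝ) + 1)) : ℝ) : ℂ) -
            ((2 * η : ℝ) : ℂ) * Sm l ζ (M + j) := by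
        push_cast; ring
      rw [e]
      refine (norm_sub_le _ _).trans ?_
      rw [norm_mul, Complex.norm_real, Complex.norm_real, Real.norm_eq_abs, Real.norm_eq_abs,
        abs_of_nonneg (by positivity), abs_of_nonneg (by positivity)]
    have h3 := head_dec h0 h1' hη M hM j
    have h4 := Sm_norm h0 (by linarith) hζ (M + j)
    have h5 := pow_mul_dec h0 h1 M j
    have h6 := pow_mul_dec' h0 h1 M j
    have h7 : ‖Sm l ζ (M + j)‖ ≤ E * D⁻¹ := by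
      rw [← div_eq_mul_inv]
      refine h4.trans (div_le_div_of_nonneg_right ?_ hD.le)
      rw [hE]
      linarith
    have h8 : ‖(l : ℂ) ^ (M + j) - (η : ℂ) * (2 * Sm l ζ (M + j) -
        (((M + j : ℕ) : ℂ) + 1) * (l : ℂ) ^ (M + j))‖ ≤ H * (1 / 2) ^ j + 2 * η * (E * D⁻¹) := by
      have := mul_le_mul_of_nonneg_left h7 (by positivity : (0:ℝ) ≤ 2 * η)
      linarith
    have h9 := mul_le_mul_of_nonneg_left h8 (pow_nonneg hr0.le (M + j + 1))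
    refine h9.trans (le_of_eq ?_)
    have e3 : r ^ (M + j + 1) = r ^ (M + 1) * r ^ j := by rw [← pow_add]; congr 1; ring
    have e4 : (r / 2) ^ j = r ^ j * (1 / 2) ^ j := by rw [← mul_pow]; congr 1; ring
    rw [e3, e4]
    ring
  refine (Finset.sum_le_sum hterm).trans ?_
  rw [Finset.sum_add_distrib, ← Finset.mul_sum, ← Finset.mul_sum]
  have hg1 : ∑ i ∈ range N, (r / 2) ^ i ≤ (1 - r / 2)⁻¹ := by
    rw [← tsum_geometric_of_lt_one (by positivity) (by linarith)]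
    exact (summable_geometric_of_lt_one (by positivity) (by linarith)).sum_le_tsum _
      (fun _ _ => by positivity)
  have hg2 : ∑ i ∈ range N, r ^ i ≤ (1 - r)⁻¹ := by
    rw [← tsum_geometric_of_lt_one (by positivity) (by linarith)]
    exact (summable_geometric_of_lt_one (by positivity) (by linarith)).sum_le_tsum _
      (fun _ _ => by positivity)
  have h10 := mul_le_mul_of_nonneg_left hg1 (by positivity : (0:ℝ) ≤ r ^ (M + 1) * H)
  have hDi : 0 ≤ D⁻¹ := by positivity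
  have h11 := mul_le_mul_of_nonneg_left hg2 (by positivity : (0:ℝ) ≤ 2 * η * E * r ^ (M + 1) * D⁻¹)
  refine (add_le_add h10 h11).trans (le_of_eq ?_)
  rw [div_eq_mul_inv, div_eq_mul_inv]
  ring

/-- powers of a unimodular number -/
theorem zeta_sq {ζ : ℂ} (hζ : ‖ζ‖ = 1) : ζ ^ 2 = 2 * (ζ.re : ℂ) * ζ - 1 := by
  have h1 : ζ * (starRingEnd ℂ) ζ = 1 := by
    rw [Complex.mul_conj, Complex.normSq_eq_norm_sq, hζ]; norm_num
  have h2 : ((2 * ζ.re : ℝ) : ℂ) = ζ + (starRingEnd ℂ) ζ := by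
    rw [Complex.add_conj]
  have h3 : 2 * (ζ.re : ℂ) = ζ + (starRingEnd ℂ) ζ := by
    rw [← h2]; push_cast; ring
  rw [h3, add_mul, mul_comm ((starRingEnd ℂ) ζ) ζ, h1]
  ring

theorem norm_lin_sq {ζ : ℂ} (hζ : ‖ζ‖ = 1) (b d : ℝ) :
    ‖(b : ℂ) * ζ + (d : ℂ)‖ ^ 2 = b ^ 2 + d ^ 2 + 2 * b * d * ζ.re := by
  have h2 : ζ.re ^ 2 + ζ.im ^ 2 = 1 := by
    have : Complex.normSq ζ = 1 := by rw [Complex.normSq_eq_norm_sq, hζ]; norm_num
    rw [Complex.normSq_apply] at this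
    nlinarith
  rw [← Complex.normSq_eq_norm_sq, Complex.normSq_apply]
  simp only [Complex.add_re, Complex.add_im, Complex.mul_re, Complex.mul_im, Complex.ofReal_re,
    Complex.ofReal_im]
  linear_combination b ^ 2 * h2

/-- Representation of `Sm` as `P ζ + R` with real polynomials in `t = Re ζ`. -/
noncomputable def PR (l t : ℝ) : ℕ → ℝ × ℝ
  | 0 => (0, 1)
  | m + 1 => (2 * t * (PR l t m).1 + (PR l t m).2, ((m : ℝ) + 2) * l ^ (m + 1) - (PR l t m).1)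

theorem Sm_PR (l : ℝ) {ζ : ℂ} (hζ : ‖ζ‖ = 1) (m : ℕ) :
    Sm l ζ m = ((PR l ζ.re m).1 : ℂ) * ζ + ((PR l ζ.re m).2 : ℂ) := by
  induction m with
  | zero => simp [Sm, PR]
  | succ m ih =>
    rw [Sm_succ, ih]
    simp only [PR]
    push_cast
    linear_combination ((PR l ζ.re m).1 : ℂ) * zeta_sq hζ

theorem kf_norm_sq {l η : ℝ} {ζ : ℂ} (hζ : ‖ζ‖ = 1) (m : ℕ) :
    ‖kf l η ζ m‖ ^ 2 = (-(2 * η * (PR l ζ.re m).1)) ^ 2 +
      ((1 + η * ((m : ℝ) + 1)) * l ^ m - 2 * η * (PR l ζ.re m).2) ^ 2 +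
      2 * (-(2 * η * (PR l ζ.re m).1)) *
        ((1 + η * ((m : ℝ) + 1)) * l ^ m - 2 * η * (PR l ζ.re m).2) * ζ.re := by
  rw [← norm_lin_sq hζ, kf_eq, Sm_PR l hζ]
  congr 2
  push_cast
  ring

end Pool.Agent.Helper610.Bohr
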