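import Pool.Agent.Helper610.Bohr.FormA
import Pool.Agent.Helper610.Bohr.Fail

open Metric Complex Finset

namespace Pool.Agent.Helper610.Bohr

theorem B_lt {l : ℝ} (h0 : 0 ≤ l) (h : l ≤ 11 / 30) : B l < 1 / (1 + 2 * l) := by
  have h1 : B (11 / 30) < 15 / 26 := by
    by_contra hcon
    push Not at hcon
    exact not_good (good_of_le (by norm_num) (by norm_num) hcon)
  have h2 := mul_B_mono h0 h (by norm_num)
  rw [lt_div_iff₀ (by linarith)]
  norm_num at h2
  nlinarith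

/-- Comparison of the same Schwarz function at two parameters. -/
theorem compare {l₀ l r : ℝ} (h00 : 0 ≤ l₀) (hle : l₀ ≤ l) (h1 : l < 1) (hr0 : 0 ≤ r)
    (hg : Good l r) {f : ℂ → ℂ} (hf : InClass l₀ f) (N : ℕ) :
    ∑ n ∈ range (N + 1), ‖cc l₀ f n‖ * r ^ n ≤
      1 / (1 + l) * (1 + (l - l₀) * ∑ n ∈ range (N + 1), ‖cc l₀ f n‖ * r ^ n) := by
  have h0 : 0 ≤ l := h00.trans hle
  have h01 : l₀ < 1 := hle.trans_lt h1
  set g : ℂ → ℂ := fun z => ((l : ℂ) - om l₀ f z) / (1 - (l : ℂ) * om l₀ f z) with hgdef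
  have hol : ∀ z : ℂ, ‖z‖ < 1 → ‖om l₀ f z‖ < 1 := fun z hz => om_lt h00 h01 hf hz
  have hgc : InClass l g := by
    have hod := om_diff h00 h01 hf
    refine ⟨?_, ?_, ?_⟩
    · refine DifferentiableOn.div (by fun_prop) (by fun_prop) (fun z hz => ?_)
      exact one_sub_ne h0 h1 (hol z (by simpa using hz))
    · intro z hz
      exact moebius_lt h0 h1 (hol z (by simpa using hz))
    · simp [hgdef, om_zero hf]
  have hC := cf_ps hgc
  have hc := cf_ps hf
  have hid : ∀ z : ℂ, ‖z‖ < 1 → cf l₀ f z =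
      cf l g z - ((l - l₀ : ℝ) : ℂ) * (cf l₀ f z * cf l g z) := by
    intro z hz
    have h2 := cf_eq h00 h01 hf hz
    have h3 := one_sub_ne h0 h1 (hol z hz)
    have h4 : cf l g z = om l₀ f z / (1 - (l : ℂ) * om l₀ f z) :=
      alg1 h3 (one_sub_sq_ne h0 h1)
    have h5 := one_sub_ne h00 h01 (hol z hz)
    rw [h2, h4]
    set W : ℂ := om l₀ f z with hW
    have h6 : W / (1 - (l : ℂ) * W) - ((l - l₀ : ℝ) : ℂ) * (W / (1 - (l₀ : ℂ) * W) *
        (W / (1 - (l : ℂ) * W))) = 1 * (W / (1 - (l₀ : ℂ) * W)) :=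
      alg2 h3 h5 (by push_cast; ring)
    rw [h6, one_mul]
  have hrhs : PS (cf l₀ f) (fun n => cc l g n - ((l - l₀ : ℝ) : ℂ) * conv (cc l₀ f) (cc l g) n) :=
    (hC.sub ((hc.mul hC).const_mul _)).congr hid
  have hco := hc.unique hrhs
  have ht0 : 0 ≤ l - l₀ := by linarith
  have hn : ∀ n, ‖cc l₀ f n‖ ≤ ‖cc l g n‖ +
      (l - l₀) * ∑ kl ∈ antidiagonal n, ‖cc l₀ f kl.1‖ * ‖cc l g kl.2‖ := by
    intro n
    have h2 := congrFun hco n
    calc ‖cc l₀ f n‖ = ‖cc l g n - ((l - l₀ : ℝ) : ℂ) * conv (cc l₀ f) (cc l g) n‖ := by rw [← h2]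
      _ ≤ ‖cc l g n‖ + ‖((l - l₀ : ℝ) : ℂ) * conv (cc l₀ f) (cc l g) n‖ := norm_sub_le _ _
      _ ≤ _ := by
        rw [norm_mul, Complex.norm_real, Real.norm_eq_abs, abs_of_nonneg ht0]
        gcongr
        unfold conv
        refine (norm_sum_le _ _).trans (le_of_eq ?_)
        refine Finset.sum_congr rfl (fun kl _ => ?_)
        rw [norm_mul]
  set S : ℝ := ∑ n ∈ range (N + 1), ‖cc l₀ f n‖ * r ^ n with hS
  set M : ℝ := ∑ n ∈ range (N + 1), ‖cc l g n‖ * r ^ n with hM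
  have hS0 : 0 ≤ S := Finset.sum_nonneg (fun n _ => by positivity)
  have hM1 : M ≤ 1 / (1 + l) := by
    rw [hM, sum_cc h0 h1]
    have h2 := hg g hgc N
    have h3 : 0 < 1 - l ^ 2 := by nlinarith
    rw [div_le_div_iff₀ h3 (by linarith)]
    nlinarith
  have hSM : S ≤ M + (l - l₀) * (S * M) := by
    have h2 : S ≤ ∑ n ∈ range (N + 1), (‖cc l g n‖ * r ^ n +
        (l - l₀) * ∑ kl ∈ antidiagonal n, (‖cc l₀ f kl.1‖ * r ^ kl.1) *
          (‖cc l g kl.2‖ * r ^ kl.2)) := by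
      refine Finset.sum_le_sum (fun n _ => ?_)
      have h3 := mul_le_mul_of_nonneg_right (hn n) (pow_nonneg hr0 n)
      refine h3.trans (le_of_eq ?_)
      have h4 : (∑ kl ∈ antidiagonal n, ‖cc l₀ f kl.1‖ * ‖cc l g kl.2‖) * r ^ n =
          ∑ kl ∈ antidiagonal n, (‖cc l₀ f kl.1‖ * r ^ kl.1) * (‖cc l g kl.2‖ * r ^ kl.2) := by
        rw [Finset.sum_mul]
        refine Finset.sum_congr rfl (fun kl hkl => ?_)
        rw [HasAntidiagonal.mem_antidiagonal] at hkl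
        rw [← hkl, pow_add]
        ring
      rw [← h4]
      ring
    rw [Finset.sum_add_distrib, ← Finset.mul_sum] at h2
    have h5 := sum_conv_le (x := fun n => ‖cc l₀ f n‖ * r ^ n)
      (y := fun n => ‖cc l g n‖ * r ^ n) (fun n => by positivity)
      (fun n => by positivity) (N + 1)
    have h6 := mul_le_mul_of_nonneg_left h5 ht0
    linarith
  have h7 : M * (1 + (l - l₀) * S) ≤ 1 / (1 + l) * (1 + (l - l₀) * S) :=
    mul_le_mul_of_nonneg_right hM1 (by positivity)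
  nlinarith

/-- Closedness at the threshold. -/
theorem good_of_right_limit {l₀ : ℝ} (h00 : 0 ≤ l₀) (h01 : l₀ < 1)
    (h : ∀ l, l₀ < l → l < 1 → Good l (1 / (1 + 2 * l))) : Good l₀ (1 / (1 + 2 * l₀)) := by
  intro f hf N
  -- for every r < 1/(1+2 l₀)
  have key : ∀ r, 0 < r → r < 1 / (1 + 2 * l₀) →
      ∑ n ∈ range (N + 1), ‖cc l₀ f n‖ * r ^ n ≤ 1 / (1 + l₀) := by
    intro r hr0 hr
    set S : ℝ := ∑ n ∈ range (N + 1), ‖cc l₀ f n‖ * r ^ n with hS
    have hcont : ContinuousAt (fun l : ℝ => 1 / (1 + l) * (1 + (l - l₀) * S)) l₀ := by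
      have : (1 : ℝ) + l₀ ≠ 0 := by positivity
      fun_prop (disch := exact this)
    have ht : Filter.Tendsto (fun l : ℝ => 1 / (1 + l) * (1 + (l - l₀) * S))
        (nhdsWithin l₀ (Set.Ioi l₀)) (nhds (1 / (1 + l₀) * (1 + (l₀ - l₀) * S))) :=
      hcont.tendsto.mono_left nhdsWithin_le_nhds
    have h2 : S ≤ 1 / (1 + l₀) * (1 + (l₀ - l₀) * S) := by
      refine ge_of_tendsto ht ?_
      have hc2 : ContinuousAt (fun l : ℝ => 1 / (1 + 2 * l)) l₀ := by
        have : (1 : ℝ) + 2 * l₀ ≠ 0 := by positivity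
        fun_prop (disch := exact this)
      have hev := (hc2.tendsto.mono_left (nhdsWithin_le_nhds (s := Set.Ioi l₀))).eventually
        (lt_mem_nhds hr)
      filter_upwards [hev, Ioo_mem_nhdsGT h01] with l hl1 hl2
      have hgood := (h l hl2.1 hl2.2).mono hr0.le hl1.le
      exact compare h00 hl2.1.le hl2.2 hr0.le hgood hf N
    simpa using h2
  have hpos : 0 < 1 / (1 + 2 * l₀) := by positivity
  have hc : Continuous (fun r : ℝ => ∑ n ∈ range (N + 1), ‖cc l₀ f n‖ * r ^ n) := by fun_prop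
  have ht := (hc.tendsto (1 / (1 + 2 * l₀))).mono_left
    (nhdsWithin_le_nhds (s := Set.Iio (1 / (1 + 2 * l₀))))
  have h3 := le_of_tendsto ht (b := 1 / (1 + l₀)) (by
    filter_upwards [Ioo_mem_nhdsLT hpos] with r hr
    exact key r hr.1 hr.2)
  rw [sum_cc h00 h01, div_le_div_iff₀ (by nlinarith) (by linarith)] at h3
  nlinarith

/-- There is a sharp threshold for the formula `B(l) = 1/(1+2l)`. -/
theorem threshold {U : ℝ} (hU0 : 0 ≤ U) (hU1 : U < 1)
    (hU : B U = 1 / (1 + 2 * U)) : ∃ s : ℝ, 11 / 30 < s ∧ s ≤ U ∧ ∀ l : ℝ, 0 ≤ l → l < 1 →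
      (B l = 1 / (1 + 2 * l) ↔ s ≤ l) := by
  set T : Set ℝ := {l : ℝ | 0 ≤ l ∧ l < 1 ∧ B l = 1 / (1 + 2 * l)} with hT
  have hbd : BddBelow T := ⟨0, fun x hx => hx.1⟩
  have hUT : U ∈ T := ⟨hU0, hU1, hU⟩
  have hlow : ∀ x ∈ T, 11 / 30 ≤ x := by
    intro x hx
    by_contra hcon
    push Not at hcon
    have := B_lt hx.1 hcon.le
    linarith [hx.2.2]
  have hs0 : 11 / 30 ≤ sInf T := le_csInf ⟨U, hUT⟩ hlow
  have hs1 : sInf T ≤ U := csInf_le hbd hUT
  have hup : ∀ l, sInf T < l → l < 1 → B l = 1 / (1 + 2 * l) := by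
    intro l hl hl1
    obtain ⟨x, hx, hxl⟩ := exists_lt_of_csInf_lt ⟨U, hUT⟩ hl
    have hl0 : 0 < l := by linarith
    refine le_antisymm (B_le hl0 hl1) ?_
    have h3 := mul_B_mono hx.1 hxl.le hl1
    have h4 : (1 + 2 * x) * B x = 1 := by
      rw [hx.2.2]
      have : (1 : ℝ) + 2 * x ≠ 0 := by linarith [hx.1]
      field_simp
    rw [h4] at h3
    rw [div_le_iff₀ (by linarith)]
    linarith
  have hsg : Good (sInf T) (1 / (1 + 2 * sInf T)) := by
    refine good_of_right_limit (by linarith) (by linarith) (fun l hl hl1 => ?_)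
    have h5 := hup l hl hl1
    refine good_of_le hl1.le ?_ h5.ge
    have : 0 < l := by linarith
    positivity
  have hsB : B (sInf T) = 1 / (1 + 2 * sInf T) := by
    refine le_antisymm (B_le (by linarith) (by linarith)) ?_
    refine le_B hsg ?_ ?_
    · have : 0 ≤ sInf T := by linarith
      positivity
    · rw [div_lt_one (by linarith)]
      linarith
  refine ⟨sInf T, ?_, hs1, ?_⟩
  · rcases eq_or_lt_of_le hs0 with h | h
    · exfalso
      have h6 := B_lt (l := sInf T) (by linarith) h.ge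
      linarith
    · exact h
  · intro l hl0 hl1
    constructor
    · intro h
      exact csInf_le hbd ⟨hl0, hl1, h⟩
    · intro h
      rcases eq_or_lt_of_le h with h2 | h2
      · rw [← h2]; exact hsB
      · exact hup l h2 hl1

end Pool.Agent.Helper610.Bohr
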